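import Pool.Agent.Run7.h370.MR.ConcDefs

/-!
# Special points, and (noncommutative, variational) Hodge classes, for abelian varieties with one
Frobenius element with given Weil numbers: definitions
-/

set_option autoImplicit false

namespace Run7.h8.IC

open NumberField Module Pool.Agent.H204R3.GP Pool.Agent.TH170.FT

/-! ### Galois special points -/

/-- The abelian variety `A_x` (with `W = H_1(A_x, ℚ)` in the tangent space by `per`, and the
`ℓ`-adic representation `ρ`, `χ`, with the comparison `comp`), and the generic abelian variety over a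
subvariety `Y` of the moduli space with `x ∈ Y` (with `per'`, `ρ'`, `χ'`; the groups `H_1` are
identified by parallel transport) have the same Mumford-Tate group: each Hodge class of `A_x` in the
tensor powers of `H^1` is a Hodge class for `Y`. The other two properties are known for all `Y ∋ x`:
Hodge classes for `Y` are Tate classes for `Y` (Deligne), and Tate classes for `Y` are Tate classes for
`x` (specialization). -/
structure SameMumfordTate {k : Type} [Field k] [CharZero k] {W T T' V Γ Γ' : Type}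
    [AddCommGroup W] [Module ℚ W] [AddCommGroup T] [Module ℂ T] [AddCommGroup T'] [Module ℂ T']
    [AddCommGroup V] [Module k V] [Group Γ] [Group Γ'] (per : W →+ T) (per' : W →+ T')
    (comp : W →+ V) (ρ : Representation k Γ V) (χ : Γ →* k) (ρ' : Representation k Γ' V)
    (χ' : Γ' →* k) : Prop where
  hodge : ∀ (m : ℕ) (ψ : MultilinearMap ℚ (fun _ : Fin m × Fin 2 => W) ℚ),
    IsHodgeTensor per ψ → IsHodgeTensor per' ψ
  deligne : ∀ (m : ℕ) (ψ : MultilinearMap ℚ (fun _ : Fin m × Fin 2 => W) ℚ)
    (φ : MultilinearMap k (fun _ : Fin m × Fin 2 => V) k),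
    IsHodgeTensor per' ψ → Compares comp φ ψ → IsTateTensor ρ' χ' m φ
  specialization : ∀ (m : ℕ) (φ : MultilinearMap k (fun _ : Fin m × Fin 2 => V) k),
    IsTateTensor ρ' χ' m φ → IsTateTensor ρ χ m φ

/-- Let `x` be a point of the moduli space such that `A_x` has a Frobenius element whose
characteristic polynomial is the product of the minimal polynomials of the `π i`. For all `Y ∋ x`
with `G_Y = G_x` also `G_{ℓ,Y} = G_{ℓ,x}`: all Tate classes of `A_x` in the tensor powers of `H^1` are
Tate classes for `Y`, and conversely. So if `x` is `ℓ`-Galois special, then `x` is special. -/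
def SpecialFor (p a : ℕ) {I : Type} [Fintype I] (K : I → Type) [∀ i, Field (K i)]
    [∀ i, NumberField (K i)] (π : ∀ i, K i) : Prop :=
  ∀ (ℓ : ℕ) [Fact ℓ.Prime] (W T T' V Γ Γ' : Type) [AddCommGroup W] [Module ℚ W] [AddCommGroup T]
    [Module ℂ T] [AddCommGroup T'] [Module ℂ T'] [AddCommGroup V] [Module ℚ_[ℓ] V]
    [FiniteDimensional ℚ_[ℓ] V] [Group Γ] [Group Γ'] (per : W →+ T) (per' : W →+ T')
    (ω₀ : W →ₗ[ℚ] W →ₗ[ℚ] ℚ) (comp : W →+ V) (ρ : Representation ℚ_[ℓ] Γ V) (χ : Γ →* ℚ_[ℓ])
    (ω : V →ₗ[ℚ_[ℓ]] V →ₗ[ℚ_[ℓ]] ℚ_[ℓ]) (ρ' : Representation ℚ_[ℓ] Γ' V) (χ' : Γ' →* ℚ_[ℓ]),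
    IsRealization per ω₀ comp ρ χ ω → HasFrobenius ρ χ p a π →
      SameMumfordTate per per' comp ρ χ ρ' χ' →
        ∀ (m : ℕ) (φ : MultilinearMap ℚ_[ℓ] (fun _ : Fin m × Fin 2 => V) ℚ_[ℓ]),
          IsTateTensor ρ χ m φ ↔ IsTateTensor ρ' χ' m φ

/-! ### Noncommutative Hodge classes -/

/-- The rational cohomology of a variety `X` (for instance a power of `A`) is a direct summand of the
sum of the spaces `(H^1(A, ℚ) ^ {⊗ 2 d j}) (d j)`. The submodule `N` of the sum of these spaces
contains the classes of algebraic cycles, in particular (`hN`) the products of Hodge classes of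
degree two (Lefschetz). The endomorphism `e` is given by the projection functor of an admissible
subcategory `C` of the derived category of `X`: it maps `N = K_0(X) ⊗ ℚ` onto the classes of
`K_0(C) ⊗ ℚ`, and the rational topological K-group of `C` consists of the `v` with `e v = v`. **Then
each Hodge class of `C` is the class of an element of `K_0(C) ⊗ ℚ`.** -/
def NCHodge {W T : Type} [AddCommGroup W] [Module ℚ W] [AddCommGroup T] [Module ℂ T]
    (per : W →+ T) : Prop :=
  ∀ (J : Type) [Fintype J] (d : J → ℕ)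
    (N : Submodule ℚ (∀ j, MultilinearMap ℚ (fun _ : Fin (d j) × Fin 2 => W) ℚ))
    (e : (∀ j, MultilinearMap ℚ (fun _ : Fin (d j) × Fin 2 => W) ℚ) →ₗ[ℚ]
      (∀ j, MultilinearMap ℚ (fun _ : Fin (d j) × Fin 2 => W) ℚ)),
    (∀ v : (∀ j, MultilinearMap ℚ (fun _ : Fin (d j) × Fin 2 => W) ℚ),
      (∀ j, v j ∈ Submodule.span ℚ {ψ | IsProductOfHodgeBilinear per ψ}) → v ∈ N) →
    ∀ v : (∀ j, MultilinearMap ℚ (fun _ : Fin (d j) × Fin 2 => W) ℚ),
      e v = v → (∀ j, IsHodgeTensor per (v j)) → v ∈ N.map e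

/-- `NCHodge` for the complex abelian varieties with a Frobenius element whose characteristic
polynomial is the product of the minimal polynomials of the `π i`. -/
def NCHodgeFor (p a : ℕ) {I : Type} [Fintype I] (K : I → Type) [∀ i, Field (K i)]
    [∀ i, NumberField (K i)] (π : ∀ i, K i) : Prop :=
  ∀ (W T Γ : Type) [AddCommGroup W] [Module ℚ W] [FiniteDimensional ℚ W] [AddCommGroup T]
    [Module ℂ T] [Group Γ] (per : W →+ T) (ω₀ : W →ₗ[ℚ] W →ₗ[ℚ] ℚ) (ℓ : ℕ) [Fact ℓ.Prime]
    (D : GaloisData per ω₀ Γ ℓ), HasFrobenius D.ρ D.χ p a π → NCHodge per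

/-! ### Families -/

/-- An abelian scheme over a base `S`, with the groups `H_1(A_s, ℚ)` identified with `W` by parallel
transport, included in the tangent spaces `T s` by `per s`, and with the monodromy group acting on `W`
by the linear maps in the set `G`.

* (`general`) The point `s₀` is very general: Hodge classes of degree two of the fibre at `s₀` are Hodge
  classes on all fibres.
* (`fixedPart`) A global section of the local system `(H^1)^{⊗ 2 m}(m)` which is a Hodge class on one
  fibre is a Hodge class on all fibres (Deligne). -/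
structure IsFamily {S W : Type} {T : S → Type} [AddCommGroup W] [Module ℚ W]
    [∀ s, AddCommGroup (T s)] [∀ s, Module ℂ (T s)] (per : ∀ s, W →+ T s) (G : Set (W →ₗ[ℚ] W))
    (s₀ : S) : Prop where
  general : ∀ B : W →ₗ[ℚ] W →ₗ[ℚ] ℚ, IsHodgeBilinear (per s₀) B → ∀ s, IsHodgeBilinear (per s) B
  fixedPart : ∀ (m : ℕ) (ψ : MultilinearMap ℚ (fun _ : Fin m × Fin 2 => W) ℚ),
    (∀ g ∈ G, ψ.compLinearMap (fun _ => g) = ψ) → ∀ s, IsHodgeTensor (per s) ψ →
      ∀ s', IsHodgeTensor (per s') ψ

/-- The variational Hodge conjecture: if a global section of `(H^1)^{⊗ 2 m}(m)` (of which the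
cohomology of the fibre powers is a direct summand) is a Hodge class on one fibre, for instance the
class of an algebraic cycle, then on **every** fibre `A_s` it is a linear combination of products of
Hodge classes of degree two of `A_s`, and so the class of an algebraic cycle. -/
def Variational {S W : Type} {T : S → Type} [AddCommGroup W] [Module ℚ W]
    [∀ s, AddCommGroup (T s)] [∀ s, Module ℂ (T s)] (per : ∀ s, W →+ T s)
    (G : Set (W →ₗ[ℚ] W)) : Prop :=
  ∀ (m : ℕ) (ψ : MultilinearMap ℚ (fun _ : Fin m × Fin 2 => W) ℚ),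
    (∀ g ∈ G, ψ.compLinearMap (fun _ => g) = ψ) → ∀ s, IsHodgeTensor (per s) ψ →
      ∀ s', ψ ∈ Submodule.span ℚ {ψ' : MultilinearMap ℚ (fun _ : Fin m × Fin 2 => W) ℚ |
        IsProductOfHodgeBilinear (per s') ψ'}

/-- The noncommutative variational Hodge conjecture. As in `NCHodge`, the rational cohomology of the
fibre `X_s` of a family `X` (for instance a fibre power of the abelian scheme) is a direct summand of
the sum of the spaces `(H^1)^{⊗ 2 d j}(d j)`; the submodule `N s` contains the classes of algebraic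
cycles on `X_s`; the endomorphism `e` is given by the projection functor of an `S`-linear admissible
subcategory `C`. If a global section `v` of the K-theory of `C` (`e v = v`) is a Hodge class on one
fibre, then on every fibre it is the class of an element of `K_0(C_s) ⊗ ℚ`. -/
def NCVariational {S W : Type} {T : S → Type} [AddCommGroup W] [Module ℚ W]
    [∀ s, AddCommGroup (T s)] [∀ s, Module ℂ (T s)] (per : ∀ s, W →+ T s)
    (G : Set (W →ₗ[ℚ] W)) : Prop :=
  ∀ (J : Type) [Fintype J] (d : J → ℕ)
    (N : S → Submodule ℚ (∀ j, MultilinearMap ℚ (fun _ : Fin (d j) × Fin 2 => W) ℚ))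
    (e : (∀ j, MultilinearMap ℚ (fun _ : Fin (d j) × Fin 2 => W) ℚ) →ₗ[ℚ]
      (∀ j, MultilinearMap ℚ (fun _ : Fin (d j) × Fin 2 => W) ℚ)),
    (∀ s, ∀ v : (∀ j, MultilinearMap ℚ (fun _ : Fin (d j) × Fin 2 => W) ℚ),
      (∀ j, v j ∈ Submodule.span ℚ {ψ | IsProductOfHodgeBilinear (per s) ψ}) → v ∈ N s) →
    ∀ v : (∀ j, MultilinearMap ℚ (fun _ : Fin (d j) × Fin 2 => W) ℚ),
      e v = v → (∀ g ∈ G, ∀ j, (v j).compLinearMap (fun _ => g) = v j) →
        ∀ s, (∀ j, IsHodgeTensor (per s) (v j)) → ∀ s', v ∈ (N s').map e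

/-- A property of the abelian schemes whose fibre at a very general point `s₀` (over a finitely
generated field) has a Frobenius element whose characteristic polynomial is the product of the
minimal polynomials of the `π i`. -/
def FamiliesFor (p a : ℕ) {I : Type} [Fintype I] (K : I → Type) [∀ i, Field (K i)]
    [∀ i, NumberField (K i)] (π : ∀ i, K i)
    (P : ∀ (S W : Type) (T : S → Type) [AddCommGroup W] [Module ℚ W] [∀ s, AddCommGroup (T s)]
      [∀ s, Module ℂ (T s)] (_ : ∀ s, W →+ T s), Set (W →ₗ[ℚ] W) → Prop) : Prop :=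
  ∀ (S W Γ : Type) (T : S → Type) [AddCommGroup W] [Module ℚ W] [FiniteDimensional ℚ W]
    [∀ s, AddCommGroup (T s)] [∀ s, Module ℂ (T s)] [Group Γ] (per : ∀ s, W →+ T s)
    (G : Set (W →ₗ[ℚ] W)) (s₀ : S) (ω₀ : W →ₗ[ℚ] W →ₗ[ℚ] ℚ) (ℓ : ℕ) [Fact ℓ.Prime]
    (D : GaloisData (per s₀) ω₀ Γ ℓ), HasFrobenius D.ρ D.χ p a π → IsFamily per G s₀ →
      P S W T per G

end Run7.h8.IC
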