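import Pool.Agent.Run7.h8.IC.Conc
import Pool.Agent.Run7.h8.IC.GalDefs

/-!
# Special points, and (noncommutative, variational) Hodge classes, for abelian varieties with one
Frobenius element with given Weil numbers
-/

set_option autoImplicit false

namespace Run7.h8.IC

open NumberField Module Pool.Agent.H204R3.GP Pool.Agent.TH170.FT Pool.Agent.TH170 Run7.h370.MR

section tate

variable {k : Type} [Field k] {V Γ : Type} [AddCommGroup V] [Module k V] [Group Γ]
  {ρ : Representation k Γ V} {χ : Γ →* k} {m : ℕ}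

/-- The Tate classes form a subspace. -/
theorem isTate_of_span {X : Set (MultilinearMap k (fun _ : Fin m × Fin 2 => V) k)}
    (hX : ∀ φ ∈ X, IsTateTensor ρ χ m φ) {φ : MultilinearMap k (fun _ : Fin m × Fin 2 => V) k}
    (hφ : φ ∈ Submodule.span k X) : IsTateTensor ρ χ m φ := by
  induction hφ using Submodule.span_induction with
  | mem x hx => exact hX x hx
  | zero =>
    refine ⟨⊤, inferInstance, fun s _ v => ?_⟩
    simp
  | add x y _ _ hx hy =>
    obtain ⟨Δ, h1, h2⟩ := hx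
    obtain ⟨Δ', h3, h4⟩ := hy
    refine ⟨Δ ⊓ Δ', inferInstance, fun s hs v => ?_⟩
    rw [MultilinearMap.add_apply, MultilinearMap.add_apply, h2 s hs.1, h4 s hs.2, mul_add]
  | smul c x _ hx =>
    obtain ⟨Δ, h1, h2⟩ := hx
    refine ⟨Δ, h1, fun s hs v => ?_⟩
    rw [MultilinearMap.smul_apply, MultilinearMap.smul_apply, h2 s hs, smul_eq_mul, smul_eq_mul]
    ring

end tate

theorem specialFor : FollowsFromAngle (fun p _ a _ _ K _ _ _ π => SpecialFor p a K π) := by
  intro p _ a I _ K _ _ _ π ha hgen hw hang ℓ _ W T T' V Γ Γ' _ _ _ _ _ _ _ _ _ _ _ per per' ω₀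
    comp ρ χ ω ρ' χ' hR hF hS m φ
  refine ⟨fun hφ => ?_, fun hφ => hS.specialization m φ hφ⟩
  have h1 := mumfordTateFor p a I K π ha hgen hw hang ℓ W T V Γ per ω₀ comp ρ χ ω hR hF m φ hφ
  refine isTate_of_span ?_ h1
  rintro φ' ⟨ψ, h2, h3, h4⟩
  exact hS.deligne m ψ φ' (hS.hodge m ψ h2) h4

theorem ncHodge {W T : Type} [AddCommGroup W] [Module ℚ W] [AddCommGroup T] [Module ℂ T]
    {per : W →+ T} (h : HodgeInDegreeTwo per) : NCHodge per := by
  intro J _ d N e hN v hv hH
  exact ⟨v, hN v fun j => h (d j) (v j) (hH j), hv⟩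

theorem ncHodgeFor : FollowsFromAngle (fun p _ a _ _ K _ _ _ π => NCHodgeFor p a K π) := by
  intro p _ a I _ K _ _ _ π ha hgen hw hang W T Γ _ _ _ _ _ _ per ω₀ ℓ _ D hF
  exact ncHodge (hodgeFor p a I K π ha hgen hw hang W T Γ per ω₀ ℓ D hF)

section families

variable {S W : Type} {T : S → Type} [AddCommGroup W] [Module ℚ W]
  [∀ s, AddCommGroup (T s)] [∀ s, Module ℂ (T s)] {per : ∀ s, W →+ T s} {G : Set (W →ₗ[ℚ] W)}
  {s₀ : S}

theorem variational (h : HodgeInDegreeTwo (per s₀)) (hG : IsFamily per G s₀) :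
    Variational per G := by
  intro m ψ hψ s hs s'
  refine Submodule.span_mono ?_ (h m ψ (hG.fixedPart m ψ hψ s hs s₀))
  rintro ψ' ⟨σ, B, hB, h1⟩
  exact ⟨σ, B, fun l => hG.general (B l) (hB l) s', h1⟩

theorem ncVariational (h : HodgeInDegreeTwo (per s₀)) (hG : IsFamily per G s₀) :
    NCVariational per G := by
  intro J _ d N e hN v hv hinv s hs s'
  exact ⟨v, hN s' v fun j => variational h hG (d j) (v j) (fun g hg => hinv g hg j) s (hs j) s',
    hv⟩

end families

theorem variationalFor : FollowsFromAngle (fun p _ a _ _ K _ _ _ π =>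
    FamiliesFor p a K π fun _ _ _ _ _ _ _ per G => Variational per G) := by
  intro p _ a I _ K _ _ _ π ha hgen hw hang S W Γ T _ _ _ _ _ _ per G s₀ ω₀ ℓ _ D hF hG
  exact variational (hodgeFor p a I K π ha hgen hw hang W (T s₀) Γ (per s₀) ω₀ ℓ D hF) hG

theorem ncVariationalFor : FollowsFromAngle (fun p _ a _ _ K _ _ _ π =>
    FamiliesFor p a K π fun _ _ _ _ _ _ _ per G => NCVariational per G) := by
  intro p _ a I _ K _ _ _ π ha hgen hw hang S W Γ T _ _ _ _ _ _ per G s₀ ω₀ ℓ _ D hF hG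
  exact ncVariational (hodgeFor p a I K π ha hgen hw hang W (T s₀) Γ (per s₀) ω₀ ℓ D hF) hG

end Run7.h8.IC
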