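import Pool.Agent.Run7.h8.IC.CM
import Pool.Agent.Run7.h879.HC.Real
import Pool.Agent.Y1.HZ.Betti

/-!
# Products with abelian varieties with CM types of CM fields with isolated cycles
-/

set_option autoImplicit false

namespace Run7.h8.IC.CMT

open NumberField Pool.Agent.H204R3.CM Pool.Agent.W547.KB Pool.Agent.Y1.HZ Pool.Agent.Run7.h879.HC

variable {ι : Type} [Fintype ι] {A : ι → CMPair}

theorem hodgeTimes (hc : AllCyclic A) (hs : Separated A) : HodgeTimes (Ty A) := by
  obtain ⟨L, _, _, j, hj⟩ := exists_galois fun i => (A i).E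
  intro J _ t v V hun F hF
  exact mem_cross (fun i => (A i).isCMType) t j V hj (nondeg_of_cyclic j hj hc hs) hun F hF

theorem fullTimes (hc : AllCyclic A) (hs : Separated A) : FullTimes (Ty A) :=
  fullTimes_of_hodgeTimes (hodgeTimes hc hs)

end Run7.h8.IC.CMT
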