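import Pool.Agent.Run7.h8.IC.Core
import Pool.Agent.W527.Sub

/-!
# No relations between the slopes: fields whose CM subfields have isolated cycles
-/

set_option linter.unusedSectionVars false
set_option linter.unusedVariables false

namespace Run7.h8.IC

open NumberField Module Pool.Agent.H204R3.CM Pool.Agent.H977R3.WN Pool.Agent.W527

noncomputable section

variable {L : Type*} [Field L] [NumberField L] [IsGalois ℚ L]
variable {ι : Type*} [Fintype ι] {E : ι → Type*} [∀ i, Field (E i)] [∀ i, NumberField (E i)]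
  [∀ i, IsCMField (E i)]

/-- The embeddings of the family of subfields have an isolated cycle. -/
def IsoL (κ : L ≃ₐ[ℚ] L) (T : ∀ i, IntermediateField ℚ (E i)) (S : Finset ι) : Prop :=
  IsoCycle (Y := SubEmb L T S) (subCb κ T S) (L ≃ₐ[ℚ] L)

theorem iso_sub {κ : L ≃ₐ[ℚ] L} (hκ : ∀ i, ∀ φ : E i →+* L, κ • φ = cbar φ)
    (φ₀ : ∀ i, (E i →+* L)) {w : ∀ i, (E i →+* L) → ℤ} (hw : ∀ i φ, w i (cbar φ) = -w i φ)
    (T : ∀ i, IntermediateField ℚ (E i)) (S : Finset ι) (hT : ∀ i ∈ S, NonReal (T i))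
    (hsep : Separates w) (c : ∀ i, (T i →+* L) → ℤ) (hc : ∀ i ψ, c i (κ • ψ) = - c i ψ)
    (hrel : ∀ k τ : L ≃ₐ[ℚ] L, ∑ i ∈ S, ∑ ψ : (T i →+* L),
      c i (k • ψ) * tr (T i) (w i) (τ • ψ) = 0)
    (hiso : IsoL κ T S) :
    ∃ i ∈ S, ∃ (σ : L ≃ₐ[ℚ] L) (ψ : T i →+* L), σ • ψ ≠ ψ ∧
      ∀ g : L ≃ₐ[ℚ] L, c i (g • σ • ψ) = c i (g • ψ) := by
  classical
  have hcb : ∀ y : SubEmb L T S, subCb κ T S (subCb κ T S y) = y := by
    rintro ⟨i, ψ⟩
    unfold subCb
    rw [sub_invol (φ₀ i) (hκ i)]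
  have hG : ∀ (g : L ≃ₐ[ℚ] L) (y : SubEmb L T S), g • subCb κ T S y = subCb κ T S (g • y) := by
    rintro g ⟨i, ψ⟩
    change (⟨i, g • κ • ψ⟩ : SubEmb L T S) = ⟨i, κ • g • ψ⟩
    rw [sub_comm (φ₀ i) (hκ i)]
  have hW : ∀ y : SubEmb L T S, (subW w T S (subCb κ T S y) : ℚ) = - (subW w T S y : ℚ) := by
    intro y
    have h1 : subW w T S (subCb κ T S y) = - subW w T S y :=
      tr_odd (φ₀ y.1) (hκ y.1) (T y.1) (hw y.1) y.2
    rw [h1]
    push_cast
    rfl
  have hsep' : ∀ (y y' : SubEmb L T S),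
      (∀ g : L ≃ₐ[ℚ] L, subW w T S (g • y) = subW w T S (g • y')) → y = y' := by
    intro y y' h
    refine sigma_eq_of y y' (hsep T y.1 y'.1 (hT _ y.1.2) (hT _ y'.1.2) y.2 y'.2 1 1 one_pos
      one_pos fun g => ?_)
    rw [one_mul, one_mul]
    exact h g
  obtain ⟨σ, ⟨⟨i, hi⟩, ψ⟩, hmove, hdich⟩ := dichotomy (G := L ≃ₐ[ℚ] L) (Y := SubEmb L T S)
    (cb := subCb κ T S) hcb hG (W := fun y => (subW w T S y : ℚ)) hW hiso
  rcases hdich with h1 | h1
  · exfalso
    apply hmove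
    apply hsep'
    intro g
    exact_mod_cast h1 g
  · refine ⟨i, hi, σ, ψ, fun h => hmove ?_, fun g => ?_⟩
    · change (⟨⟨i, hi⟩, σ • ψ⟩ : SubEmb L T S) = ⟨⟨i, hi⟩, ψ⟩
      rw [h]
    · exact h1 (fun y => c y.1 y.2) (fun y => hc _ _) (fun g => by
        have h2 := hrel 1 g
        simp only [one_smul] at h2
        have h3 := Finset.sum_coe_sort S (fun i => ∑ ψ : (T i →+* L),
          c i ψ * tr (T i) (w i) (g • ψ))
        rw [← h3] at h2
        have h4 : ∑ y : SubEmb L T S, c y.1 y.2 * subW w T S (g • y) = 0 := by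
          rw [Fintype.sum_sigma]
          exact h2
        exact_mod_cast h4) g

/-- There are no relations if all families of CM subfields satisfy one of the three conditions and
the translates separate embeddings of CM subfields. -/
theorem free_of_iso {κ : L ≃ₐ[ℚ] L} (hκ : ∀ i, ∀ φ : E i →+* L, κ • φ = cbar φ)
    (hne : ∀ i, Nonempty (E i →+* L)) {w : ∀ i, (E i →+* L) → ℤ}
    (hw : ∀ i φ, w i (cbar φ) = -w i φ)
    (hsmall : ∀ (T : ∀ i, IntermediateField ℚ (E i)) (S : Finset ι), S.Nonempty →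
      (∀ i ∈ S, NonReal (T i)) → FewMoved w T S ∨ PrimeCycle κ T S ∨ IsoL κ T S)
    (hsep : Separates w) : Free (F := E) (L := L) w := by
  classical
  intro c hc hrel
  by_contra hcon
  push Not at hcon
  have φ₀ : ∀ i, (E i →+* L) := fun i => (hne i).some
  choose T c' hc' hmin using fun i => exists_factor (φ₀ i) (c i)
  let S : Finset ι := Finset.univ.filter (fun i => ∃ φ, c i φ ≠ 0)
  have hS : S.Nonempty := by
    obtain ⟨i, φ, h⟩ := hcon
    exact ⟨i, Finset.mem_filter.2 ⟨Finset.mem_univ _, φ, h⟩⟩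
  have hNS : ∀ i, i ∉ S → ∀ ψ : T i →+* L, c' i ψ = 0 := by
    intro i hi ψ
    obtain ⟨φ, rfl⟩ := res_surjective (φ₀ i) (T i) ψ
    rw [← hc']
    by_contra h
    exact hi (Finset.mem_filter.2 ⟨Finset.mem_univ _, φ, h⟩)
  have hT : ∀ i ∈ S, NonReal (T i) := by
    intro i hi
    by_contra hreal
    unfold NonReal at hreal
    push Not at hreal
    obtain ⟨φ, hφ⟩ := (Finset.mem_filter.1 hi).2
    have h1 : res (T i) (cbar φ) = res (T i) φ := by
      ext x
      rw [res_apply, res_apply, cbar_apply, hreal x x.2]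
    have h2 : c i (cbar φ) = c i φ := by rw [hc', hc', h1]
    rw [hc] at h2
    apply hφ
    omega
  have hodd : ∀ i (ψ : T i →+* L), c' i (κ • ψ) = - c' i ψ := by
    intro i ψ
    obtain ⟨φ, rfl⟩ := res_surjective (φ₀ i) (T i) ψ
    rw [← res_smul, ← hc', ← hc', hκ, hc]
  have hrelS : ∀ k τ : L ≃ₐ[ℚ] L, ∑ i ∈ S, ∑ ψ : (T i →+* L),
      c' i (k • ψ) * tr (T i) (w i) (τ • ψ) = 0 := by
    intro k τ
    have h1 : ∀ i, ∑ ψ : (T i →+* L), c' i (k • ψ) * tr (T i) (w i) (τ • ψ) =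
        ∑ φ : (E i →+* L), c i (k • φ) * w i (τ • φ) := by
      intro i
      rw [← sum_res (T i) (fun ψ => c' i (k • ψ)) (w i) τ]
      refine Finset.sum_congr rfl fun φ _ => ?_
      rw [← res_smul, ← hc']
    rw [Finset.sum_congr rfl (fun i _ => h1 i), ← rel_translate hrel k τ]
    refine Finset.sum_subset (Finset.subset_univ S) fun i _ hi => ?_
    refine Finset.sum_eq_zero fun φ _ => ?_
    rw [hc', hNS i hi, zero_mul]
  -- some relation between embeddings of the smallest subfields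
  have main : ∃ i ∈ S, ∃ (σ : L ≃ₐ[ℚ] L) (ψ : T i →+* L), σ • ψ ≠ ψ ∧
      ∀ g : L ≃ₐ[ℚ] L, c' i (g • σ • ψ) = c' i (g • ψ) := by
    rcases hsmall T S hS hT with ⟨i₀, hi₀, σ, ⟨ψ₀, hψ₀⟩, hmv⟩ | hcyc | hiso
    · refine ⟨i₀, hi₀, σ, ψ₀, hψ₀, fun g => ?_⟩
      have hb0 : ∀ i (ψ : T i →+* L), σ • ψ = ψ → c' i ((g * σ) • ψ) - c' i (g • ψ) = 0 := by
        intro i ψ h
        rw [mul_smul, h, sub_self]
      have hcard := card_support_le T S σ (fun i ψ => c' i ((g * σ) • ψ) - c' i (g • ψ)) hb0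
      have key := small_sub hκ φ₀ hw T S hT hsep (fun i ψ => c' i ((g * σ) • ψ) - c' i (g • ψ))
        (fun i ψ => by
          rw [sub_comm (φ₀ i) (hκ i), sub_comm (φ₀ i) (hκ i), hodd, hodd]
          ring)
        (fun τ => by
          have h1 := hrelS (g * σ) τ
          have h2 := hrelS g τ
          simp only [sub_mul, Finset.sum_sub_distrib]
          rw [h1, h2, sub_zero])
        (by
          rcases hmv with h | ⟨h, h'⟩
          · exact Or.inl (lt_of_le_of_lt hcard h)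
          · exact Or.inr ⟨lt_of_le_of_lt hcard h, h'⟩) i₀ hi₀ ψ₀
      rw [mul_smul] at key
      omega
    · exact cycle_sub hκ φ₀ hw T S hT hsep c' hodd hrelS hcyc
    · exact iso_sub hκ φ₀ hw T S hT hsep c' hodd hrelS hiso
  obtain ⟨i, hi, σ, ψ, hmove, hinv⟩ := main
  obtain ⟨φ, rfl⟩ := res_surjective (φ₀ i) (T i) ψ
  apply hmove
  rw [← res_smul]
  apply hmin i σ φ
  intro g
  rw [hc', hc']
  exact hinv g

end

end Run7.h8.IC
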