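import Pool.Agent.W527.DecBad
import Pool.Agent.Run7.h8.IC.Free

/-!
# Decomposition of balanced families of embeddings, fields with isolated cycles

This file repeats the arguments of `W527.DecField`, `W527.DecFamily`, `W527.DecBlock` and
`W527.DecBad` (starting files) with the condition of isolated cycles as a further alternative.
-/

set_option linter.unusedSectionVars false
set_option linter.unusedVariables false

namespace Run7.h8.IC.Dec

open NumberField Module Pool.Agent.W527 Pool.Agent.H204R3.CM Pool.Agent.H977R3.WN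
  Pool.Agent.W527.Dec

noncomputable section

section abs

variable {G Y : Type*} [Group G] [MulAction G Y] [Fintype Y]

variable {cb : Y → Y} (hcb : ∀ y, cb (cb y) = y) (hne : ∀ y, cb y ≠ y)
  (hG : ∀ (g : G) (y : Y), g • cb y = cb (g • y)) {W : Y → ℤ} (hW : ∀ y, W (cb y) = -W y)
  (hsep : ∀ (y y' : Y) (m n : ℤ), 0 < m → 0 < n → (∀ g : G, m * W (g • y) = n * W (g • y')) →
      y = y')

include hcb hne hG hW hsep in
/-- All relations are invariant under some element that moves a point. -/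
theorem exists_movedC (hsm : Small cb W G ∨ IsoCycle cb G) {c : Y → ℤ}
    (hc : ∀ y, c (cb y) = -c y) (hrel : ∀ g : G, ∑ y, c y * W (g • y) = 0) :
    ∃ (σ : G) (y : Y), σ • y ≠ y ∧ ∀ (g : G), c (g • σ • y) = c (g • y) := by
  rcases hsm with hsm | hiso
  · exact exists_moved hcb hne hG hW hsep hsm hc hrel
  · obtain ⟨σ, y, hmove, hd⟩ := dichotomy (G := G) (Y := Y) (cb := cb) hcb hG
      (W := fun y => (W y : ℚ)) (fun y => by rw [hW]; push_cast; rfl) hiso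
    rcases hd with h1 | h1
    · exfalso
      apply hmove
      refine hsep _ _ 1 1 one_pos one_pos fun g => ?_
      rw [one_mul, one_mul]
      exact_mod_cast h1 g
    · exact ⟨σ, y, hmove, h1 c hc (fun g => by exact_mod_cast hrel g)⟩

end abs

section cm

variable {E L : Type*} [Field E] [NumberField E] [IsCMField E] [Field L] [NumberField L]
  [IsGalois ℚ L]

/-- Few embeddings are moved, or there is a cycle of prime length, or an isolated cycle. -/
def SmallC (κ : L ≃ₐ[ℚ] L) (w : (E →+* L) → ℤ) (T : IntermediateField ℚ E) : Prop :=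
  Small1 κ w T ∨ IsoCycle (Y := T →+* L) (fun ψ => κ • ψ) (L ≃ₐ[ℚ] L)

/-- Integral approximation of relations. -/
theorem exists_round_one (φ₀ : E →+* L) {κ : L ≃ₐ[ℚ] L} (hκ : ∀ φ : E →+* L, κ • φ = cbar φ)
    {w : (E →+* L) → ℤ} (hw : ∀ φ, w (cbar φ) = -w φ)
    (hmild : ∀ T : IntermediateField ℚ E, NonReal T → SmallC κ w T) (N : ℤ) (hN : 0 < N) :
    ∀ (d : ℕ) (T : IntermediateField ℚ E), finrank ℚ T = d → ∀ c : (T →+* L) → ℤ,
      (∀ ψ, c (κ • ψ) = - c ψ) →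
      (∀ g : L ≃ₐ[ℚ] L, ∑ ψ, c ψ * tr T w (g • ψ) = 0) →
      ∃ h : (T →+* L) → ℤ, (∀ ψ, h (κ • ψ) = - h ψ) ∧
        (∀ g : L ≃ₐ[ℚ] L, ∑ ψ, h ψ * tr T w (g • ψ) = 0) ∧ ∀ ψ, |N * h ψ - c ψ| < N := by
  intro d
  induction d using Nat.strong_induction_on with
  | _ d ih =>
  intro T hd c hc hrel
  by_cases hT : NonReal T
  swap
  · refine ⟨fun _ => 0, fun _ => by simp, fun g => by simp, fun ψ => ?_⟩
    rw [zero_of_real φ₀ hκ hT hc]
    simpa using hN
  by_cases hsep : ∀ ψ ψ' : T →+* L, (∀ g : L ≃ₐ[ℚ] L, tr T w (g • ψ) = tr T w (g • ψ')) → ψ = ψ'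
  · -- all relations come from a smaller field
    obtain ⟨σ, ψ, hmove, hinv⟩ := exists_movedC (G := L ≃ₐ[ℚ] L) (Y := T →+* L)
      (cb := fun ψ => κ • ψ) (sub_invol φ₀ hκ T) (sub_ne φ₀ hκ hT) (sub_comm φ₀ hκ T)
      (W := tr T w) (tr_odd φ₀ hκ T hw)
      (fun y y' m n hm hn h => by
        obtain ⟨k, rfl⟩ := MulAction.exists_smul_eq (L ≃ₐ[ℚ] L) y y'
        exact hsep _ _ (orbit_prop (tr T w) y k m n hm hn h))
      (by
        rcases hmild T hT with (⟨σ, ψ, h1, h2⟩ | h1) | h1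
        · refine Or.inl (Or.inl ⟨σ, ψ, h1, ?_⟩)
          rcases h2 with h2 | ⟨h2, h3⟩
          · exact Or.inl h2
          · exact Or.inr ⟨h2, fun g y => h3 _ _⟩
        · exact Or.inl (Or.inr h1)
        · exact Or.inr h1) (c := c) hc hrel
    obtain ⟨F, hF, f', h1, h2⟩ := exists_sub_factor φ₀ T c
    have h3 := h2 σ ψ hinv
    have hlt := finrank_lt φ₀ hF hmove h3
    obtain ⟨h', ho, hr, hb⟩ := ih (finrank ℚ F) (hd ▸ hlt) F rfl f'
      (odd_of_comp φ₀ hF h1 hc) (fun g => by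
        rw [← sum_rs_left hF w f' g, ← hrel g]
        exact Finset.sum_congr rfl fun ψ _ => by rw [h1])
    refine ⟨fun ψ => h' (rs hF ψ), fun ψ => ?_, fun g => ?_, fun ψ => ?_⟩
    · change h' (rs hF (κ • ψ)) = - h' (rs hF ψ)
      rw [rs_smul, ho]
    · rw [sum_rs_left hF w h' g, hr]
    · rw [h1 ψ]
      exact hb _
  · push Not at hsep
    obtain ⟨ψ, ψ', heq, hne⟩ := hsep
    obtain ⟨F, hF, V, h1, h2⟩ := exists_sub_factor φ₀ T (tr T w)
    obtain ⟨σ, rfl⟩ := MulAction.exists_smul_eq (L ≃ₐ[ℚ] L) ψ ψ'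
    have h3 := h2 σ ψ (fun g => (heq g).symm)
    have hlt := finrank_lt φ₀ hF hne h3.symm
    by_cases hFr : NonReal F
    · obtain ⟨D, hD, hDV⟩ := exists_degree φ₀ hF w V h1
      obtain ⟨h', ho, hr, hb⟩ := ih (finrank ℚ F) (hd ▸ hlt) F rfl (fs (rs hF) c)
        (fs_odd (sub_invol φ₀ hκ T) (sub_invol φ₀ hκ F) (rs hF) (fun ψ => rs_smul hF κ ψ) hc)
        (fun g => by
          have h4 := hrel g
          simp only [h1, rs_smul] at h4
          rw [sum_fs (rs hF) c (fun χ => V (g • χ))] at h4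
          simp only [hDV]
          have h5 : ∀ χ : F →+* L, fs (rs hF) c χ * (D * V (g • χ)) =
              D * (fs (rs hF) c χ * V (g • χ)) := fun χ => by ring
          rw [Finset.sum_congr rfl (fun χ _ => h5 χ), ← Finset.mul_sum, h4, mul_zero])
      obtain ⟨h, hh1, hh2, hh3⟩ := exists_lift_round (sub_invol φ₀ hκ T) (sub_invol φ₀ hκ F)
        (sub_ne φ₀ hκ hFr) (rs hF) (fun ψ => rs_smul hF κ ψ) hc N hN ho hb
      refine ⟨h, hh1, fun g => ?_, hh2⟩
      have h4 := hr g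
      simp only [hDV] at h4
      have h5 : ∀ χ : F →+* L, h' χ * (D * V (g • χ)) = D * (h' χ * V (g • χ)) :=
        fun χ => by ring
      rw [Finset.sum_congr rfl (fun χ _ => h5 χ), ← Finset.mul_sum] at h4
      have h6 := (mul_eq_zero.1 h4).resolve_left hD.ne'
      rw [← h6]
      simp only [h1, rs_smul]
      rw [sum_fs (rs hF) h (fun χ => V (g • χ))]
      exact Finset.sum_congr rfl fun χ _ => by rw [hh3]
    · have hW : ∀ ψ, tr T w ψ = 0 := fun ψ => by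
        rw [h1, zero_of_real φ₀ hκ hFr (odd_of_comp φ₀ hF h1 (tr_odd φ₀ hκ T hw))]
      refine ⟨fun ψ => Int.tdiv (c ψ) N, fun ψ => ?_, fun g => ?_, fun ψ => ?_⟩
      · change Int.tdiv (c (κ • ψ)) N = - Int.tdiv (c ψ) N
        rw [hc, Int.neg_tdiv]
      · simp only [hW, mul_zero, Finset.sum_const_zero]
      · have h4 := Int.tmod_add_mul_tdiv (c ψ) N
        have h5 : N * (c ψ).tdiv N - c ψ = - (c ψ).tmod N := by linarith
        rw [h5, abs_neg]
        have h6 := Int.tmod_lt_of_pos (c ψ) hN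
        have h7 := Int.tmod_lt_of_pos (- c ψ) hN
        rw [Int.neg_tmod] at h7
        exact abs_lt.2 ⟨by linarith, h6⟩

/-- Every nonzero relation comes from a subfield with a trace that does not separate embeddings. -/
theorem exists_bad (φ₀ : E →+* L) {κ : L ≃ₐ[ℚ] L} (hκ : ∀ φ : E →+* L, κ • φ = cbar φ)
    {w : (E →+* L) → ℤ} (hw : ∀ φ, w (cbar φ) = -w φ)
    (hmild : ∀ T : IntermediateField ℚ E, NonReal T → SmallC κ w T) :
    ∀ (d : ℕ) (T : IntermediateField ℚ E), finrank ℚ T = d → ∀ c : (T →+* L) → ℤ,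
      (∀ ψ, c (κ • ψ) = - c ψ) →
      (∀ g : L ≃ₐ[ℚ] L, ∑ ψ, c ψ * tr T w (g • ψ) = 0) → (∃ ψ, c ψ ≠ 0) →
      ∃ (F : IntermediateField ℚ E) (hF : F ≤ T) (c' : (F →+* L) → ℤ), NonReal F ∧ NotSep w F ∧
        (∀ ψ, c ψ = c' (rs hF ψ)) ∧ (∀ χ, c' (κ • χ) = - c' χ) ∧
        (∀ g : L ≃ₐ[ℚ] L, ∑ χ, c' χ * tr F w (g • χ) = 0) := by
  intro d
  induction d using Nat.strong_induction_on with
  | _ d ih =>
  intro T hd c hc hrel hne
  by_cases hT : NonReal T
  swap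
  · obtain ⟨ψ, hψ⟩ := hne
    exact absurd (zero_of_real φ₀ hκ hT hc ψ) hψ
  by_cases hsep : NotSep w T
  · exact ⟨T, le_refl T, c, hT, hsep, fun ψ => rfl, hc, hrel⟩
  · have hsep' : ∀ ψ ψ' : T →+* L, (∀ g : L ≃ₐ[ℚ] L, tr T w (g • ψ) = tr T w (g • ψ')) →
        ψ = ψ' := by
      intro ψ ψ' h
      by_contra hcon
      exact hsep ⟨ψ, ψ', hcon, h⟩
    obtain ⟨σ, ψ, hmove, hinv⟩ := exists_movedC (G := L ≃ₐ[ℚ] L) (Y := T →+* L)
      (cb := fun ψ => κ • ψ) (sub_invol φ₀ hκ T) (sub_ne φ₀ hκ hT) (sub_comm φ₀ hκ T)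
      (W := tr T w) (tr_odd φ₀ hκ T hw)
      (fun y y' m n hm hn h => by
        obtain ⟨k, rfl⟩ := MulAction.exists_smul_eq (L ≃ₐ[ℚ] L) y y'
        exact hsep' _ _ (orbit_prop (tr T w) y k m n hm hn h))
      (by
        rcases hmild T hT with (⟨σ, ψ, h1, h2⟩ | h1) | h1
        · refine Or.inl (Or.inl ⟨σ, ψ, h1, ?_⟩)
          rcases h2 with h2 | ⟨h2, h3⟩
          · exact Or.inl h2
          · exact Or.inr ⟨h2, fun g y => h3 _ _⟩
        · exact Or.inl (Or.inr h1)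
        · exact Or.inr h1) (c := c) hc hrel
    obtain ⟨F, hF, f', h1, h2⟩ := exists_sub_factor φ₀ T c
    have h3 := h2 σ ψ hinv
    have hlt := finrank_lt φ₀ hF hmove h3
    obtain ⟨F', hF', c', h4, h5, h6, h7, h8⟩ := ih (finrank ℚ F) (hd ▸ hlt) F rfl f'
      (odd_of_comp φ₀ hF h1 hc) (fun g => by
        rw [← sum_rs_left hF w f' g, ← hrel g]
        exact Finset.sum_congr rfl fun ψ _ => by rw [h1]) (by
        obtain ⟨ψ, hψ⟩ := hne
        exact ⟨rs hF ψ, by rw [← h1]; exact hψ⟩)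
    refine ⟨F', hF'.trans hF, c', h4, h5, fun ψ => ?_, h7, h8⟩
    rw [h1, h6]
    rfl


end cm

section family

variable {L : Type*} [Field L] [NumberField L] [IsGalois ℚ L]
variable {ι : Type*} [Fintype ι] {E : ι → Type*} [∀ i, Field (E i)] [∀ i, NumberField (E i)]
  [∀ i, IsCMField (E i)]

/-- All families of CM subfields satisfy one of the conditions. -/
def MildC (κ : L ≃ₐ[ℚ] L) (w : ∀ i, (E i →+* L) → ℤ) : Prop :=
  ∀ (T : ∀ i, IntermediateField ℚ (E i)) (S : Finset ι), S.Nonempty →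
    (∀ i ∈ S, NonReal (T i)) → (FewMoved w T S ∨ PrimeCycle κ T S) ∨ IsoL κ T S

theorem small_of_mildC {κ : L ≃ₐ[ℚ] L} {w : ∀ i, (E i →+* L) → ℤ}
    {T : ∀ i, IntermediateField ℚ (E i)} {S : Finset ι}
    (h : (FewMoved w T S ∨ PrimeCycle κ T S) ∨ IsoL κ T S) :
    Small (Y := SubEmb L T S) (subCb κ T S) (subW w T S) (L ≃ₐ[ℚ] L) ∨
      IsoCycle (Y := SubEmb L T S) (subCb κ T S) (L ≃ₐ[ℚ] L) := by
  rcases h with h | h
  · exact Or.inl (small_of_mild h)
  · exact Or.inr h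

theorem iso_single {κ : L ≃ₐ[ℚ] L} {T : ∀ i, IntermediateField ℚ (E i)} {i : ι}
    (h : IsoL κ T {i}) : IsoCycle (Y := T i →+* L) (fun ψ => κ • ψ) (L ≃ₐ[ℚ] L) := by
  obtain ⟨τ, ⟨⟨i', hi'⟩, ψ⟩, n, hper, hn, hall⟩ := h
  have h3 : i' = i := Finset.mem_singleton.1 hi'
  subst h3
  have e : ∀ (g : L ≃ₐ[ℚ] L) (χ χ' : T i' →+* L),
      g • (⟨⟨i', hi'⟩, χ⟩ : SubEmb L T {i'}) = ⟨⟨i', hi'⟩, χ'⟩ ↔ g • χ = χ' := by
    intro g χ χ'
    constructor
    · intro h
      exact eq_of_heq (Sigma.mk.inj h).2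
    · intro h
      change (⟨⟨i', hi'⟩, g • χ⟩ : SubEmb L T {i'}) = _
      rw [h]
  refine ⟨τ, ψ, n, fun k => ?_, ?_, fun χ => ?_⟩
  · rw [← hper k, e]
  · rcases hn with hn | ⟨r, a, b, h1, h2, h3, h4⟩
    · exact Or.inl hn
    · exact Or.inr ⟨r, a, b, h1, h2, h3, (e _ _ _).1 h4⟩
  · rcases hall ⟨⟨i', hi'⟩, χ⟩ with ⟨k, hk⟩ | ⟨m, hm, hm'⟩
    · left
      refine ⟨k, ?_⟩
      rcases hk with hk | hk
      · exact Or.inl (eq_of_heq (Sigma.mk.inj hk).2)
      · exact Or.inr (eq_of_heq (Sigma.mk.inj hk).2)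
    · exact Or.inr ⟨m, hm, (e _ _ _).1 hm'⟩

theorem smallC_of_mildC {κ : L ≃ₐ[ℚ] L} {w : ∀ i, (E i →+* L) → ℤ} (hmild : MildC κ w) (i : ι)
    (F : IntermediateField ℚ (E i)) (hF : NonReal F) : SmallC κ (w i) F := by
  classical
  have key : ∀ T : ∀ i, IntermediateField ℚ (E i), NonReal (T i) → SmallC κ (w i) (T i) := by
    intro T hT
    rcases hmild T {i} (Finset.singleton_nonempty i)
      (fun j hj => by rw [Finset.mem_singleton] at hj; rw [hj]; exact hT) with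
      (⟨i', hi', σ, ⟨ψ, hψ⟩, h2⟩ | ⟨i', hi', σ, ψ, r, hr, hr2, hmove, hper, hall⟩) | hiso
    · have h3 : i' = i := Finset.mem_singleton.1 hi'
      subst h3
      refine Or.inl (Or.inl ⟨σ, ψ, hψ, ?_⟩)
      rw [moved, Finset.sum_singleton] at h2
      rcases h2 with h2 | ⟨h2, h3⟩
      · exact Or.inl h2
      · exact Or.inr ⟨h2, h3 i' (Finset.mem_singleton_self _)⟩
    · have h3 : i' = i := Finset.mem_singleton.1 hi'
      subst h3
      refine Or.inl (Or.inr ⟨σ, ψ, r, hr, hr2, hmove, hper, fun χ hχ => ?_⟩)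
      obtain ⟨k, hk⟩ := hall i' (Finset.mem_singleton_self _) χ hχ
      refine ⟨k, ?_⟩
      rcases hk with hk | hk
      · exact Or.inl (eq_of_heq (Sigma.mk.inj hk).2)
      · exact Or.inr (eq_of_heq (Sigma.mk.inj hk).2)
    · exact Or.inr (iso_single hiso)
  have h1 := key (Function.update (fun _ => ⊤) i F)
  rw [Function.update_self] at h1
  exact h1 hF

/-- The relations of the family are sums of relations of the single fields. -/
theorem rel_split {κ : L ≃ₐ[ℚ] L} (hκ : ∀ i, ∀ φ : E i →+* L, κ • φ = cbar φ)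
    (φ₀ : ∀ i, (E i →+* L)) {w : ∀ i, (E i →+* L) → ℤ} (hw : ∀ i φ, w i (cbar φ) = -w i φ)
    (hmild : MildC κ w) (hmix : NonMix w) :
    ∀ (d : ℕ) (T : ∀ i, IntermediateField ℚ (E i)) (S : Finset ι), (∀ i ∈ S, NonReal (T i)) →
      ∑ i ∈ S, finrank ℚ (T i) = d → ∀ c : ∀ i, (T i →+* L) → ℤ,
      (∀ i ψ, c i (κ • ψ) = - c i ψ) →
      (∀ g : L ≃ₐ[ℚ] L, ∑ i ∈ S, ∑ ψ : (T i →+* L), c i ψ * tr (T i) (w i) (g • ψ) = 0) →
      ∀ i ∈ S, ∀ g : L ≃ₐ[ℚ] L, ∑ ψ : (T i →+* L), c i ψ * tr (T i) (w i) (g • ψ) = 0 := by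
  classical
  intro d
  induction d using Nat.strong_induction_on with
  | _ d ih =>
  intro T S hT hd c hc hrel i₁ hi₁
  by_cases hsep : ∀ i ∈ S, ∀ ψ ψ' : T i →+* L,
      (∀ g : L ≃ₐ[ℚ] L, tr (T i) (w i) (g • ψ) = tr (T i) (w i) (g • ψ')) → ψ = ψ'
  · -- separated: all relations come from smaller fields
    have hcne : ∀ y : SubEmb L T S, subCb κ T S y ≠ y := by
      rintro ⟨i, ψ⟩ h
      exact sub_ne (φ₀ i) (hκ i) (hT i i.2) ψ (eq_of_heq (Sigma.mk.inj h).2)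
    obtain ⟨σ, ⟨⟨i₀, hi₀⟩, ψ⟩, hmove, hinv⟩ := exists_movedC (G := L ≃ₐ[ℚ] L)
      (Y := SubEmb L T S) (cb := subCb κ T S)
      (by
        rintro ⟨i, ψ⟩
        unfold subCb
        rw [sub_invol (φ₀ i) (hκ i)]) hcne
      (by
        rintro g ⟨i, ψ⟩
        change (⟨i, g • κ • ψ⟩ : SubEmb L T S) = ⟨i, κ • g • ψ⟩
        rw [sub_comm (φ₀ i) (hκ i)])
      (W := subW w T S) (fun y => tr_odd (φ₀ y.1) (hκ y.1) (T y.1) (hw y.1) y.2)
      (by
        rintro ⟨⟨i, hi⟩, ψ⟩ ⟨⟨i', hi'⟩, ψ'⟩ m n hm hn h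
        by_cases hii : i = i'
        · subst hii
          obtain ⟨k, rfl⟩ := MulAction.exists_smul_eq (L ≃ₐ[ℚ] L) ψ ψ'
          have h1 := hsep i hi ψ (k • ψ) (orbit_prop (tr (T i) (w i)) ψ k m n hm hn h)
          rw [← h1]
        · exfalso
          have h1 := hmix T i i' hii (hT i hi) (hT i' hi') ψ ψ' m n hm hn h
          refine sub_ne (φ₀ i) (hκ i) (hT i hi) ψ (hsep i hi _ _ fun g => ?_)
          rw [sub_comm (φ₀ i) (hκ i), tr_odd (φ₀ i) (hκ i) (T i) (hw i), h1, neg_zero])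
      (small_of_mildC (hmild T S ⟨i₁, hi₁⟩ hT))
      (c := fun y => c y.1 y.2) (fun y => hc _ _)
      (fun g => by rw [sum_subEmb T S w c g]; exact hrel g)
    have hmove' : σ • ψ ≠ ψ := by
      intro h
      apply hmove
      change (⟨⟨i₀, hi₀⟩, σ • ψ⟩ : SubEmb L T S) = ⟨⟨i₀, hi₀⟩, ψ⟩
      rw [h]
    choose F hF f' h1 h2 using fun i => exists_sub_factor (φ₀ i) (T i) (c i)
    have h3 := h2 i₀ σ ψ hinv
    have hlt := finrank_lt (φ₀ i₀) (hF i₀) hmove' h3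
    let S' : Finset ι := S.filter (fun i => NonReal (F i))
    have hodd : ∀ i χ, f' i (κ • χ) = - f' i χ := fun i =>
      odd_of_comp (φ₀ i) (hF i) (h1 i) (hc i)
    have hsum : ∀ i, ∀ g : L ≃ₐ[ℚ] L, ∑ ψ : (T i →+* L), c i ψ * tr (T i) (w i) (g • ψ) =
        ∑ χ : (F i →+* L), f' i χ * tr (F i) (w i) (g • χ) := by
      intro i g
      rw [← sum_rs_left (hF i) (w i) (f' i) g]
      exact Finset.sum_congr rfl fun ψ _ => by rw [h1]
    have hzero : ∀ i, ¬ NonReal (F i) → ∀ g : L ≃ₐ[ℚ] L,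
        ∑ χ : (F i →+* L), f' i χ * tr (F i) (w i) (g • χ) = 0 := by
      intro i hi g
      refine Finset.sum_eq_zero fun χ _ => ?_
      rw [zero_of_real (φ₀ i) (hκ i) hi (hodd i), zero_mul]
    have hrank : ∑ i ∈ S', finrank ℚ (F i) < d := by
      rw [← hd]
      calc ∑ i ∈ S', finrank ℚ (F i) ≤ ∑ i ∈ S, finrank ℚ (F i) :=
            Finset.sum_le_sum_of_subset (Finset.filter_subset _ _)
        _ < ∑ i ∈ S, finrank ℚ (T i) :=
            Finset.sum_lt_sum (fun i _ => finrank_le (hF i)) ⟨i₀, hi₀, hlt⟩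
    have key := ih _ hrank F S' (fun i hi => (Finset.mem_filter.1 hi).2) rfl f' hodd (fun g => by
      rw [← hrel g]
      simp only [hsum]
      exact Finset.sum_filter_of_ne fun i _ hne => by
        by_contra hcon
        exact hne (hzero i hcon g))
    intro g
    rw [hsum]
    by_cases hr : NonReal (F i₁)
    · exact key i₁ (Finset.mem_filter.2 ⟨hi₁, hr⟩) g
    · exact hzero i₁ hr g
  · push Not at hsep
    obtain ⟨i₀, hi₀, ψ, ψ', heq, hne⟩ := hsep
    choose F hF V h1 h2 using fun i => exists_sub_factor (φ₀ i) (T i) (tr (T i) (w i))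
    obtain ⟨σ, rfl⟩ := MulAction.exists_smul_eq (L ≃ₐ[ℚ] L) ψ ψ'
    have h3 := h2 i₀ σ ψ (fun g => (heq g).symm)
    have hlt := finrank_lt (φ₀ i₀) (hF i₀) hne h3.symm
    let S' : Finset ι := S.filter (fun i => NonReal (F i))
    choose D hD hDV using fun i => exists_degree (φ₀ i) (hF i) (w i) (V i) (h1 i)
    have hVodd : ∀ i χ, V i (κ • χ) = - V i χ := fun i =>
      odd_of_comp (φ₀ i) (hF i) (h1 i) (tr_odd (φ₀ i) (hκ i) (T i) (hw i))
    let P : ℤ := ∏ i, D i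
    have hP : 0 < P := Finset.prod_pos fun i _ => hD i
    have hdvd : ∀ i, ∃ e : ℤ, 0 < e ∧ D i * e = P := by
      intro i
      obtain ⟨e, he⟩ := Finset.dvd_prod_of_mem D (Finset.mem_univ i)
      refine ⟨e, ?_, he.symm⟩
      have h4 : 0 < D i * e := by rw [← he]; exact hP
      exact pos_of_mul_pos_right h4 (hD i).le
    choose e he0 he using hdvd
    have hsum : ∀ i, ∀ g : L ≃ₐ[ℚ] L, ∑ ψ : (T i →+* L), c i ψ * tr (T i) (w i) (g • ψ) =
        ∑ χ : (F i →+* L), fs (rs (hF i)) (c i) χ * V i (g • χ) := by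
      intro i g
      rw [← sum_fs (rs (hF i)) (c i) (fun χ => V i (g • χ))]
      exact Finset.sum_congr rfl fun ψ _ => by rw [h1, rs_smul]
    have hsum' : ∀ i, ∀ g : L ≃ₐ[ℚ] L,
        ∑ χ : (F i →+* L), (e i * fs (rs (hF i)) (c i) χ) * tr (F i) (w i) (g • χ) =
        P * ∑ ψ : (T i →+* L), c i ψ * tr (T i) (w i) (g • ψ) := by
      intro i g
      rw [hsum, Finset.mul_sum]
      refine Finset.sum_congr rfl fun χ _ => ?_
      rw [hDV, ← he i]
      ring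
    have hzero : ∀ i, ¬ NonReal (F i) → ∀ g : L ≃ₐ[ℚ] L,
        ∑ ψ : (T i →+* L), c i ψ * tr (T i) (w i) (g • ψ) = 0 := by
      intro i hi g
      rw [hsum]
      refine Finset.sum_eq_zero fun χ _ => ?_
      rw [zero_of_real (φ₀ i) (hκ i) hi (hVodd i), mul_zero]
    have hrank : ∑ i ∈ S', finrank ℚ (F i) < d := by
      rw [← hd]
      calc ∑ i ∈ S', finrank ℚ (F i) ≤ ∑ i ∈ S, finrank ℚ (F i) :=
            Finset.sum_le_sum_of_subset (Finset.filter_subset _ _)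
        _ < ∑ i ∈ S, finrank ℚ (T i) :=
            Finset.sum_lt_sum (fun i _ => finrank_le (hF i)) ⟨i₀, hi₀, hlt⟩
    have key := ih _ hrank F S' (fun i hi => (Finset.mem_filter.1 hi).2) rfl
      (fun i χ => e i * fs (rs (hF i)) (c i) χ)
      (fun i χ => by
        rw [fs_odd (sub_invol (φ₀ i) (hκ i) (T i)) (sub_invol (φ₀ i) (hκ i) (F i)) (rs (hF i))
          (fun ψ => rs_smul (hF i) κ ψ) (hc i)]
        ring)
      (fun g => by
        simp only [hsum']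
        rw [← Finset.mul_sum]
        have h4 : ∑ i ∈ S', ∑ ψ : (T i →+* L), c i ψ * tr (T i) (w i) (g • ψ) =
            ∑ i ∈ S, ∑ ψ : (T i →+* L), c i ψ * tr (T i) (w i) (g • ψ) :=
          Finset.sum_filter_of_ne fun i _ hne => by
            by_contra hcon
            exact hne (hzero i hcon g)
        rw [h4, hrel g, mul_zero])
    intro g
    by_cases hr : NonReal (F i₁)
    · have h4 := key i₁ (Finset.mem_filter.2 ⟨hi₁, hr⟩) g
      rw [hsum'] at h4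
      exact (mul_eq_zero.1 h4).resolve_left hP.ne'
    · exact hzero i₁ hr g


variable {κ : L ≃ₐ[ℚ] L} (hκ : ∀ i, ∀ φ : E i →+* L, κ • φ = cbar φ)
    (φ₀ : ∀ i, (E i →+* L)) {w : ∀ i, (E i →+* L) → ℤ} (hw : ∀ i φ, w i (cbar φ) = -w i φ)
    (hmild : MildC κ w) (hmix : NonMix w)

include hκ φ₀ hw hmild hmix in
theorem split_top {c : ∀ i, (E i →+* L) → ℤ} (hc : ∀ i φ, c i (cbar φ) = - c i φ)
    (hrel : ∀ g : L ≃ₐ[ℚ] L, ∑ i, ∑ φ : (E i →+* L), c i φ * w i (g • φ) = 0) (i : ι)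
    (g : L ≃ₐ[ℚ] L) : ∑ φ : (E i →+* L), c i φ * w i (g • φ) = 0 := by
  have h1 := rel_split hκ φ₀ hw hmild hmix _ (fun _ => ⊤) Finset.univ
    (fun i _ => top_nonReal i (φ₀ i)) rfl (fun i ψ => c i (topE.symm ψ))
    (fun i ψ => by rw [symm_smul, hκ, hc])
    (fun g => by
      rw [← hrel g]
      exact Finset.sum_congr rfl fun i _ => sum_topE (c i) (w i) g) i (Finset.mem_univ i) g
  rw [← h1]
  exact (sum_topE (c i) (w i) g).symm

include hκ φ₀ hw hmild in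
theorem round_bad (i : ι) {c : (E i →+* L) → ℤ} (hc : ∀ φ, c (cbar φ) = - c φ)
    (hrel : ∀ g : L ≃ₐ[ℚ] L, ∑ φ : (E i →+* L), c φ * w i (g • φ) = 0) (hne : ∃ φ, c φ ≠ 0)
    (N : ℤ) (hN : 0 < N) :
    ∃ (F : IntermediateField ℚ (E i)) (h : (E i →+* L) → ℤ), NonReal F ∧ NotSep (w i) F ∧
      (∀ φ, h (cbar φ) = - h φ) ∧
      (∀ g : L ≃ₐ[ℚ] L, ∑ φ : (E i →+* L), h φ * w i (g • φ) = 0) ∧ (∀ φ, |N * h φ - c φ| < N) ∧
      ∀ φ φ', res F φ = res F φ' → h φ = h φ' := by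
  obtain ⟨F, hF, c', h1, h2, h3, h4, h5⟩ := exists_bad (φ₀ i) (hκ i) (hw i)
    (smallC_of_mildC hmild i) _ ⊤ rfl (fun ψ => c (topE.symm ψ))
    (fun ψ => by rw [symm_smul, hκ, hc]) (fun g => by rw [sum_topE, hrel]) (by
      obtain ⟨φ, hφ⟩ := hne
      exact ⟨topE φ, by rw [Equiv.symm_apply_apply]; exact hφ⟩)
  obtain ⟨h, h6, h7, h8⟩ := exists_round_one (φ₀ i) (hκ i) (hw i) (smallC_of_mildC hmild i) N hN _
    F rfl c' h4 h5
  refine ⟨F, fun φ => h (res F φ), h1, h2, fun φ => ?_, fun g => ?_, fun φ => ?_,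
    fun φ φ' hh => ?_⟩
  · change h (res F (cbar φ)) = - h (res F φ)
    rw [← h6, ← hκ, res_smul]
  · rw [sum_res F h (w i) g, h7]
  · have h9 := h3 (topE φ)
    rw [Equiv.symm_apply_apply, topE_apply, rs_res] at h9
    rw [h9]
    exact h8 _
  · change h (res F φ) = h (res F φ')
    rw [hh]

include hκ φ₀ hw hmild hmix in
/-- A balanced family contains a pair of complex conjugate embeddings, or a balanced subfamily of
different embeddings of a single field `E i` that is a union of fibres over a CM subfield `F` with a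
trace that does not separate embeddings. -/
theorem exists_block' {K : Type*} [Fintype K] [Nonempty K] (μ : K → Σ i, (E i →+* L))
    (hμ : ∀ g : L ≃ₐ[ℚ] L, ∑ k, wtS w g (μ k) = 0) :
    ∃ (A : Finset K), A.Nonempty ∧ (∀ g : L ≃ₐ[ℚ] L, ∑ k ∈ A, wtS w g (μ k) = 0) ∧
      (A.card = 2 ∨ ∃ (i : ι) (F : IntermediateField ℚ (E i)) (B : Finset (E i →+* L)),
        NonReal F ∧ NotSep (w i) F ∧ (∀ φ φ', res F φ = res F φ' → φ ∈ B → φ' ∈ B) ∧
        (∀ k ∈ A, ∃ φ ∈ B, μ k = ⟨i, φ⟩) ∧ (∀ φ ∈ B, ∃! k, k ∈ A ∧ μ k = ⟨i, φ⟩)) := by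
  classical
  let cb : (Σ i, (E i →+* L)) → (Σ i, (E i →+* L)) := fun x => ⟨x.1, cbar x.2⟩
  have hcb : ∀ x, cb (cb x) = x := fun x => by simp only [cb, cbar_cbar]
  have hcbne : ∀ x, cb x ≠ x := by
    rintro ⟨i, φ⟩ h
    exact cbar_ne φ (eq_of_heq (Sigma.mk.inj h).2)
  have hwcb : ∀ g x, wtS w g (cb x) = - wtS w g x := by
    rintro g ⟨i, φ⟩
    exact hw i (g • φ)
  let f : (Σ i, (E i →+* L)) → ℤ := fun x => ((Finset.univ.filter (fun k => μ k = x)).card : ℤ)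
  have hf0 : ∀ x, 0 < f x → ∃ k, μ k = x := by
    intro x hx
    have h1 : 0 < (Finset.univ.filter (fun k => μ k = x)).card := Int.natCast_pos.1 hx
    obtain ⟨k, hk⟩ := Finset.card_pos.1 h1
    exact ⟨k, (Finset.mem_filter.1 hk).2⟩
  have hf1 : ∀ k, 0 < f (μ k) := by
    intro k
    have h1 : 0 < (Finset.univ.filter (fun k' => μ k' = μ k)).card :=
      Finset.card_pos.2 ⟨k, Finset.mem_filter.2 ⟨Finset.mem_univ _, rfl⟩⟩
    exact Int.natCast_pos.2 h1
  have hfnn : ∀ x, 0 ≤ f x := fun x => Int.natCast_nonneg _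
  have hfsum : ∀ g : L ≃ₐ[ℚ] L, ∑ x, f x * wtS w g x = 0 := by
    intro g
    rw [← hμ g, ← Finset.sum_fiberwise (s := Finset.univ) (g := μ)]
    refine Finset.sum_congr rfl fun x _ => ?_
    rw [Finset.sum_congr rfl (fun k hk => by rw [(Finset.mem_filter.1 hk).2] :
      ∀ k ∈ Finset.univ.filter (fun k => μ k = x), wtS w g (μ k) = wtS w g x), Finset.sum_const,
      nsmul_eq_mul]
  let c : (Σ i, (E i →+* L)) → ℤ := fun x => f x - f (cb x)
  have hc : ∀ x, c (cb x) = - c x := fun x => by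
    simp only [c, hcb]
    ring
  have hrel : ∀ g : L ≃ₐ[ℚ] L, ∑ x, c x * wtS w g x = 0 := by
    intro g
    simp only [c, sub_mul, Finset.sum_sub_distrib]
    rw [hfsum, zero_sub, neg_eq_zero]
    have h1 : ∑ x, f (cb x) * wtS w g x = ∑ x, - (f x * wtS w g x) := by
      refine Fintype.sum_equiv (Function.Involutive.toPerm cb hcb) _ _ fun x => ?_
      change _ = - (f (cb x) * wtS w g (cb x))
      rw [hwcb]
      ring
    rw [h1, Finset.sum_neg_distrib, hfsum, neg_zero]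
  by_cases hall : ∀ x, c x = 0
  · obtain ⟨k₀⟩ := ‹Nonempty K›
    have h1 : 0 < f (cb (μ k₀)) := by
      have h2 := hall (μ k₀)
      have h3 := hf1 k₀
      simp only [c] at h2
      linarith
    obtain ⟨k₁, hk₁⟩ := hf0 _ h1
    have hne : k₀ ≠ k₁ := by
      rintro rfl
      exact hcbne _ hk₁.symm
    refine ⟨{k₀, k₁}, ⟨k₀, Finset.mem_insert_self _ _⟩, fun g => ?_, Or.inl ?_⟩
    · rw [Finset.sum_pair hne, hk₁, hwcb, add_neg_cancel]
    · exact Finset.card_pair hne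
  · push Not at hall
    obtain ⟨⟨i, φ₁⟩, hx⟩ := hall
    have hci : ∀ φ : E i →+* L, c ⟨i, cbar φ⟩ = - c ⟨i, φ⟩ := fun φ => hc ⟨i, φ⟩
    have hreli := split_top hκ φ₀ hw hmild hmix (c := fun i φ => c ⟨i, φ⟩)
      (fun i φ => hc ⟨i, φ⟩) (fun g => by
        rw [← hrel g, Fintype.sum_sigma]
        rfl) i
    have : Nonempty (E i →+* L) := ⟨φ₁⟩
    obtain ⟨φ₂, hφ₂⟩ := Finite.exists_max (fun φ : E i →+* L => |c ⟨i, φ⟩|)
    obtain ⟨N, hNdef⟩ : ∃ N, N = |c ⟨i, φ₂⟩| := ⟨_, rfl⟩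
    rw [← hNdef] at hφ₂
    have hN : 0 < N := lt_of_lt_of_le (abs_pos.2 hx) (hφ₂ φ₁)
    obtain ⟨F, h, hF1, hF2, ho, hr, hb, hfac⟩ := round_bad hκ φ₀ hw hmild i
      (c := fun φ => c ⟨i, φ⟩) hci hreli ⟨φ₁, hx⟩ N hN
    have hle : ∀ φ, |h φ| ≤ 1 := by
      intro φ
      have h1 := abs_lt.1 (hb φ)
      have h2 := abs_le.1 (hφ₂ φ)
      rw [abs_le]
      constructor
      · by_contra hcon
        push Not at hcon
        have h3 : N * h φ ≤ N * (-2) := mul_le_mul_of_nonneg_left (by omega) hN.le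
        linarith [h1.1, h2.1]
      · by_contra hcon
        push Not at hcon
        have h3 : N * 2 ≤ N * h φ := mul_le_mul_of_nonneg_left (by omega) hN.le
        linarith [h1.2, h2.2]
    have hpos : ∀ φ, h φ = 1 → 0 < c ⟨i, φ⟩ := by
      intro φ hφ
      have h1 := abs_lt.1 (hb φ)
      rw [hφ] at h1
      linarith [h1.2]
    have hcase : ∀ φ, h φ = 1 ∨ h φ = 0 ∨ h φ = -1 := by
      intro φ
      have := abs_le.1 (hle φ)
      omega
    have hexists : ∃ φ, h φ = 1 := by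
      have h1 : h φ₂ ≠ 0 := by
        intro h0
        have h2 := hb φ₂
        rw [h0, mul_zero, zero_sub, abs_neg, ← hNdef] at h2
        exact lt_irrefl _ h2
      rcases hcase φ₂ with h2 | h2 | h2
      · exact ⟨φ₂, h2⟩
      · exact absurd h2 h1
      · exact ⟨cbar φ₂, by rw [ho, h2, neg_neg]⟩
    choose! k hk using fun φ (hφ : h φ = 1) => hf0 ⟨i, φ⟩ (by
      have h1 := hpos φ hφ
      have h2 := hfnn (cb ⟨i, φ⟩)
      simp only [c] at h1
      linarith)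
    let B : Finset (E i →+* L) := Finset.univ.filter (fun φ => h φ = 1)
    have hB : ∀ φ, φ ∈ B ↔ h φ = 1 := fun φ => by simp [B]
    have hkinj : ∀ φ ∈ B, ∀ φ' ∈ B, k φ = k φ' → φ = φ' := by
      intro φ hφ φ' hφ' hkk
      have h1 := hk φ (Finset.mem_filter.1 hφ).2
      have h2 := hk φ' (Finset.mem_filter.1 hφ').2
      rw [hkk, h2] at h1
      exact (eq_of_heq (Sigma.mk.inj h1).2).symm
    refine ⟨B.image k, ?_, fun g => ?_, Or.inr ⟨i, F, B, hF1, hF2, ?_, ?_, ?_⟩⟩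
    · obtain ⟨φ, hφ⟩ := hexists
      exact ⟨k φ, Finset.mem_image_of_mem _ (Finset.mem_filter.2 ⟨Finset.mem_univ _, hφ⟩)⟩
    · rw [Finset.sum_image hkinj]
      have h1 : ∑ φ ∈ B, wtS w g (μ (k φ)) = ∑ φ ∈ B, w i (g • φ) := by
        refine Finset.sum_congr rfl fun φ hφ => ?_
        rw [hk φ (Finset.mem_filter.1 hφ).2]
        rfl
      rw [h1]
      have h2 : ∑ φ ∈ B, w i (g • φ) = ∑ φ, if h φ = 1 then w i (g • φ) else 0 := by
        rw [Finset.sum_filter]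
      have h3 : ∑ φ, (if h φ = 1 then w i (g • φ) else 0) =
          ∑ φ, (if h φ = -1 then - w i (g • φ) else 0) := by
        refine Fintype.sum_equiv (Function.Involutive.toPerm cbar cbar_cbar) _ _ fun φ => ?_
        change _ = if h (cbar φ) = -1 then - w i (g • cbar φ) else 0
        have h4 : g • cbar φ = cbar (g • φ) := rfl
        rw [ho, h4, hw, neg_neg]
        by_cases h5 : h φ = 1
        · rw [if_pos h5, if_pos (by rw [h5])]
        · rw [if_neg h5, if_neg (by omega)]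
      have h4 : ∑ φ, h φ * w i (g • φ) = ∑ φ, ((if h φ = 1 then w i (g • φ) else 0) +
          (if h φ = -1 then - w i (g • φ) else 0)) := by
        refine Finset.sum_congr rfl fun φ _ => ?_
        rcases hcase φ with h5 | h5 | h5 <;> rw [h5] <;> norm_num
      rw [hr g, Finset.sum_add_distrib, ← h3, ← h2] at h4
      omega
    · intro φ φ' hh hφ
      rw [hB] at hφ ⊢
      rw [← hfac φ φ' hh]
      exact hφ
    · intro a ha
      obtain ⟨φ, hφ, rfl⟩ := Finset.mem_image.1 ha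
      exact ⟨φ, hφ, hk φ ((hB φ).1 hφ)⟩
    · intro φ hφ
      refine ⟨k φ, ⟨Finset.mem_image_of_mem _ hφ, hk φ ((hB φ).1 hφ)⟩, ?_⟩
      rintro a ⟨ha, ha'⟩
      obtain ⟨φ', hφ', rfl⟩ := Finset.mem_image.1 ha
      rw [hk φ' ((hB φ').1 hφ')] at ha'
      rw [eq_of_heq (Sigma.mk.inj ha').2]

end family

end

end Run7.h8.IC.Dec
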