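import Mathlib
import Pool.Agent.W527.NormDefs

/-!
# Norms of Weil numbers to CM subfields, and isolated cycles of automorphisms: definitions
-/

namespace Run7.h8.IC

open NumberField Module Pool.Agent.W527.Short Pool.Agent.W527.Norm

noncomputable section

variable {I : Type} {K : I → Type} [∀ i, Field (K i)] [∀ i, NumberField (K i)]

/-- Some automorphism `τ` of the complex numbers has an isolated cycle on the complex embeddings of
the fields `T i`, `i ∈ S`: there is an embedding `ψ` whose cycle under `τ` has exactly `n > 1`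
elements, where

* `n` is a power of a prime number, or `n` is a power of `2` (not `1`) multiplied by a power of an
  odd prime number, and `τ ^ (n / 2)` maps `ψ` to its complex conjugate;
* the length of the cycle of every embedding `χ` of a `T i'`, `i' ∈ S`, is not divisible by `n` (some
  power `τ ^ m`, `m` not divisible by `n`, fixes `χ`), unless `χ` or its complex conjugate lies in the
  cycle of `ψ`. -/
def IsolatedCycle (T : ∀ i, IntermediateField ℚ (K i)) (S : Finset I) : Prop :=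
  ∃ (τ : ℂ ≃+* ℂ), ∃ i ∈ S, ∃ (ψ : Emb (T i)) (n : ℕ), (∀ k : ℕ, act (τ ^ k) ψ = ψ ↔ n ∣ k) ∧
    ((∃ r k : ℕ, r.Prime ∧ n = r ^ (k + 1)) ∨
      ∃ r a b : ℕ, r.Prime ∧ r ≠ 2 ∧ n = 2 ^ (a + 1) * r ^ (b + 1) ∧
        act (τ ^ (n / 2)) ψ = ComplexEmbedding.conjugate ψ) ∧
    ∀ i' ∈ S, ∀ χ : Emb (T i'), InOrbit T τ ψ χ ∨ ∃ m : ℕ, ¬ n ∣ m ∧ act (τ ^ m) χ = χ

/-- Every family of CM subfields `T i` of the `K i`, `i ∈ S ≠ ∅`, has one of the properties. -/
def Cyclic (p : ℕ) [Fact p.Prime] (m : I → ℕ) (π : ∀ i, K i) : Prop :=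
  ∀ (T : ∀ i, IntermediateField ℚ (K i)) (S : Finset I), S.Nonempty →
    (∀ i ∈ S, ¬ IsTotallyReal (T i)) → IsolatedCycle T S ∨ FewPrimes T S 3 ∨ FewEmbeddings T S 3 ∨
      ((FewPrimes T S 4 ∨ FewEmbeddings T S 4) ∧ TwoSlopes p m π T S)

end

end Run7.h8.IC
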