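import Pool.Agent.Run7.h8.IC.Free
import Pool.Agent.Run7.h8.IC.Defs
import Pool.Agent.W527.FrobMild

/-!
# The norm criterion for fields with isolated cycles
-/

set_option linter.unusedSectionVars false
set_option linter.unusedVariables false

namespace Run7.h8.IC

open NumberField Module Pool.Agent.H204R3.CM Pool.Agent.H977R3.WN Pool.Agent.H485R3.Exact
  Pool.Agent.H204R3.GP Pool.Agent.H204R3.SP IntermediateField Pool.Agent.W527

noncomputable section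

section transfer

variable {I : Type} [Fintype I] {K : I → Type} [∀ i, Field (K i)]
  [∀ i, NumberField (K i)] [∀ i, IsCMField (K i)]
  {L : Type} [Field L] [NumberField L] [IsGalois ℚ L] (j : L →+* ℂ)
  (h : ∀ i, ∀ ψ : K i →+* ℂ, ∃ φ : K i →+* L, j.comp φ = ψ)

include h in
theorem isoL_of (T : ∀ i, IntermediateField ℚ (K i)) (S : Finset I)
    {κ : L ≃ₐ[ℚ] L} (hκ : ∀ x, starRingEnd ℂ (j x) = j (κ x))
    (hf : IsolatedCycle T S) : IsoL κ T S := by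
  obtain ⟨τ, i, hi, χ, n, hper, hn, hall⟩ := hf
  obtain ⟨g, hg⟩ := exists_lift j τ
  obtain ⟨ψ, rfl⟩ := sub_emb j h i (T i) χ
  have hκκ : ∀ x, κ (κ x) = x := by
    intro x
    apply j.injective
    rw [← hκ, ← hκ, Complex.conj_conj]
  have hact : ∀ (k : ℕ) (i' : I) (ψ' : T i' →+* L),
      ((τ ^ k : ℂ ≃+* ℂ) : ℂ →+* ℂ).comp (j.comp ψ') = j.comp (g ^ k • ψ') := by
    intro k i' ψ'
    exact lifts_comp j (lifts_pow j hg k) ψ'
  refine ⟨g, ⟨⟨i, hi⟩, ψ⟩, n, fun k => ?_, ?_, ?_⟩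
  · rw [← hper k]
    constructor
    · intro h1
      have h2 : g ^ k • ψ = ψ := eq_of_heq (Sigma.mk.inj h1).2
      change ((τ ^ k : ℂ ≃+* ℂ) : ℂ →+* ℂ).comp (j.comp ψ) = j.comp ψ
      rw [hact, h2]
    · intro h1
      change ((τ ^ k : ℂ ≃+* ℂ) : ℂ →+* ℂ).comp (j.comp ψ) = j.comp ψ at h1
      rw [hact] at h1
      have h2 := comp_injective j h1
      change (⟨⟨i, hi⟩, g ^ k • ψ⟩ : SubEmb L T S) = ⟨⟨i, hi⟩, ψ⟩
      rw [h2]
  · rcases hn with hn | ⟨r, a, b, hr, hr2, hn, hself⟩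
    · exact Or.inl hn
    · refine Or.inr ⟨r, a, b, hr, hr2, hn, ?_⟩
      change ((τ ^ (n / 2) : ℂ ≃+* ℂ) : ℂ →+* ℂ).comp (j.comp ψ) = _ at hself
      rw [hact] at hself
      have h1 : ComplexEmbedding.conjugate (j.comp ψ) = j.comp (κ • ψ) :=
        RingHom.ext fun x => hκ (ψ x)
      rw [h1] at hself
      have h2 := comp_injective j hself
      change (⟨⟨i, hi⟩, g ^ (n / 2) • ψ⟩ : SubEmb L T S) = ⟨⟨i, hi⟩, κ • ψ⟩
      rw [h2]
  · rintro ⟨⟨i', hi'⟩, ψ'⟩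
    rcases hall i' hi' (j.comp ψ') with ⟨k, hk⟩ | ⟨m, hm, hm'⟩
    · left
      refine ⟨k, ?_⟩
      have e1 : Short.act (τ ^ k) (j.comp ψ) = j.comp (g ^ k • ψ) := hact k i ψ
      rw [e1] at hk
      rcases hk with hk | hk
      · left
        exact sigma_eq_of (⟨⟨i', hi'⟩, ψ'⟩ : SubEmb L T S) ⟨⟨i, hi⟩, g ^ k • ψ⟩
          (sigma_comp_injective j T hk)
      · right
        have h1 : ComplexEmbedding.conjugate (j.comp ψ') = j.comp (κ • ψ') :=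
          RingHom.ext fun x => hκ (ψ' x)
        rw [h1] at hk
        have h2 := sigma_comp_injective j T (a₁ := ⟨i', κ • ψ'⟩) (a₂ := ⟨i, g ^ k • ψ⟩) hk
        have h3 := congrArg (fun y : (Σ i, (T i →+* L)) =>
          (⟨y.1, κ • y.2⟩ : Σ i, (T i →+* L))) h2
        have h4 : κ • κ • ψ' = ψ' := RingHom.ext fun x => hκκ (ψ' x)
        change (⟨i', κ • κ • ψ'⟩ : Σ i, (T i →+* L)) = ⟨i, κ • g ^ k • ψ⟩ at h3
        rw [h4] at h3
        exact sigma_eq_of (⟨⟨i', hi'⟩, ψ'⟩ : SubEmb L T S) ⟨⟨i, hi⟩, κ • g ^ k • ψ⟩ h3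
    · right
      refine ⟨m, hm, ?_⟩
      change ((τ ^ m : ℂ ≃+* ℂ) : ℂ →+* ℂ).comp (j.comp ψ') = j.comp ψ' at hm'
      rw [hact] at hm'
      have h2 := comp_injective j hm'
      change (⟨⟨i', hi'⟩, g ^ m • ψ'⟩ : SubEmb L T S) = ⟨⟨i', hi'⟩, ψ'⟩
      rw [h2]

end transfer

section free

variable {p : ℕ} [hp : Fact p.Prime] {I : Type} [Fintype I] {K : I → Type} [∀ i, Field (K i)]
  [∀ i, NumberField (K i)] [∀ i, IsCMField (K i)] {m : I → ℕ} {π : ∀ i, K i}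

theorem free_of_cyclic (hint : ∀ i, IsIntegral ℤ (π i))
    (hweil : ∀ i, ∀ φ : K i →+* ℂ, ‖φ (π i)‖ ^ 2 = (p : ℝ) ^ m i)
    (hmild : Cyclic p m π) (hsep : Norm.Separated p m π)
    {κ : I → ℚ} (hκ : ∀ i, 0 < κ i) {u : ∀ i, (K i →+* PadicAlgCl p) → ℤ}
    (hu : ∀ i, ∀ τ : K i →+* PadicAlgCl p,
      2 * (- Real.logb p ‖τ (π i)‖) - m i = (κ i : ℝ) * u i τ)
    {L : Type} [Field L] [NumberField L] [IsGalois ℚ L] (j : L →+* ℂ)
    (h : ∀ i, ∀ ψ : K i →+* ℂ, ∃ φ : K i →+* L, j.comp φ = ψ) (jp : L →+* PadicAlgCl p) :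
    Free (F := K) (L := L) (fun i φ => u i (jp.comp φ)) := by
  obtain ⟨κc, hκc⟩ := exists_lift j (starRingAut : ℂ ≃+* ℂ)
  have hκc' : ∀ x, starRingEnd ℂ (j x) = j (κc x) := hκc
  have hκc'' : ∀ i, ∀ φ : K i →+* L, κc • φ = cbar φ := by
    intro i φ
    apply comp_injective j
    change j.comp (κc • φ) = j.comp (cbar φ)
    rw [comp_cbar]
    exact RingHom.ext fun x => (hκc' (φ x)).symm
  have hne : ∀ i, Nonempty (K i →+* L) := by
    intro i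
    obtain ⟨φ, _⟩ := h i (Classical.arbitrary _)
    exact ⟨φ⟩
  refine free_of_iso hκc'' hne
    (fun i φ => anti_of_slopes' (hweil i) (hκ i).ne' (hu i) (jp.comp φ)) ?_
    (separates_of_separated hint hweil hκ hu j h jp hsep)
  intro T S hS hT
  have hconst := const_of_twoSlopes j h T S hweil hκ hu jp
  rcases hmild T S hS (fun i hi => (nonReal_iff _).1 (hT i hi)) with h1 | h1 | h1 | ⟨h1, h2⟩
  · exact Or.inr (Or.inr (isoL_of j h T S hκc' h1))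
  · obtain ⟨i, hi, σ, hσ, hm⟩ := few_of_primes (L := L) j h T S h1
    exact Or.inl ⟨i, hi, σ, hσ, Or.inl hm⟩
  · obtain ⟨i, hi, σ, hσ, hm⟩ := few_of_embeddings (L := L) j h T S h1
    exact Or.inl ⟨i, hi, σ, hσ, Or.inl hm⟩
  · have h3 : ∃ i ∈ S, ∃ σ : L ≃ₐ[ℚ] L, (∃ ψ : T i →+* L, σ • ψ ≠ ψ) ∧
        moved (fun i => T i) S σ < 2 * 4 := by
      rcases h1 with h1 | h1
      · exact few_of_primes (L := L) j h T S h1
      · exact few_of_embeddings (L := L) j h T S h1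
    obtain ⟨i, hi, σ, hσ, hm⟩ := h3
    exact Or.inl ⟨i, hi, σ, hσ, Or.inr ⟨hm, hconst h2⟩⟩

end free

end

end Run7.h8.IC
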