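import Pool.Agent.Run7.h8.IC.Trans
import Pool.Agent.W527.NormMain

/-!
# One Weil number: norms that generate CM subfields
-/

set_option linter.unusedSectionVars false
set_option linter.unusedVariables false

namespace Run7.h8.IC

open NumberField Module Pool.Agent.W527 Pool.Agent.H204R3.CM Pool.Agent.H977R3.WN
  Pool.Agent.W527.Norm IntermediateField

noncomputable section

/-- For every CM subfield `T` of `K`, all positive powers of the norm `N` of `π` to `T`, normalised to
absolute value one (`unitNorm`: `N ^ 2 / p ^ (a [K : T])`), generate the field `T`. -/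
def NormsGenerate (p a : ℕ) {K : Type} [Field K] [NumberField K] (π : K) : Prop :=
  ∀ T : IntermediateField ℚ K, ¬ IsTotallyReal T → ∀ s : ℕ, 0 < s →
    ℚ⟮(unitNorm p a T π) ^ s⟯ = (⊤ : IntermediateField ℚ T)

variable {K : Type} [Field K] [NumberField K] [IsCMField K] {p a : ℕ} {π : K}

theorem top_iff {T : Type} [Field T] [NumberField T] (x : T) :
    ℚ⟮x⟯ = (⊤ : IntermediateField ℚ T) ↔ ∀ ψ ψ' : T →+* ℂ, ψ x = ψ' x → ψ = ψ' := by
  constructor
  · intro h ψ ψ' hx
    have h1 := (Field.primitive_element_iff_algHom_eq_of_eval ℚ ℂ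
      (fun x => IsAlgClosed.splits _) x ψ.toRatAlgHom).1 h ψ'.toRatAlgHom hx
    ext y
    exact DFunLike.congr_fun h1 y
  · intro h
    obtain ⟨φ⟩ : Nonempty (T →+* ℂ) := inferInstance
    refine (Field.primitive_element_iff_algHom_eq_of_eval ℚ ℂ
      (fun x => IsAlgClosed.splits _) x φ.toRatAlgHom).2 fun ψ hx => ?_
    have h1 := h φ ψ.toRingHom hx
    ext y
    exact RingHom.congr_fun h1 y

theorem separated_of_normsGenerate (h : NormsGenerate p a π) :
    Norm.Separated (I := Unit) (K := fun _ => K) p (fun _ => a) (fun _ => π) := by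
  intro T i i' ψ ψ' b c hT hT' hb hc heq
  obtain rfl : i = i' := Subsingleton.elim _ _
  have hgen : ∀ s : ℕ, 0 < s → ∀ χ χ' : (T i) →+* ℂ, χ (unitNorm p a (T i) π) ^ s =
      χ' (unitNorm p a (T i) π) ^ s → χ = χ' := by
    intro s hs χ χ' hχ
    refine (top_iff ((unitNorm p a (T i) π) ^ s)).1 (h (T i) hT s hs) χ χ' ?_
    rw [map_pow, map_pow]
    exact hχ
  obtain ⟨L, _, _, j, hL⟩ := exists_galois (fun _ : Unit => K)
  obtain ⟨φ, rfl⟩ := sub_emb j hL i (T i) ψ
  obtain ⟨φ', rfl⟩ := sub_emb j hL i (T i) ψ'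
  obtain ⟨φ₀, _⟩ := hL () (Classical.arbitrary _)
  obtain ⟨Φ, rfl⟩ := res_surjective φ₀ (T i) φ
  obtain ⟨Φ', rfl⟩ := res_surjective φ₀ (T i) φ'
  obtain ⟨k, rfl⟩ := MulAction.exists_smul_eq (L ≃ₐ[ℚ] L) Φ Φ'
  set x : L := Φ ((unitNorm p a (T i) π : T i) : K) with hx
  have h1 : x ^ b = (k x) ^ c := by
    apply j.injective
    rw [map_pow, map_pow]
    exact heq
  have h2 : ∀ m : ℕ, x ^ (b ^ m) = ((k ^ m) x) ^ (c ^ m) := by
    intro m
    induction m with
    | zero => simp
    | succ m ih =>
      rw [pow_succ, pow_mul, ih, ← pow_mul, mul_comm (c ^ m) b, pow_mul, ← map_pow, h1, map_pow,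
        ← pow_mul, pow_succ, pow_succ, mul_comm (c ^ m) c]
      rfl
  have h3 : b = c := by
    by_contra hbc
    have hN := h2 (orderOf k)
    rw [pow_orderOf_eq_one] at hN
    have hN' : x ^ (b ^ orderOf k) = x ^ (c ^ orderOf k) := hN
    have hord : orderOf k ≠ 0 := (orderOf_pos k).ne'
    have hne : b ^ orderOf k ≠ c ^ orderOf k := fun h4 => hbc (Nat.pow_left_injective hord h4)
    have hx0 : x ≠ 0 := by
      intro h0
      have h5 := hgen 1 one_pos (j.comp (res (T i) Φ))
        (ComplexEmbedding.conjugate (j.comp (res (T i) Φ))) (by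
          have h6 : (j.comp (res (T i) Φ)) (unitNorm p a (T i) π) = 0 := by
            change j x = 0
            rw [h0, map_zero]
          rw [ComplexEmbedding.conjugate_coe_eq, h6, map_zero])
      exact conj_ne hT _ h5.symm
    obtain ⟨s, hs, hxs⟩ : ∃ s : ℕ, 0 < s ∧ x ^ s = 1 := by
      rcases lt_or_gt_of_ne hne with h4 | h4
      · refine ⟨c ^ orderOf k - b ^ orderOf k, by omega, ?_⟩
        have h5 : x ^ (b ^ orderOf k) * x ^ (c ^ orderOf k - b ^ orderOf k) =
            x ^ (b ^ orderOf k) * 1 := by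
          rw [← pow_add, Nat.add_sub_cancel' h4.le, mul_one]
          exact hN'.symm
        exact mul_left_cancel₀ (pow_ne_zero _ hx0) h5
      · refine ⟨b ^ orderOf k - c ^ orderOf k, by omega, ?_⟩
        have h5 : x ^ (c ^ orderOf k) * x ^ (b ^ orderOf k - c ^ orderOf k) =
            x ^ (c ^ orderOf k) * 1 := by
          rw [← pow_add, Nat.add_sub_cancel' h4.le, mul_one]
          exact hN'
        exact mul_left_cancel₀ (pow_ne_zero _ hx0) h5
    have h5 := hgen s hs (j.comp (res (T i) Φ))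
      (ComplexEmbedding.conjugate (j.comp (res (T i) Φ))) (by
        have h6 : (j.comp (res (T i) Φ)) (unitNorm p a (T i) π) ^ s = 1 := by
          change (j x) ^ s = 1
          rw [← map_pow, hxs, map_one]
        rw [ComplexEmbedding.conjugate_coe_eq, h6, ← map_pow, h6, map_one])
    exact conj_ne hT _ h5.symm
  subst h3
  have h4 := hgen b hb _ _ heq
  unfold Short.Same
  rw [h4]

theorem normsGenerate_of_separated
    (h : Norm.Separated (I := Unit) (K := fun _ => K) p (fun _ => a) (fun _ => π)) :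
    NormsGenerate p a π := by
  intro T hT s hs
  rw [top_iff]
  intro ψ ψ' hx
  rw [map_pow, map_pow] at hx
  have h1 := h (fun _ => T) () () ψ ψ' s s hT hT hs hs hx
  exact eq_of_heq (Sigma.mk.inj h1).2

theorem separated_iff : Norm.Separated (I := Unit) (K := fun _ => K) p (fun _ => a) (fun _ => π) ↔
    NormsGenerate p a π :=
  ⟨normsGenerate_of_separated, separated_of_normsGenerate⟩

/-- In a CM field of degree `2 r ^ k` with an automorphism that acts on the pairs of conjugate
embeddings as one cycle, all Weil numbers satisfy the condition. -/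
theorem cyclic_of_oneOrbit [Fact p.Prime] {r k : ℕ} (hr : r.Prime)
    (hdeg : finrank ℚ K = 2 * r ^ k) (hτ : OneOrbit K) (π : K) :
    Cyclic (I := Unit) (K := fun _ => K) p (fun _ => a) (fun _ => π) :=
  fun T S hS hT => Or.inl (isolated_of_oneOrbit hr hdeg hτ T S hS hT)

end

end Run7.h8.IC
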