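import Pool.Agent.Run7.h8.IC.VMain

/-!
# De Rham-Betti classes on powers of an abelian variety of CM type, prime power dimension
-/

set_option linter.unusedSectionVars false
set_option linter.unusedVariables false

namespace Run7.h8.IC.Vec

open NumberField Pool.Agent.H204R3.CM Pool.Agent.W547.KB Pool.Agent.W537.PC Module
  Pool.Agent.W527 Pool.Agent.W527.Struct Pool.Agent.W527.Per Run7.h8.IC Run7.h8.IC.CMT

variable {ι : Type} [Fintype ι] (A : ι → CMPair) {P : PeriodSystem}

theorem of_abelianOrCyclic (hB : P.Bost) (hD : P.Deligne) (hA : AbelianOrCyclic A) :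
    (AllHodge P A ↔ TwoTermRelations P A) ∧ (SimpleSubfields A → AllHodge P A) :=
  ⟨allHodge_iffC A hB hD hA, fun hS =>
    (allHodge_iffC A hB hD hA).2 (twoTerm_of_simpleSubfields A hB hD hS)⟩

theorem abelianOrCyclic_single {A : CMPair} (h : IsPrimePower A) :
    AbelianOrCyclic (fun _ : Unit => A) := by
  intro T S hS hT _
  obtain ⟨⟨r, k, hr, hdeg⟩, ho⟩ := h
  exact Or.inr (Or.inr (isolated_of' (K := fun _ : Unit => A.E)
    (isolated_of_oneOrbit (K := A.E) hr hdeg ho T S hS hT)))

/-- The excess function of the whole field has absolute value one. -/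
theorem abs_excess_top {A : CMPair} {T : IntermediateField ℚ A.E} (hT : T = ⊤) (ψ : Short.Emb T) :
    |Short.excess A.Φ T ψ| = 1 := by
  classical
  obtain ⟨L, _, _, j, hj⟩ := exists_galois fun _ : Unit => A.E
  obtain ⟨χ, rfl⟩ := sub_emb (E := fun _ : Unit => A.E) j hj () T ψ
  obtain ⟨φ₀, _⟩ := hj () (Classical.arbitrary _)
  obtain ⟨φ, rfl⟩ := res_surjective φ₀ T χ
  have h1 : Short.excess A.Φ T (j.comp (res T φ)) =
      tr T (wt (fun _ : Unit => A.Φ) j ()) (res T φ) :=
    excess_eq (E := fun _ : Unit => A.E) (Φ := fun _ => A.Φ) j hj () T (res T φ)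
  rw [h1, tr_top T hT]
  unfold wt
  split_ifs
  · exact abs_one
  · rw [abs_neg, abs_one]

theorem simpleSubfields_single {A : CMPair}
    (h : ∀ T : IntermediateField ℚ A.E, IsCM T → T = ⊤ ∨ IsAbelian T) :
    SimpleSubfields (fun _ : Unit => A) := by
  refine ⟨fun i T hT => ?_, fun i i' _ _ hii => absurd rfl hii⟩
  rcases h T hT with h1 | h1
  · exact Or.inr (Or.inl fun ψ ψ' => by rw [abs_excess_top h1, abs_excess_top h1])
  · exact Or.inl h1

theorem of_primePower (hB : P.Bost) (hD : P.Deligne) {A : CMPair} (h : IsPrimePower A) :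
    (AllHodge P (fun _ : Unit => A) ↔ TwoTermRelations P fun _ : Unit => A) ∧
    ((∀ T : IntermediateField ℚ A.E, IsCM T → T = ⊤ ∨ IsAbelian T) →
      AllHodge P fun _ : Unit => A) :=
  ⟨allHodge_iffC _ hB hD (abelianOrCyclic_single h), fun hS =>
    (of_abelianOrCyclic _ hB hD (abelianOrCyclic_single h)).2 (simpleSubfields_single hS)⟩

end Run7.h8.IC.Vec
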