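import Pool.Agent.Run7.h8.IC.Follow

/-!
# Weil numbers in CM fields with isolated cycles: the statements, with explicit arguments
-/

set_option linter.unusedVariables false

namespace Run7.h8.IC

open NumberField Module Pool.Agent.W527.Norm

/-- The property `P p a I K π` holds for all families of Weil numbers `π i` for `p ^ a` in CM fields
`K i` such that the norms to CM subfields are separated and every family of CM subfields has an
isolated cycle (or some other property: `Cyclic`). -/
def ForAllCyclic (P : ∀ (p : ℕ) (_ : Fact p.Prime) (_ : ℕ) (I : Type) (_ : Fintype I)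
    (K : I → Type) (_ : ∀ i, Field (K i)) (_ : ∀ i, NumberField (K i))
    (_ : ∀ i, IsCMField (K i)), (∀ i, K i) → Prop) : Prop :=
  ∀ (p : ℕ) (hp : Fact p.Prime) (a : ℕ) (I : Type) (hI : Fintype I) (K : I → Type)
    (hF : ∀ i, Field (K i)) (hN : ∀ i, NumberField (K i)) (hC : ∀ i, IsCMField (K i))
    (π : ∀ i, K i), 0 < a → (∀ i, IsIntegral ℤ (π i)) →
    (∀ i, π i * IsCMField.complexConj (K i) (π i) = (p : K i) ^ a) →
    Cyclic p (fun _ => a) π → Separated p (fun _ => a) π → P p hp a I hI K hF hN hC π

/-- The property holds for every Weil number `π` for `p ^ a` in a CM field `K` of degree `2 r ^ k`, `r`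
a prime number, such that some automorphism of the complex numbers acts on the pairs of complex
conjugate embeddings of `K` as one cycle (`OneOrbit`), if all positive powers of the normalised norms
of `π` to CM subfields generate these subfields (`NormsGenerate`). -/
def ForPrimePower (P : ∀ (p : ℕ) (_ : Fact p.Prime) (_ : ℕ) (I : Type) (_ : Fintype I)
    (K : I → Type) (_ : ∀ i, Field (K i)) (_ : ∀ i, NumberField (K i))
    (_ : ∀ i, IsCMField (K i)), (∀ i, K i) → Prop) : Prop :=
  ∀ (p : ℕ) (hp : Fact p.Prime) (a : ℕ) (K : Type) (hF : Field K) (hN : NumberField K)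
    (hC : IsCMField K) (π : K) (r k : ℕ), 0 < a → IsIntegral ℤ π →
    π * IsCMField.complexConj K π = (p : K) ^ a → r.Prime → finrank ℚ K = 2 * r ^ k →
    OneOrbit K → NormsGenerate p a π →
      P p hp a Unit PUnit.fintype (fun _ => K) (fun _ => hF) (fun _ => hN) (fun _ => hC)
        (fun _ => π)

/-- A property that follows from the maximality of the angle rank holds in both cases. -/
theorem both (P : WeilProperty) (h : FollowsFromAngle P) :
    ForAllCyclic (fun p _ a I _ K _ _ _ π => P p a I K π) ∧
      ForPrimePower (fun p _ a I _ K _ _ _ π => P p a I K π) :=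
  ⟨fun p _ a I _ K _ _ _ π => holdsForCyclic h p a I K π,
    fun p _ a K _ _ _ π r k => primePower_of_cyclic (holdsForCyclic h) p a K π r k⟩

end Run7.h8.IC
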