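import Pool.Agent.Run7.h8.IC.GalDefs

/-!
# Noncommutative Hodge classes, with one Frobenius element with given Weil numbers: definitions
-/

set_option autoImplicit false

namespace Run7.h8.IC

open NumberField Module Pool.Agent.H204R3.GP Pool.Agent.TH170.FT

/-- The space `(H^1) ^ {⊗ 2 m}`, where `H^1` is the dual of `W`. -/
def Tensors (W : Type) [AddCommGroup W] [Module ℚ W] (m : ℕ) : Type :=
  MultilinearMap ℚ (fun _ : Fin m × Fin 2 => W) ℚ

instance (W : Type) [AddCommGroup W] [Module ℚ W] (m : ℕ) : AddCommGroup (Tensors W m) :=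
  inferInstanceAs (AddCommGroup (MultilinearMap ℚ (fun _ : Fin m × Fin 2 => W) ℚ))

instance (W : Type) [AddCommGroup W] [Module ℚ W] (m : ℕ) : Module ℚ (Tensors W m) :=
  inferInstanceAs (Module ℚ (MultilinearMap ℚ (fun _ : Fin m × Fin 2 => W) ℚ))

/-- The sum of the spaces `(H^1) ^ {⊗ 2 d j}`. -/
def Sums (W : Type) [AddCommGroup W] [Module ℚ W] {J : Type} (d : J → ℕ) : Type :=
  ∀ j, Tensors W (d j)

instance (W : Type) [AddCommGroup W] [Module ℚ W] {J : Type} (d : J → ℕ) :
    AddCommGroup (Sums W d) := inferInstanceAs (AddCommGroup (∀ j, Tensors W (d j)))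

instance (W : Type) [AddCommGroup W] [Module ℚ W] {J : Type} (d : J → ℕ) :
    Module ℚ (Sums W d) := inferInstanceAs (Module ℚ (∀ j, Tensors W (d j)))

section

variable {W T : Type} [AddCommGroup W] [Module ℚ W] [AddCommGroup T] [Module ℂ T] (per : W →+ T)
  {J : Type} {d : J → ℕ}

/-- All components of `v` are sums of products of Hodge classes of degree two. -/
def FromDegreeTwo (v : Sums W d) : Prop :=
  ∀ j, (v j : MultilinearMap ℚ (fun _ : Fin (d j) × Fin 2 => W) ℚ) ∈
    Submodule.span ℚ {ψ | IsProductOfHodgeBilinear per ψ}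

/-- All components of `v` are Hodge classes. -/
def AllHodgeTensors (v : Sums W d) : Prop := ∀ j, IsHodgeTensor per (v j)

/-- `v` is invariant under the linear maps in `G`. -/
def IsInvariantUnder (G : Set (W →ₗ[ℚ] W)) (v : Sums W d) : Prop :=
  ∀ g ∈ G, ∀ j, MultilinearMap.compLinearMap (v j) (fun _ => g) = v j

end

/-- The rational cohomology of a variety `X` (for instance a power of `A`) is a direct summand of the
sum of the spaces `(H^1(A, ℚ) ^ {⊗ 2 d j}) (d j)`. The submodule `N` of the sum of these spaces
contains the classes of algebraic cycles, in particular the products of Hodge classes of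
degree two (Lefschetz). The endomorphism `e` is given by the projection functor of an admissible
subcategory `C` of the derived category of `X`: it maps `N = K_0(X) ⊗ ℚ` onto the classes of
`K_0(C) ⊗ ℚ`, and the rational topological K-group of `C` consists of the `v` with `e v = v`. **Then
each Hodge class of `C` is the class of an element of `K_0(C) ⊗ ℚ`.** -/
def NCHodgeHolds {W T : Type} [AddCommGroup W] [Module ℚ W] [AddCommGroup T] [Module ℂ T]
    (per : W →+ T) : Prop :=
  ∀ (J : Type) (_ : Fintype J) (d : J → ℕ) (N : Submodule ℚ (Sums W d))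
    (e : Sums W d →ₗ[ℚ] Sums W d), (∀ v, FromDegreeTwo per v → v ∈ N) →
      ∀ v, e v = v → AllHodgeTensors per v → v ∈ N.map e

/-- `NCHodgeHolds` for the complex abelian varieties with a Frobenius element whose characteristic
polynomial is the product of the minimal polynomials of the `π i`. -/
def NCHodgeHoldsFor (p a : ℕ) {I : Type} [Fintype I] (K : I → Type) [∀ i, Field (K i)]
    [∀ i, NumberField (K i)] (π : ∀ i, K i) : Prop :=
  ∀ (W T Γ : Type) [AddCommGroup W] [Module ℚ W] [FiniteDimensional ℚ W] [AddCommGroup T]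
    [Module ℂ T] [Group Γ] (per : W →+ T) (ω₀ : W →ₗ[ℚ] W →ₗ[ℚ] ℚ) (ℓ : ℕ) [Fact ℓ.Prime]
    (D : GaloisData per ω₀ Γ ℓ), HasFrobenius D.ρ D.χ p a π → NCHodgeHolds per

/-- The noncommutative variational Hodge conjecture. As in `NCHodgeHolds`, the rational cohomology of
the fibre `X_s` of a family `X` (for instance a fibre power of the abelian scheme) is a direct summand
of the sum of the spaces `(H^1)^{⊗ 2 d j}(d j)`; the submodule `N s` contains the classes of algebraic
cycles on `X_s`; the endomorphism `e` is given by the projection functor of an `S`-linear admissible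
subcategory `C`. If a global section `v` of the K-theory of `C` (`e v = v`) is a Hodge class on one
fibre, then on every fibre it is the class of an element of `K_0(C_s) ⊗ ℚ`. -/
def NCVariationalHolds {S W : Type} {T : S → Type} [AddCommGroup W] [Module ℚ W]
    [∀ s, AddCommGroup (T s)] [∀ s, Module ℂ (T s)] (per : ∀ s, W →+ T s)
    (G : Set (W →ₗ[ℚ] W)) : Prop :=
  ∀ (J : Type) (_ : Fintype J) (d : J → ℕ) (N : S → Submodule ℚ (Sums W d))
    (e : Sums W d →ₗ[ℚ] Sums W d), (∀ s v, FromDegreeTwo (per s) v → v ∈ N s) →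
      ∀ v, e v = v → IsInvariantUnder G v → ∀ s, AllHodgeTensors (per s) v →
        ∀ s', v ∈ (N s').map e

/-- `NCVariationalHolds` for the abelian schemes whose fibre at a very general point `s₀` (over a
finitely generated field) has a Frobenius element whose characteristic polynomial is the product of
the minimal polynomials of the `π i`. -/
def NCVariationalFor (p a : ℕ) {I : Type} [Fintype I] (K : I → Type) [∀ i, Field (K i)]
    [∀ i, NumberField (K i)] (π : ∀ i, K i) : Prop :=
  ∀ (S W Γ : Type) (T : S → Type) [AddCommGroup W] [Module ℚ W] [FiniteDimensional ℚ W]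
    [∀ s, AddCommGroup (T s)] [∀ s, Module ℂ (T s)] [Group Γ] (per : ∀ s, W →+ T s)
    (G : Set (W →ₗ[ℚ] W)) (s₀ : S) (ω₀ : W →ₗ[ℚ] W →ₗ[ℚ] ℚ) (ℓ : ℕ) [Fact ℓ.Prime]
    (D : GaloisData (per s₀) ω₀ Γ ℓ), HasFrobenius D.ρ D.χ p a π → IsFamily per G s₀ →
      NCVariationalHolds per G

end Run7.h8.IC
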