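import Pool.Agent.Run7.h8.IC.Gal
import Pool.Agent.Run7.h8.IC.SumDefs

/-!
# Noncommutative Hodge classes, for abelian varieties with one Frobenius element with given Weil
numbers
-/

set_option autoImplicit false

namespace Run7.h8.IC

open NumberField Module Pool.Agent.H204R3.GP Pool.Agent.TH170.FT Pool.Agent.TH170 Run7.h370.MR

theorem ncHodgeHoldsFor :
    FollowsFromAngle (fun p _ a _ _ K _ _ _ π => NCHodgeHoldsFor p a K π) := by
  intro p _ a I _ K _ _ _ π ha hgen hw hang W T Γ _ _ _ _ _ _ per ω₀ ℓ _ D hF J _ d N e hN v hv hH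
  exact ⟨v, hN v fun j => hodgeFor p a I K π ha hgen hw hang W T Γ per ω₀ ℓ D hF (d j) (v j)
    (hH j), hv⟩

theorem ncVariationalHoldsFor :
    FollowsFromAngle (fun p _ a _ _ K _ _ _ π => NCVariationalFor p a K π) := by
  intro p _ a I _ K _ _ _ π ha hgen hw hang S W Γ T _ _ _ _ _ _ per G s₀ ω₀ ℓ _ D hF hG J _ d N e
    hN v hv hinv s hs s'
  exact ⟨v, hN s' v fun j => variational
    (hodgeFor p a I K π ha hgen hw hang W (T s₀) Γ (per s₀) ω₀ ℓ D hF) hG (d j) (v j)
      (fun g hg => hinv g hg j) s (hs j) s', hv⟩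

end Run7.h8.IC
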