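import Pool.Agent.Run7.h8.IC.Main
import Pool.Agent.Y137.MV.Defs

/-!
# Weil numbers in fields with isolated cycles have maximal angle rank
-/

set_option linter.unusedSectionVars false
set_option linter.unusedVariables false

namespace Run7.h8.IC

open NumberField Module Pool.Agent.H204R3.CM Pool.Agent.H977R3.WN Pool.Agent.H485R3.Exact
  Pool.Agent.H204R3.GP Pool.Agent.H204R3.SP IntermediateField Pool.Agent.W527
  Pool.Agent.Y137.MV

noncomputable section

variable {p : ℕ} [hp : Fact p.Prime] {I : Type} [Fintype I] {K : I → Type} [∀ i, Field (K i)]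
  [∀ i, NumberField (K i)] [∀ i, IsCMField (K i)] {π : ∀ i, K i}

theorem logb_zpow' (b x : ℝ) (n : ℤ) : Real.logb b (x ^ n) = n * Real.logb b x := by
  unfold Real.logb
  rw [Real.log_zpow]
  ring

/-- If the slope deviations satisfy no relations, then the angle rank is maximal. -/
theorem angle_of_free {a : ℕ} (hπ : ∀ i, π i ≠ 0)
    {κ : I → ℚ} (hκ : ∀ i, 0 < κ i) {u : ∀ i, (K i →+* PadicAlgCl p) → ℤ}
    (hu : ∀ i, ∀ τ : K i →+* PadicAlgCl p,
      2 * (- Real.logb p ‖τ (π i)‖) - a = (κ i : ℝ) * u i τ)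
    (hfree : ∀ (L : Type) [Field L] [NumberField L] [IsGalois ℚ L] (j : L →+* ℂ),
      (∀ i, ∀ ψ : K i →+* ℂ, ∃ φ : K i →+* L, j.comp φ = ψ) → ∀ (jp : L →+* PadicAlgCl p),
      Free (F := K) (L := L) (fun i φ => u i (jp.comp φ))) :
    MaximalAngleRank (p ^ a) π := by
  classical
  intro r n hprod i₀ φ₀
  obtain ⟨L, _, _, j, h⟩ := exists_galois K
  let jp : L →+* PadicAlgCl p := ((IsAlgClosed.lift : L →ₐ[ℚ] PadicAlgCl p) : L →+* PadicAlgCl p)
  have hp1 : (1 : ℝ) < p := by exact_mod_cast hp.out.one_lt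
  let n' : ∀ i, (K i →+* L) → ℤ := fun i φ => n ⟨i, j.comp φ⟩
  -- the relation in `L`
  have hL : ∏ i, ∏ φ : (K i →+* L), (φ (π i)) ^ n' i φ = ((p : L) ^ a) ^ r := by
    apply j.injective
    rw [map_zpow₀, map_pow, map_natCast, map_prod]
    have h1 : ((p : ℂ) ^ a) ^ r = (((p ^ a : ℕ) : ℂ)) ^ r := by push_cast; rfl
    rw [h1, ← hprod, Fintype.prod_sigma]
    refine Finset.prod_congr rfl fun i _ => ?_
    rw [map_prod]
    refine Fintype.prod_equiv (embEquiv j (h i)) _ _ fun φ => ?_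
    rw [map_zpow₀]
    rfl
  -- the relation between the deviations
  have hlog : ∀ g : L ≃ₐ[ℚ] L, ∑ i, ∑ φ : (K i →+* L),
      (n' i φ : ℝ) * ((κ i : ℝ) * u i (jp.comp (g • φ))) =
        2 * (r * a) - a * ∑ i, ∑ φ : (K i →+* L), (n' i φ : ℝ) := by
    intro g
    have h1 := congrArg (fun x => Real.logb p ‖jp (g x)‖) hL
    have hne : ∀ i (φ : K i →+* L), ‖jp (g (φ (π i)))‖ ≠ 0 := by
      intro i φ
      rw [norm_ne_zero_iff]
      exact (map_ne_zero jp).2 ((map_ne_zero g).2 ((map_ne_zero φ).2 (hπ i)))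
    have hnormp : Real.logb p ‖(p : PadicAlgCl p)‖ = -1 := by
      have h2 := Pool.Agent.H925R2.norm_pow_cast (p := p) 1
      rw [pow_one] at h2
      have h3 : ‖(p : PadicAlgCl p)‖ = ((p : ℝ))⁻¹ := by
        have h4 : ((((p : ℚ) : ℚ)) : PadicAlgCl p) = (p : PadicAlgCl p) := by push_cast; rfl
        rw [← h4, h2, pow_one]
      rw [h3, Real.logb_inv, Real.logb_self_eq_one hp1]
    have hR : Real.logb p ‖jp (g (((p : L) ^ a) ^ r))‖ = - (r * a) := by
      rw [map_zpow₀, map_zpow₀, map_pow, map_pow, map_natCast, map_natCast, norm_zpow, norm_pow,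
        logb_zpow', Real.logb_pow, hnormp]
      ring
    have hLsum : Real.logb p ‖jp (g (∏ i, ∏ φ : (K i →+* L), (φ (π i)) ^ n' i φ))‖ =
        ∑ i, ∑ φ : (K i →+* L), (n' i φ : ℝ) * Real.logb p ‖jp (g (φ (π i)))‖ := by
      rw [map_prod, map_prod, norm_prod, Real.logb_prod]
      · refine Finset.sum_congr rfl fun i _ => ?_
        rw [map_prod, map_prod, norm_prod, Real.logb_prod]
        · refine Finset.sum_congr rfl fun φ _ => ?_
          rw [map_zpow₀, map_zpow₀, norm_zpow, logb_zpow']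
        · intro φ _
          rw [map_zpow₀, map_zpow₀, norm_zpow]
          exact zpow_ne_zero _ (hne i φ)
      · intro i _
        rw [map_prod, map_prod, norm_prod]
        refine Finset.prod_ne_zero_iff.2 fun φ _ => ?_
        rw [map_zpow₀, map_zpow₀, norm_zpow]
        exact zpow_ne_zero _ (hne i φ)
    rw [hLsum, hR] at h1
    have h2 : ∀ i (φ : K i →+* L), (n' i φ : ℝ) * ((κ i : ℝ) * u i (jp.comp (g • φ))) =
        -2 * ((n' i φ : ℝ) * Real.logb p ‖jp (g (φ (π i)))‖) - a * (n' i φ : ℝ) := by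
      intro i φ
      rw [← hu i (jp.comp (g • φ))]
      change (n' i φ : ℝ) * (2 * (- Real.logb p ‖jp (g (φ (π i)))‖) - a) = _
      ring
    rw [Finset.sum_congr rfl (fun i _ => Finset.sum_congr rfl (fun φ _ => h2 i φ))]
    simp only [Finset.sum_sub_distrib, ← Finset.mul_sum]
    rw [h1]
    ring
  -- complex conjugation
  obtain ⟨κc, hκc⟩ := exists_lift j (starRingAut : ℂ ≃+* ℂ)
  have hκc'' : ∀ i, ∀ φ : K i →+* L, κc • φ = cbar φ := by
    intro i φ
    apply comp_injective j
    change j.comp (κc • φ) = j.comp (cbar φ)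
    rw [comp_cbar]
    exact RingHom.ext fun x => ((show ∀ x, starRingEnd ℂ (j x) = j (κc x) from hκc) (φ x)).symm
  -- the antisymmetric part
  let D : ℚ := ∏ i, ((κ i).den : ℚ)
  let d : I → ℤ := fun i => (κ i).num * ∏ k ∈ Finset.univ.erase i, ((κ k).den : ℤ)
  have hd : ∀ i, (d i : ℚ) = D * κ i := by
    intro i
    have h1 : D = ((κ i).den : ℚ) * ∏ k ∈ Finset.univ.erase i, ((κ k).den : ℚ) :=
      (Finset.mul_prod_erase Finset.univ (fun k => ((κ k).den : ℚ)) (Finset.mem_univ i)).symm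
    have h3 : κ i * ((κ i).den : ℚ) = (κ i).num := Rat.mul_den_eq_num (κ i)
    simp only [d]
    push_cast
    rw [h1, ← h3]
    ring
  have hD : 0 < D := Finset.prod_pos fun i _ => by exact_mod_cast (κ i).den_pos
  have hd0 : ∀ i, d i ≠ 0 := by
    intro i h0
    have h1 := hd i
    rw [h0, Int.cast_zero] at h1
    exact (mul_pos hD (hκ i)).ne h1
  have key := hfree L j h jp (fun i φ => d i * (n' i φ - n' i (cbar φ)))
    (fun i φ => by rw [cbar_cbar]; ring) (fun g => by
      have h1 := hlog g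
      have h2 := hlog (g * κc)
      have h3 : ∑ i, ∑ φ : (K i →+* L), (n' i φ : ℝ) *
          ((κ i : ℝ) * u i (jp.comp ((g * κc) • φ))) = ∑ i, ∑ φ : (K i →+* L),
            (n' i (cbar φ) : ℝ) * ((κ i : ℝ) * u i (jp.comp (g • φ))) := by
        refine Finset.sum_congr rfl fun i _ => ?_
        refine Fintype.sum_equiv (Function.Involutive.toPerm cbar (fun φ => cbar_cbar φ)) _ _
          fun φ => ?_
        change _ = (n' i (cbar (cbar φ)) : ℝ) * ((κ i : ℝ) * u i (jp.comp (g • cbar φ)))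
        rw [cbar_cbar, mul_smul, hκc'']
      rw [h3] at h2
      have h4 : ∑ i, ∑ φ : (K i →+* L), ((d i * (n' i φ - n' i (cbar φ)) *
          u i (jp.comp (g • φ)) : ℤ) : ℝ) = 0 := by
        have h5 : ∀ i (φ : K i →+* L), ((d i * (n' i φ - n' i (cbar φ)) *
            u i (jp.comp (g • φ)) : ℤ) : ℝ) = (D : ℝ) *
              ((n' i φ : ℝ) * ((κ i : ℝ) * u i (jp.comp (g • φ))) -
                (n' i (cbar φ) : ℝ) * ((κ i : ℝ) * u i (jp.comp (g • φ)))) := by
          intro i φ
          have h6 : (d i : ℝ) = (D : ℝ) * (κ i : ℝ) := by exact_mod_cast hd i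
          push_cast
          rw [h6]
          ring
        rw [Finset.sum_congr rfl (fun i _ => Finset.sum_congr rfl (fun φ _ => h5 i φ))]
        simp only [← Finset.mul_sum, Finset.sum_sub_distrib]
        rw [h1, h2, sub_self, mul_zero]
      exact_mod_cast h4)
  obtain ⟨φ, rfl⟩ := h i₀ φ₀
  have h1 := (mul_eq_zero.1 (key i₀ φ)).resolve_left (hd0 i₀)
  have h2 : ComplexEmbedding.conjugate (j.comp φ) = j.comp (cbar φ) := (comp_cbar j φ).symm
  rw [h2]
  exact sub_eq_zero.1 h1

/-- Weil numbers for `p ^ a` in CM fields all of whose families of CM subfields have isolated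
cycles (or are otherwise mild) have maximal angle rank if the norms to CM subfields are separated. -/
theorem angle_of_cyclic {a : ℕ} (hint : ∀ i, IsIntegral ℤ (π i))
    (hw : ∀ i, π i * IsCMField.complexConj (K i) (π i) = (p : K i) ^ a)
    (hmild : Cyclic p (fun _ => a) π) (hsep : Norm.Separated p (fun _ => a) π) :
    MaximalAngleRank (p ^ a) π := by
  have hweil : ∀ i, ∀ φ : K i →+* ℂ, ‖φ (π i)‖ ^ 2 = (p : ℝ) ^ a := by
    intro i φ
    have h1 := congrArg (fun x => ‖φ x‖) (hw i)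
    simp only [map_mul, map_pow, map_natCast, norm_mul, norm_pow, Complex.norm_natCast] at h1
    rw [IsCMField.complexEmbedding_complexConj, Complex.norm_conj] at h1
    rw [sq]
    exact h1
  have hπ : ∀ i, π i ≠ 0 := fun i => ne_zero_of_weil (p := p) (m := a) (hweil i)
  choose κ u hκ hu using fun i => exists_slopes_pos (p := p) (hπ i) a
  exact angle_of_free hπ hκ hu (fun L _ _ _ j h jp =>
    free_of_cyclic (m := fun _ => a) hint hweil hmild hsep hκ hu j h jp)

end

end Run7.h8.IC
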