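import Pool.Agent.Run7.h8.IC.Props
import Pool.Agent.Run7.h8.IC.Angle

/-!
# Properties that follow from the maximality of the angle rank
-/

set_option linter.unusedVariables false

namespace Run7.h8.IC

open NumberField Module Pool.Agent.W527 IntermediateField Pool.Agent.Y137.MV

/-- Separated Weil numbers generate their fields. -/
theorem gen_of_separated {p a : ℕ} [Fact p.Prime] {I : Type} {K : I → Type} [∀ i, Field (K i)]
    [∀ i, NumberField (K i)] [∀ i, IsCMField (K i)] {π : ∀ i, K i}
    (h : Norm.Separated p (fun _ => a) π) (i : I) : ℚ⟮π i⟯ = ⊤ := by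
  classical
  have hT : ¬ IsTotallyReal (⊤ : IntermediateField ℚ (K i)) := by
    intro hr
    obtain ⟨φ⟩ : Nonempty (K i →+* ℂ) := inferInstance
    have h1 := Pool.Agent.W527.nonReal_iff (⊤ : IntermediateField ℚ (K i))
    apply h1.1 ?_ hr
    have h2 : ∃ x : K i, IsCMField.complexConj (K i) x ≠ x := by
      by_contra hcon
      push Not at hcon
      have h3 : IsCMField.complexConj (K i) = AlgEquiv.refl := AlgEquiv.ext hcon
      exact IsCMField.complexConj_ne_one (K i) h3
    obtain ⟨x, hx⟩ := h2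
    exact ⟨x, IntermediateField.mem_top, hx⟩
  rw [top_iff]
  intro ψ ψ' hx
  have h1 := h (fun _ => ⊤) i i (ψ.comp (algebraMap (⊤ : IntermediateField ℚ (K i)) (K i)))
    (ψ'.comp (algebraMap (⊤ : IntermediateField ℚ (K i)) (K i))) 1 1 hT hT one_pos one_pos (by
      rw [pow_one, pow_one]
      change ψ ((Norm.unitNorm p a ⊤ (π i) : (⊤ : IntermediateField ℚ (K i))) : K i) =
        ψ' ((Norm.unitNorm p a ⊤ (π i) : (⊤ : IntermediateField ℚ (K i))) : K i)
      rw [unitNorm_top (π i) ⊤ rfl]
      simp only [map_div₀, map_pow, map_natCast, hx])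
  have h2 := eq_of_heq (Sigma.mk.inj h1).2
  ext y
  exact RingHom.congr_fun h2 (⟨y, IntermediateField.mem_top⟩ : (⊤ : IntermediateField ℚ (K i)))

/-- The property follows from the maximality of the angle rank. -/
def FollowsFromAngle (P : WeilProperty) : Prop :=
  ∀ (p : ℕ) [Fact p.Prime] (a : ℕ) (I : Type) [Fintype I] (K : I → Type)
    [∀ i, Field (K i)] [∀ i, NumberField (K i)] [∀ i, IsCMField (K i)] (π : ∀ i, K i), 0 < a →
    (∀ i, ℚ⟮π i⟯ = ⊤) → (∀ i, π i * IsCMField.complexConj (K i) (π i) = (p : K i) ^ a) →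
      MaximalAngleRank (p ^ a) π → P p a I K π

theorem holdsForCyclic {P : WeilProperty} (h : FollowsFromAngle P) : HoldsForCyclic P := by
  intro p _ a I _ K _ _ _ π ha hint hw hc hs
  exact h p a I K π ha (gen_of_separated hs) hw (angle_of_cyclic hint hw hc hs)

end Run7.h8.IC
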