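import Pool.Agent.Run7.h8.IC.OutDefs
import Pool.Agent.Run7.h8.IC.Follow
import Pool.Agent.Run7.h16.MO.Main
import Pool.Agent.Run7.h16.OT.Rel
import Pool.Agent.Run7.h16.OT.Split

/-!
# Products with arbitrary varieties

The deductions from the maximality of the angle rank are those of helper16 (Run7/h16/MO and
Run7/h16/OT) and of the starting files.
-/

set_option autoImplicit false

namespace Run7.h8.IC

open NumberField Module Polynomial Pool.Agent.Y137.MV Run7.h16.OT Run7.h16.MO Pool.Agent.Y1.CT

theorem murreFor : FollowsFromAngle (fun p _ a _ _ K _ _ _ π => MurreFor p a K π) := by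
  intro p _ a I _ K _ _ _ π ha hgen hw hang f hf
  exact murreOutside (Nat.one_lt_pow ha.ne' (Fact.out : p.Prime).one_lt) (noRel_out hang hw hf)

theorem splitOutsideFor : FollowsFromAngle
    (fun p _ a _ _ K _ _ _ π => Run7.h16.OT.TateClassesSplit (p := p) a K π) := by
  intro p _ a I _ K _ _ _ π ha hgen hw hang
  exact split_outside hgen hw hang

end Run7.h8.IC
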