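import Mathlib

/-!
# Weil numbers in CM fields with isolated cycles of automorphisms: self-contained definitions
-/

set_option autoImplicit false

namespace Run7.h8.IC.W

open NumberField Module

noncomputable section

/-- A Weil number `π` for `p ^ a` in a CM field `K`. -/
structure WeilNum (p a : ℕ) where
  /-- the CM field -/
  K : Type
  [field : Field K]
  [numberField : NumberField K]
  [cm : IsCMField K]
  /-- the Weil number -/
  π : K
  integral : IsIntegral ℤ π
  weil : π * IsCMField.complexConj K π = (p : K) ^ a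

attribute [instance] WeilNum.field WeilNum.numberField WeilNum.cm

section one

variable {K : Type} [Field K] [NumberField K]

/-- The number `N(π) ^ 2 / p ^ (a [K : T])`, where `N(π)` is the norm of `π` to the subfield `T`. -/
def unitNorm (p a : ℕ) (T : IntermediateField ℚ K) (π : K) : T :=
  Algebra.norm T π ^ 2 / (p : T) ^ (a * finrank T K)

/-- The complex embeddings of the subfield `T`. -/
def CEmb (T : IntermediateField ℚ K) : Type := T →+* ℂ

/-- The embedding `ψ` followed by the automorphism `τ` of the complex numbers. -/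
def CEmb.move {T : IntermediateField ℚ K} (ψ : CEmb T) (τ : ℂ ≃+* ℂ) : CEmb T :=
  (τ : ℂ →+* ℂ).comp (show T →+* ℂ from ψ)

/-- The complex conjugate embedding. -/
def CEmb.conj {T : IntermediateField ℚ K} (ψ : CEmb T) : CEmb T :=
  ComplexEmbedding.conjugate (show T →+* ℂ from ψ)

/-- The image under `ψ` of the normalised norm `unitNorm`. -/
def CEmb.norm {T : IntermediateField ℚ K} (ψ : CEmb T) (p a : ℕ) (π : K) : ℂ :=
  (show T →+* ℂ from ψ) (unitNorm p a T π)

/-- The subfield `T` is not totally real. -/
def IsCMSub (T : IntermediateField ℚ K) : Prop := ¬ IsTotallyReal T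

/-- The discriminant of the subfield `T`. -/
def disc (T : IntermediateField ℚ K) : ℤ := discr T

/-- The slopes of the norm of `π` to `T` have the same distance from the middle slope. -/
def OneDistance (p : ℕ) [Fact p.Prime] (a : ℕ) (π : K) (T : IntermediateField ℚ K) : Prop :=
  ∀ ψ ψ' : T →+* PadicAlgCl p, |Real.log ‖ψ (unitNorm p a T π)‖| =
    |Real.log ‖ψ' (unitNorm p a T π)‖|

end one

/-- For every CM subfield `T` of `K` and all `s > 0` the `s`-th powers of the conjugates of the
normalised norm of `π` to `T` are different; equivalently, they generate `T`. -/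
def NormsGenerate {p a : ℕ} (W : WeilNum p a) : Prop :=
  ∀ T : IntermediateField ℚ W.K, IsCMSub T → ∀ s : ℕ, 0 < s → ∀ ψ ψ' : CEmb T,
    ψ.norm p a W.π ^ s = ψ'.norm p a W.π ^ s → ψ = ψ'

/-- The automorphism `τ` of the complex numbers acts on the pairs of complex conjugate embeddings of
`K` (the embeddings of the maximal real subfield) as one cycle. -/
def OneOrbit (K : Type) [Field K] : Prop :=
  ∃ τ : ℂ ≃+* ℂ, ∀ φ φ' : K →+* ℂ, ∃ m : ℕ, ((τ ^ m : ℂ ≃+* ℂ) : ℂ →+* ℂ).comp φ = φ' ∨
    ((τ ^ m : ℂ ≃+* ℂ) : ℂ →+* ℂ).comp φ = ComplexEmbedding.conjugate φ'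

/-- The field `K` has degree `2 r ^ k`, `r` a prime number, some automorphism of the complex numbers
acts on the pairs of complex conjugate embeddings of `K` as one cycle, and all positive powers of the
normalised norms of `π` to CM subfields generate these subfields. -/
def IsPrimePower {p a : ℕ} (W : WeilNum p a) : Prop :=
  (∃ r k : ℕ, r.Prime ∧ finrank ℚ W.K = 2 * r ^ k) ∧ OneOrbit W.K ∧ NormsGenerate W

section family

variable {I : Type} {K : I → Type} [∀ i, Field (K i)] [∀ i, NumberField (K i)]

/-- A family of subfields `T i` of the fields `K i`. -/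
def Subs (K : I → Type) [∀ i, Field (K i)] [∀ i, NumberField (K i)] : Type :=
  ∀ i, IntermediateField ℚ (K i)

/-- A complex embedding of one of the fields `T i`. -/
structure FEmb (T : Subs K) where
  /-- the index of the field -/
  i : I
  /-- the embedding -/
  ψ : CEmb (T i)

/-- The embedding followed by an automorphism of the complex numbers. -/
def FEmb.move {T : Subs K} (x : FEmb T) (τ : ℂ ≃+* ℂ) : FEmb T := ⟨x.i, x.ψ.move τ⟩

/-- The complex conjugate embedding. -/
def FEmb.conj {T : Subs K} (x : FEmb T) : FEmb T := ⟨x.i, x.ψ.conj⟩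

/-- Some automorphism `τ` of the complex numbers has an isolated cycle on the complex embeddings of
the fields `T i`, `i ∈ S`: there is an embedding `x` whose cycle under `τ` has exactly `n > 1`
elements, where

* `n` is a power of a prime number, or `n` is a power of `2` (not `1`) multiplied by a power of an
  odd prime number, and `τ ^ (n / 2)` maps `x` to its complex conjugate;
* the length of the cycle of every embedding `y` of a `T i'`, `i' ∈ S`, is not divisible by `n` (some
  power `τ ^ m`, `m` not divisible by `n`, fixes `y`), unless `y` or its complex conjugate lies in the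
  cycle of `x`. -/
def Isolated (T : Subs K) (S : Finset I) : Prop :=
  ∃ (τ : ℂ ≃+* ℂ) (x : FEmb T) (n : ℕ), x.i ∈ S ∧ (∀ k : ℕ, x.move (τ ^ k) = x ↔ n ∣ k) ∧
    ((∃ r k : ℕ, r.Prime ∧ n = r ^ (k + 1)) ∨
      ∃ r a b : ℕ, r.Prime ∧ r ≠ 2 ∧ n = 2 ^ (a + 1) * r ^ (b + 1) ∧
        x.move (τ ^ (n / 2)) = x.conj) ∧
    ∀ y : FEmb T, y.i ∈ S → (∃ k : ℕ, y = x.move (τ ^ k) ∨ y.conj = x.move (τ ^ k)) ∨
      ∃ m : ℕ, ¬ n ∣ m ∧ y.move (τ ^ m) = y

/-- Some prime number divides the discriminant of one of the fields `T i`, `i ∈ S`, but its `k`-th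
power does not divide the product of the discriminants. -/
def FewPrimes (T : Subs K) (S : Finset I) (k : ℕ) : Prop :=
  ∃ i ∈ S, ∃ ℓ : ℕ, ℓ.Prime ∧ (ℓ : ℤ) ∣ disc (T i) ∧ ¬ (ℓ : ℤ) ^ k ∣ ∏ i' ∈ S, disc (T i')

/-- Some automorphism of the complex numbers moves at least one and less than `2 k` of the
embeddings of the fields `T i`, `i ∈ S`. -/
def FewMoved (T : Subs K) (S : Finset I) (k : ℕ) : Prop :=
  ∃ τ : ℂ ≃+* ℂ, (∃ x : FEmb T, x.i ∈ S ∧ x.move τ ≠ x) ∧
    Nat.card {x : FEmb T // x.i ∈ S ∧ x.move τ ≠ x} < 2 * k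

end family

/-- Every family of CM subfields `T i` of the fields, `i ∈ S ≠ ∅`, has one of the properties. -/
def AllCyclic {p a : ℕ} [Fact p.Prime] {I : Type} (W : I → WeilNum p a) : Prop :=
  ∀ (T : Subs fun i => (W i).K) (S : Finset I), S.Nonempty → (∀ i ∈ S, IsCMSub (T i)) →
    Isolated T S ∨ FewPrimes T S 3 ∨ FewMoved T S 3 ∨
      ((FewPrimes T S 4 ∨ FewMoved T S 4) ∧ ∀ i ∈ S, OneDistance p a (W i).π (T i))

/-- Different embeddings of CM subfields `T i`, `T i'` (equal subfields if `i = i'`) never map
positive powers of the normalised norms to the same complex number. -/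
def NormsSeparated {p a : ℕ} {I : Type} (W : I → WeilNum p a) : Prop :=
  ∀ (T : Subs fun i => (W i).K) (x y : FEmb T) (b c : ℕ), IsCMSub (T x.i) → IsCMSub (T y.i) →
    0 < b → 0 < c → x.ψ.norm p a (W x.i).π ^ b = y.ψ.norm p a (W y.i).π ^ c → x = y

end

end Run7.h8.IC.W
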