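import Pool.Agent.Run7.h8.IC.Follow
import Pool.Agent.Run7.h8.IC.WDefs

/-!
# Weil numbers in CM fields with isolated cycles: comparison of the definitions
-/

set_option linter.unusedVariables false

namespace Run7.h8.IC.W

open NumberField Module Pool.Agent.W527.Short

section conv

variable {I : Type} {K : I → Type} [∀ i, Field (K i)] [∀ i, NumberField (K i)]

theorem same_of_eq {T : ∀ i, IntermediateField ℚ (K i)} {i i' : I} {ψ : Emb (T i)}
    {ψ' : Emb (T i')} (h : (⟨i, ψ⟩ : FEmb (K := K) T) = ⟨i', ψ'⟩) :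
    Same (X := fun i => Emb (T i)) ψ ψ' := by
  obtain ⟨rfl, h⟩ := FEmb.mk.inj h
  obtain rfl := eq_of_heq h
  rfl

theorem mk_eq {T : ∀ i, IntermediateField ℚ (K i)} {i : I} {ψ ψ' : Emb (T i)} :
    (⟨i, ψ⟩ : FEmb (K := K) T) = ⟨i, ψ'⟩ ↔ ψ = ψ' := by
  constructor
  · intro h
    exact eq_of_heq (FEmb.mk.inj h).2
  · rintro rfl
    rfl

theorem isolated_of {T : ∀ i, IntermediateField ℚ (K i)} {S : Finset I}
    (h : Isolated (K := K) T S) : IsolatedCycle T S := by
  obtain ⟨τ, ⟨i, ψ⟩, n, hi, hper, hn, hall⟩ := h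
  refine ⟨τ, i, hi, ψ, n, fun k => ?_, ?_, fun i' hi' χ => ?_⟩
  · rw [← hper k]
    exact mk_eq.symm
  · rcases hn with hn | ⟨r, a, b, h1, h2, h3, h4⟩
    · exact Or.inl hn
    · exact Or.inr ⟨r, a, b, h1, h2, h3, mk_eq.1 h4⟩
  · rcases hall ⟨i', χ⟩ hi' with ⟨k, hk⟩ | ⟨m, hm, hm'⟩
    · left
      refine ⟨k, ?_⟩
      rcases hk with hk | hk
      · exact Or.inl (same_of_eq hk)
      · exact Or.inr (same_of_eq hk)
    · exact Or.inr ⟨m, hm, mk_eq.1 hm'⟩

theorem fewMoved_of {T : ∀ i, IntermediateField ℚ (K i)} {S : Finset I} {k : ℕ}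
    (h : FewMoved (K := K) T S k) : Pool.Agent.W527.Norm.FewEmbeddings T S k := by
  classical
  obtain ⟨τ, ⟨⟨i, ψ⟩, hi, hψ⟩, hcard⟩ := h
  refine ⟨τ, ⟨i, hi, ψ, fun h => hψ (mk_eq.2 h)⟩, lt_of_le_of_lt (le_of_eq ?_) hcard⟩
  have hmv : ∀ i, moved τ (T i) = Nat.card {ψ : Emb (T i) // act τ ψ ≠ ψ} := fun i => rfl
  have h1 : ∑ i ∈ S, moved τ (T i) =
      Nat.card (Σ i : S, {ψ : Emb (T i) // act τ ψ ≠ ψ}) := by
    rw [Nat.card_sigma, ← Finset.sum_coe_sort]
    exact Finset.sum_congr rfl fun i _ => hmv i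
  rw [h1]
  refine Nat.card_congr
    { toFun := fun y => ⟨⟨y.1.1, y.2.1⟩, y.1.2, fun h => y.2.2 (mk_eq.1 h)⟩
      invFun := fun y => ⟨⟨y.1.i, y.2.1⟩, ⟨y.1.ψ, fun h => y.2.2 (mk_eq.2 h)⟩⟩
      left_inv := fun y => rfl
      right_inv := fun y => rfl }

end conv

section num

variable {p a : ℕ} {I : Type}

theorem cyclic_of_allCyclic [Fact p.Prime] {W : I → WeilNum p a} (h : AllCyclic W) :
    Cyclic p (fun _ => a) (fun i => (W i).π) := by
  intro T S hS hT
  rcases h T S hS hT with h1 | h1 | h1 | ⟨h1, h2⟩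
  · exact Or.inl (isolated_of h1)
  · exact Or.inr (Or.inl h1)
  · exact Or.inr (Or.inr (Or.inl (fewMoved_of h1)))
  · refine Or.inr (Or.inr (Or.inr ⟨?_, h2⟩))
    rcases h1 with h1 | h1
    · exact Or.inl h1
    · exact Or.inr (fewMoved_of h1)

theorem separated_of_normsSeparated {W : I → WeilNum p a} (h : NormsSeparated W) :
    Pool.Agent.W527.Norm.Separated p (fun _ => a) (fun i => (W i).π) := by
  intro T i i' ψ ψ' b c hT hT' hb hc heq
  exact same_of_eq (h T ⟨i, ψ⟩ ⟨i', ψ'⟩ b c hT hT' hb hc heq)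

theorem normsGenerate_of {W : WeilNum p a} (h : NormsGenerate W) :
    Run7.h8.IC.NormsGenerate p a W.π := by
  intro T hT s hs
  rw [top_iff]
  intro ψ ψ' hψ
  refine h T hT s hs ψ ψ' ?_
  rw [map_pow, map_pow] at hψ
  exact hψ

/-- A property that follows from the maximality of the angle rank holds for all families with
isolated cycles and separated norms. -/
theorem forFamily [hp : Fact p.Prime] (P : WeilProperty) (h : HoldsForCyclic P) (ha : 0 < a)
    [Fintype I] (W : I → WeilNum p a) (h1 : AllCyclic W) (h2 : NormsSeparated W) :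
    P p a I (fun i => (W i).K) (fun i => (W i).π) :=
  h p a I (fun i => (W i).K) (fun i => (W i).π) ha (fun i => (W i).integral)
    (fun i => (W i).weil) (cyclic_of_allCyclic h1) (separated_of_normsSeparated h2)

/-- A property that follows from the maximality of the angle rank holds in the prime power case. -/
theorem forOne [hp : Fact p.Prime] (P : WeilProperty) (h : HoldsForCyclic P) (ha : 0 < a)
    (W : WeilNum p a) (h1 : IsPrimePower W) :
    P p a Unit (fun _ => W.K) (fun _ => W.π) := by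
  obtain ⟨⟨r, k, hr, hk⟩, h2, h3⟩ := h1
  exact primePower_of_cyclic h p a W.K W.π r k ha W.integral W.weil hr hk h2 (normsGenerate_of h3)

end num

end Run7.h8.IC.W
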