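import Pool.Agent.Y1.TS.Split
import Pool.Agent.Run7.h8.IC.Follow

/-!
# Tate classes on products with arbitrary abelian varieties

The deduction from the maximality of the angle rank is a theorem of the starting files (Y1.TS).
-/

set_option autoImplicit false

namespace Run7.h8.IC

open NumberField Module Pool.Agent.Y1.TS

theorem splitFor : FollowsFromAngle
    (fun p _ a _ _ K _ _ _ π => TateClassesSplit (p := p) a K π) := by
  intro p _ a I _ K _ _ _ π ha hgen hw hang
  exact split_of_angle hgen hw hang

end Run7.h8.IC
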