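import Pool.Agent.Run7.h479.SO.TBDefs
import Pool.Agent.Run7.h479.SO.MoreDefs
import Pool.Agent.Run7.h479.SO.ZetaDefs
import Pool.Agent.TH117.GN.WeilEtaleDefs
import Pool.Agent.W495.FM.Dim
import Pool.Agent.R299.CRY.Main

/-!
# Statements on abelian varieties over finite fields with given Frobenius elements, and on the
schemes generated by them: definitions

The class `PowersOf π` of abelian varieties over finite fields, the class of schemes
`IsAbelianPowersOf`, and the definitions `Opens`, `IsCohomology`, `lFunction`, `CompactCoh` are those of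
helper479 (Run7/h479/SO).
-/

set_option autoImplicit false

namespace Run7.h8.IC

open NumberField Module Pool.Agent.W495.TA Pool.Agent.W495.FM Pool.Agent.W547.KB
  Pool.Agent.TH117.F5 Pool.Agent.R299.CRY Pool.Agent.Run7.h479.SO
open Pool.Agent.TH117.GN (IsWeilEtale)
open scoped TensorProduct

/-- Both forms of the crystalline Tate conjecture for the abelian variety `Y`. -/
def CrystallineTate {p : ℕ} [Fact p.Prime] {ν : PadicAlgCl p ≃+* ℂ} (Y : RedAV p ν) : Prop :=
  ∀ s : ℕ, 0 < s →
    ∀ (K₀ Ω V₀ : Type) [Field K₀] [CharZero K₀] [Field Ω] [IsAlgClosed Ω] [CharZero Ω]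
      [Algebra K₀ Ω] [AddCommGroup V₀] [Module K₀ V₀] [FiniteDimensional K₀ V₀]
      (F₀ : V₀ →ₗ[K₀] V₀) (e : (Ω ⊗[K₀] V₀) ≃ₗ[Ω] TM Ω Y) (σ : K₀ ≃+* K₀) (Ψ : V₀ → V₀),
      IsCrystalline Y s F₀ e → IsSemilinearFrobenius (Y.a * s) σ Ψ F₀ →
        ∀ (m : ℕ) (Cyc : Set (V₀ [⋀^Fin (2 * m)]→ₗ[K₀] K₀)), (∀ c ∈ Cyc, IsFrobFixed p σ Ψ c) →
          ContainsAlg s F₀ e (Submodule.span K₀ Cyc) →
            ∀ f : V₀ [⋀^Fin (2 * m)]→ₗ[K₀] K₀,
              (IsTateCrys F₀ ((p ^ Y.a) ^ s) m f → f ∈ Submodule.span K₀ Cyc) ∧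
                (IsFrobFixed p σ Ψ f → FixedSpan σ Cyc f)

/-- The crystalline Tate conjecture for all abelian varieties over finite fields each factor of which
is supersingular or has a power of Frobenius that is a power of a `π i`. -/
def CrystallineFor (p : ℕ) [Fact p.Prime] {I : Type} (K : I → Type) [∀ i, Field (K i)]
    (π : ∀ i, K i) : Prop :=
  ∀ (ν : PadicAlgCl p ≃+* ℂ) (Y : RedAV p ν), PowersOf π Y → CrystallineTate Y

/-- A property of the schemes generated by these abelian varieties, for all theories of motivic and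
`ℓ`-adic homology `T`. -/
def SchemesFor (p : ℕ) [Fact p.Prime] {I : Type} (K : I → Type) [∀ i, Field (K i)]
    (π : ∀ i, K i) (P : ∀ (Ω : Type) [Field Ω] (V : Type) (_ : Homology Ω V), V → Prop) : Prop :=
  ∀ (ν : PadicAlgCl p ≃+* ℂ) (Ω : Type) [Field Ω] [IsAlgClosed Ω] [CharZero Ω] (V : Type)
    (T : Homology Ω V), IsHomology T → ∀ X : V, Generated T (IsAbelianPowersOf ν π T) X → P Ω V T X

/-- The cycle class maps of `X` are bijective in all dimensions, and (if the weights of the homology
are as they should be) so are those of the complement of any closed subscheme `Z` of dimension at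
most `d`, for the cycles of dimension at least `d`. -/
def CycleClassBijective {Ω : Type} [Field Ω] {V : Type} (T : Homology Ω V) (X : V) : Prop :=
  (∀ i, IsIso T X i) ∧ (HasWeights T → ∀ (Z U : V) (d : ℤ), IsTriple T Z X U → HasDimLE T Z d →
    ∀ i, d ≤ i → IsIso T U i)

/-- The order of the pole of the `L`-function of `H = H^(2 j)(X, ℚ_ℓ)` at `s = j` is the rank of
`CH^j(X)`, which is finite, and rational and homological equivalence agree rationally, so that this
is the rank of `A^j(X)`. -/
def PoleIsRank {Ω V : Type} [Field Ω] (T : Homology Ω V) (X : V) : Prop :=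
  ∀ (q : ℕ) (d : ℤ) (j : ℕ) (τ : Ω →+* ℂ) (H : Type) [AddCommGroup H] [Module Ω H]
    [FiniteDimensional Ω H] (F : H →ₗ[Ω] H), 1 < q → IsCohomology T X q d j H F →
    Module.Finite ℚ (T.M X (2 * (d - j)) (d - j)) ∧ IsIso T X (d - j) ∧
      meromorphicOrderAt (lFunction F τ q) (j : ℂ) =
        ((-(finrank ℚ (T.M X (2 * (d - j)) (d - j)) : ℤ) : ℤ) : WithTop ℤ)

/-- For `i < j` and for `i ≥ 2 j`, `i > 0`, the elements of the direct limit of the groups
`H^i(U a, ℚ_ℓ(j)) = E (U a) (2 d - i) (d - j)`, where the `U a` are the open subschemes of `X`, which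
are invariant under the Frobenius are zero. -/
def FunctionFieldTate {Ω V : Type} [Field Ω] {T : Homology Ω V} (d : ℤ) (G : Opens T) : Prop :=
  ∀ i j : ℤ, (i < j ∨ (2 * j ≤ i ∧ 0 < i)) → ∀ (a : G.I) (e : T.E (G.U a) (2 * d - i) (d - j)),
    G.IsInvariant e → G.IsZero e

/-- `FunctionFieldTate` for all integral schemes `X` in the class `Spread`: the smallest class that
contains the schemes generated by the abelian varieties and that is closed under images and open
subschemes. -/
def FunctionFieldFor (p : ℕ) [Fact p.Prime] {I : Type} (K : I → Type) [∀ i, Field (K i)]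
    (π : ∀ i, K i) : Prop :=
  ∀ (ν : PadicAlgCl p ≃+* ℂ) (Ω : Type) [Field Ω] [IsAlgClosed Ω] [CharZero Ω] (V : Type)
    (T : Homology Ω V), IsHomology T → HasWeights T → ∀ X : V,
      Spread T (Generated T (IsAbelianPowersOf ν π T)) X → ∀ (d : ℤ) (G : Opens T),
        IsOpens X d G → FunctionFieldTate d G

/-- Known properties of the groups `H X = H^3_nr(X, ℚ/ℤ(2))` for the smooth projective varieties `X`
(Lichtenbaum, Kahn): they are torsion groups, and if the conjecture of Tate and Beilinson holds for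
`X` then `H X` is a quotient of the Weil-étale cohomology group `H^4_W(X, ℤ(2))`. -/
def IsUnramified {Ω V : Type} [Field Ω] (T : Homology Ω V) (S : V → Prop)
    (W : V → ℤ → ℤ → Type) [∀ X n i, AddCommGroup (W X n i)] (H : V → Type)
    [∀ X, AddCommGroup (H X)] : Prop :=
  ∀ X, S X → (∀ b : H X, ∃ m : ℕ, 0 < m ∧ m • b = 0) ∧
    (TB T X → ∃ f : W X 2 4 →+ H X, Function.Surjective f)

/-- The group `H^3_nr(X, ℚ/ℤ(2))` is finite (if `X` is smooth and projective). -/
def UnramifiedFinite {Ω V : Type} [Field Ω] (T : Homology Ω V) (X : V) : Prop :=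
  ∀ (S : V → Prop) (W : V → ℤ → ℤ → Type) [∀ X n i, AddCommGroup (W X n i)] (H : V → Type)
    [∀ X, AddCommGroup (H X)], IsWeilEtale T S W → IsUnramified T S W H → S X → Finite (H X)

/-- The rational `K`-groups `K = K'_n(X) ⊗ ℚ`, which embed into the product of the higher Chow groups
`CH_j(X, n) ⊗ ℚ` (Bloch), are finite-dimensional. -/
def BassFinite {Ω V : Type} [Field Ω] (T : Homology Ω V) (X : V) : Prop :=
  ∀ (q : ℕ) (A : CompactCoh Ω) (n : ℕ) (K : Type) [AddCommGroup K] [Module ℚ K],
    IsCompactCoh T X q A →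
    (∃ f : K →ₗ[ℚ] (∀ j : ℤ, T.M X (2 * j + n) j), Function.Injective f) → FiniteDimensional ℚ K

end Run7.h8.IC
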