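import Pool.Agent.Run7.h8.IC.Elem
import Pool.Agent.Run7.h8.IC.Follow
import Pool.Agent.Run7.h8.IC.RedDefs
import Pool.Agent.TH117.BL.Main
import Pool.Agent.TH117.GN.Main
import Pool.Agent.TH117.GN.Wt
import Pool.Agent.R299.CRY2.Main
import Pool.Agent.Run7.h479.SO.More

/-!
# Abelian varieties over finite fields with given Frobenius elements, and schemes generated by them

The deductions from the relations between the Frobenius eigenvalues are those of helper479
(Run7/h479/SO), from theorems of the starting files (TH117, R299, W495).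
-/

set_option autoImplicit false

namespace Run7.h8.IC

open NumberField Pool.Agent.W495.TA Pool.Agent.W495.FM Pool.Agent.TH117 Pool.Agent.TH117.GN
  Pool.Agent.W547.KB Pool.Agent.Run7.h479.SO Pool.Agent.Y137.MV

section av

variable {p : ℕ} [Fact p.Prime] {a : ℕ} {I : Type} [Fintype I] {K : I → Type}
  [∀ i, Field (K i)] [∀ i, NumberField (K i)] [∀ i, IsCMField (K i)] {π : ∀ i, K i}
  {ν : PadicAlgCl p ≃+* ℂ}

theorem self_powers' (Y : RedAV p ν) : BL.IsPowersTimesSupersingular Y Y := fun k =>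
  Or.inr ⟨k, RingHom.id _, 1, 1, one_pos, one_pos, rfl, rfl⟩

theorem tb_of_angle (ha : 0 < a)
    (hw : ∀ i, π i * IsCMField.complexConj (K i) (π i) = (p : K i) ^ a)
    (hang : MaximalAngleRank (p ^ a) π)
    {Ω V : Type} [Field Ω] [IsAlgClosed Ω] [CharZero Ω] {T : Homology Ω V} (hT : IsHomology T)
    {X : V} (hX : Generated T (IsAbelianPowersOf ν π T) X) : TB T X := by
  refine tb_generated hT (fun X hX => ?_) hX
  obtain ⟨Y, C, D, g, h1, hC, hD, hX⟩ := hX
  exact tb_abelian hT hC (tateHolds_elem (elementary_of_angle ha hw hang h1) (self_powers' Y)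
    hC) hD hX

theorem onto_of_angle (ha : 0 < a)
    (hw : ∀ i, π i * IsCMField.complexConj (K i) (π i) = (p : K i) ^ a)
    (hang : MaximalAngleRank (p ^ a) π)
    {Ω V : Type} [Field Ω] [IsAlgClosed Ω] [CharZero Ω] {T : Homology Ω V} (hT : IsHomology T)
    (hW : HasWeights T) {X : V} (hX : Spread T (Generated T (IsAbelianPowersOf ν π T)) X)
    (i : ℤ) : IsOnto T X i :=
  onto_spread hT hW (fun _ h1 i => ((tb_of_angle ha hw hang hT h1).iso hT i).1) hX i

end av

theorem crystallineFor : FollowsFromAngle (fun p _ _ _ _ K _ _ _ π => CrystallineFor p K π) := by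
  intro p _ a I _ K _ _ _ π ha hgen hw hang ν Y hY s hs K₀ Ω V₀ _ _ _ _ _ _ _ _ _ F₀ e σ Ψ he hΨ m
    Cyc hC hA f
  exact Pool.Agent.R299.CRY2.main_elem (elementary_of_angle ha hw hang hY) (self_powers' Y) s hs
      F₀ e he σ Ψ hΨ Cyc hC hA f

theorem cycleClassFor : FollowsFromAngle (fun p _ _ _ _ K _ _ _ π =>
    SchemesFor p K π fun _ _ _ T X => CycleClassBijective T X) := by
  intro p _ a I _ K _ _ _ π ha hgen hw hang ν Ω _ _ _ V T hT X hX
  have h := tb_of_angle ha hw hang hT hX
  exact ⟨fun i => h.iso hT i, fun hW Z U d h1 hZ i hi =>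
    iso_opened hT hW h1 (onto_of_dim hT hZ hi) (h.iso hT i)⟩

theorem poleFor : FollowsFromAngle (fun p _ _ _ _ K _ _ _ π =>
    SchemesFor p K π fun _ _ _ T X => PoleIsRank T X) := by
  intro p _ a I _ K _ _ _ π ha hgen hw hang ν Ω _ _ _ V T hT X hX q d j τ H _ _ _ F hq hF
  have h := tb_of_angle ha hw hang hT hX
  exact ⟨finite_M hT h _ _, h.iso hT _, order_lFunction hT h hq hF τ⟩

theorem functionFieldFor : FollowsFromAngle
    (fun p _ _ _ _ K _ _ _ π => FunctionFieldFor p K π) := by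
  intro p _ a I _ K _ _ _ π ha hgen hw hang ν Ω _ _ _ V T hT hW X hX d G hG i j h b e he
  exact generic_zero hT hW hX (fun _ h1 i => onto_of_angle ha hw hang hT hW h1 i) hG h he

theorem unramifiedFor : FollowsFromAngle (fun p _ _ _ _ K _ _ _ π =>
    SchemesFor p K π fun _ _ _ T X => UnramifiedFinite T X) := by
  intro p _ a I _ K _ _ _ π ha hgen hw hang ν Ω _ _ _ V T hT X hX S W _ H _ hW hH hS
  have h1 := tb_of_angle ha hw hang hT hX
  obtain ⟨h2, h3⟩ := hH X hS
  obtain ⟨f, hf⟩ := h3 h1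
  exact finite_of_fg_torsion (hW X hS h1 2 4) f hf h2

theorem bassFor : FollowsFromAngle (fun p _ _ _ _ K _ _ _ π =>
    SchemesFor p K π fun _ _ _ T X => BassFinite T X) := by
  intro p _ a I _ K _ _ _ π ha hgen hw hang ν Ω _ _ _ V T hT X hX q A n M _ _ hA hM
  exact finite_K hT (tb_of_angle ha hw hang hT hX) hA n M hM

end Run7.h8.IC
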