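import Pool.Agent.TH170.GS.Rel
import Pool.Agent.Run7.h479.SO.ElemDefs
import Pool.Agent.Y137.MV.Defs

/-!
# The relations between the Frobenius eigenvalues of an abelian variety whose Frobenius
endomorphisms have powers that are powers of numbers of maximal angle rank

The last part of the proof is adapted from helper479 (`Run7.h479.SO.Elem`) and TH170.GS.Rel.
-/

set_option autoImplicit false
set_option linter.unusedSectionVars false
set_option linter.unusedVariables false

namespace Run7.h8.IC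

open NumberField Finset Module Pool.Agent.W495.TA Pool.Agent.TH117 Pool.Agent.TH170
  Pool.Agent.TH170.GS Pool.Agent.Run7.h479.SO Pool.Agent.Y137.MV

theorem norm_sq' {p a : ℕ} {F : Type} [Field F] [NumberField F] [IsCMField F] {x : F}
    (hx : x * IsCMField.complexConj F x = (p : F) ^ a) (φ : F →+* ℂ) :
    ‖φ x‖ ^ 2 = (p : ℝ) ^ a := by
  have h1 := congrArg φ hx
  rw [map_mul, IsCMField.complexEmbedding_complexConj, map_pow, map_natCast,
    Complex.mul_conj'] at h1
  exact_mod_cast h1

/-- The product of the values of a function of the image. -/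
theorem prod_fiber {B X : Type} [Fintype B] [Fintype X] [DecidableEq X] (G : B → Option X)
    (e : B → ℕ) (x : X → ℂ) (k : ℕ) :
    ∏ z, x z ^ (k * ∑ v, if G v = some z then e v else 0) =
      ∏ v, (match G v with
        | none => (1 : ℂ)
        | some z => x z ^ (k * e v)) := by
  have h1 : ∀ z, x z ^ (k * ∑ v, if G v = some z then e v else 0) =
      ∏ v, (if G v = some z then x z ^ (k * e v) else 1) := by
    intro z
    rw [Finset.mul_sum, ← Finset.prod_pow_eq_pow_sum]
    refine prod_congr rfl fun v _ => ?_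
    split_ifs <;> simp
  rw [prod_congr rfl fun z _ => h1 z, prod_comm]
  refine prod_congr rfl fun v _ => ?_
  rcases hv : G v with _ | z
  · simp
  · simp only [Option.some_inj]
    rw [prod_ite_eq univ z, if_pos (mem_univ _)]

variable {p : ℕ} [Fact p.Prime] {a : ℕ} {I : Type} [Fintype I] {K : I → Type}
  [∀ i, Field (K i)] [∀ i, NumberField (K i)] [∀ i, IsCMField (K i)] {π : ∀ i, K i}

/-- All relations between the Frobenius eigenvalues of an abelian variety whose Frobenius
endomorphisms have powers that are powers of numbers of maximal angle rank are elementary. -/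
theorem elementary_of_angle {ν : PadicAlgCl p ≃+* ℂ} (ha : 0 < a)
    (hw : ∀ i, π i * IsCMField.complexConj (K i) (π i) = (p : K i) ^ a)
    (hang : MaximalAngleRank (p ^ a) π) {Y : RedAV p ν} (hY : PowersOf π Y) :
    BL.HasElementaryRelations Y := by
  classical
  intro e he
  let S : Y.X.I → Prop := fun l =>
    ∃ s : ℕ, 0 < s ∧ Y.π l ^ (2 * s) = ((p : (Y.X.factor l).E) ^ Y.a) ^ s
  have hY' : ∀ l, ¬ S l → ∃ (i : I) (θ : K i →+* (Y.X.factor l).E) (s t : ℕ),
      0 < s ∧ 0 < t ∧ Y.π l ^ s = θ (π i) ^ t := by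
    intro l hl
    exact (hY l).resolve_left hl
  choose τ θ s t hs ht hθ using hY'
  have hp1 : (1 : ℝ) < p := by exact_mod_cast (Fact.out : p.Prime).one_lt
  have hpC : (p : ℂ) ≠ 0 := Nat.cast_ne_zero.2 (Fact.out : p.Prime).ne_zero
  have hst : ∀ l (h : ¬ S l), s l h * Y.a = t l h * a := by
    intro l h
    have hne : Nonempty ((Y.X.factor l).E →+* ℂ) := inferInstance
    obtain ⟨φ⟩ := hne
    have h1 := congrArg (fun x => ‖φ x‖ ^ 2) (hθ l h)
    simp only [map_pow, norm_pow] at h1
    have h2 := (Y.frob l).weil φ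
    have h3 := norm_sq' (hw (τ l h)) (φ.comp (θ l h))
    have h4 : ‖φ (Y.π l)‖ ^ 2 = (p : ℝ) ^ Y.a := h2
    have h5 : ‖φ (θ l h (π (τ l h)))‖ ^ 2 = (p : ℝ) ^ a := h3
    rw [← pow_mul, ← pow_mul, mul_comm (s l h), mul_comm (t l h), pow_mul, pow_mul, h4, h5,
      ← pow_mul, ← pow_mul] at h1
    have h6 := pow_right_injective₀ (zero_lt_one.trans hp1) hp1.ne' h1
    rw [mul_comm (s l h), mul_comm (t l h)]
    exact h6
  let X : Type := Σ i, (K i →+* ℂ)
  let inv : X → X := fun z => ⟨z.1, ComplexEmbedding.conjugate z.2⟩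
  have conj_conj : ∀ i (φ : K i →+* ℂ),
      ComplexEmbedding.conjugate (ComplexEmbedding.conjugate φ) = φ := by
    intro i φ
    ext x
    simp [ComplexEmbedding.conjugate_coe_eq]
  have hinv : ∀ z, inv (inv z) = z := by
    rintro ⟨i, φ⟩
    simp only [inv, conj_conj]
  let G : BL.Emb Y → Option X := fun v =>
    if h : S v.1 then none else some ⟨τ v.1 h, v.2.comp (θ v.1 h)⟩
  have hG1 : ∀ v, S v.1 → G v = none := fun v h => dif_pos h
  have hG2 : ∀ v (h : ¬ S v.1), G v = some ⟨τ v.1 h, v.2.comp (θ v.1 h)⟩ := fun v h => dif_neg h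
  have hGc : ∀ v z, G v = some z → G (conjE v) = some (inv z) := by
    intro v z hz
    by_cases h : S v.1
    · rw [hG1 v h] at hz
      exact absurd hz (by simp)
    · rw [hG2 v h] at hz
      rw [← Option.some.inj hz, hG2 (conjE v) h]
      rfl
  -- a common exponent
  let u : Y.X.I → ℕ := fun l => if h : S l then h.choose else s l h
  have hu0 : ∀ l, 0 < u l := by
    intro l
    by_cases h : S l
    · simp only [u, dif_pos h]
      exact h.choose_spec.1
    · simp only [u, dif_neg h]
      exact hs l h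
  let P : ℕ := ∏ l, u l
  have hP0 : 0 < P := Finset.prod_pos fun l _ => hu0 l
  have hPu : ∀ l, ∃ c, P = u l * c := fun l => Finset.dvd_prod_of_mem u (mem_univ l)
  let x : X → ℂ := fun z => z.2 (π z.1)
  have hxx : ∀ z, x z * x (inv z) = (p : ℂ) ^ a := by
    rintro ⟨i, φ⟩
    have h1 := congrArg φ (hw i)
    rw [map_mul, IsCMField.complexEmbedding_complexConj, map_pow, map_natCast] at h1
    exact h1
  have hx0 : ∀ z, x z ≠ 0 := by
    intro z h
    have h1 := hxx z
    rw [h, zero_mul] at h1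
    exact pow_ne_zero a hpC h1.symm
  have key1 : ∀ v, G v = none → BL.eig Y v ^ (2 * P * a) = (p : ℂ) ^ (Y.a * P * a) := by
    intro v hv
    have h : S v.1 := by
      by_contra h
      rw [hG2 v h] at hv
      exact absurd hv (by simp)
    have hu : u v.1 = h.choose := dif_pos h
    obtain ⟨c, hc⟩ := hPu v.1
    have h1 := congrArg v.2 h.choose_spec.2
    rw [map_pow, map_pow, map_pow, map_natCast, ← hu] at h1
    have h2 : BL.eig Y v ^ (2 * u v.1) = ((p : ℂ) ^ Y.a) ^ u v.1 := h1
    calc BL.eig Y v ^ (2 * P * a) = (BL.eig Y v ^ (2 * u v.1)) ^ (c * a) := by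
          rw [← pow_mul, hc]
          congr 1
          ring
      _ = (p : ℂ) ^ (Y.a * P * a) := by
          rw [h2, ← pow_mul, ← pow_mul, hc]
          congr 1
          ring
  have key2 : ∀ v z, G v = some z → BL.eig Y v ^ (2 * P * a) = x z ^ (Y.a * (2 * P)) := by
    intro v z hz
    by_cases h : S v.1
    · rw [hG1 v h] at hz
      exact absurd hz (by simp)
    rw [hG2 v h] at hz
    rw [← Option.some.inj hz]
    have hu : u v.1 = s v.1 h := dif_neg h
    obtain ⟨c, hc⟩ := hPu v.1
    have h1 := congrArg v.2 (hθ v.1 h)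
    rw [map_pow, map_pow] at h1
    have h2 : BL.eig Y v ^ (s v.1 h) =
        x ⟨τ v.1 h, v.2.comp (θ v.1 h)⟩ ^ (t v.1 h) := h1
    calc BL.eig Y v ^ (2 * P * a) = (BL.eig Y v ^ (s v.1 h)) ^ (2 * c * a) := by
          rw [← pow_mul, hc, hu]
          congr 1
          ring
      _ = x ⟨τ v.1 h, v.2.comp (θ v.1 h)⟩ ^ (Y.a * (2 * P)) := by
          rw [h2, ← pow_mul, hc, hu]
          congr 1
          have h3 := hst v.1 h
          calc t v.1 h * (2 * c * a) = 2 * c * (t v.1 h * a) := by ring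
            _ = 2 * c * (s v.1 h * Y.a) := by rw [h3]
            _ = Y.a * (2 * (s v.1 h * c)) := by ring
  -- the exponents
  let m : X → ℕ := fun z => ∑ v, if G v = some z then e v else 0
  have hsym : ∀ z, m z = m (inv z) := by
    obtain ⟨s₀, hs₀, hrel⟩ := he
    let c₀ : ℕ := ∑ v, if G v = none then Y.a * P * a * e v else 0
    have h1 : (∏ v, BL.eig Y v ^ e v) ^ (2 * P * a) =
        (p : ℂ) ^ c₀ * ∏ z, x z ^ (Y.a * (2 * P) * m z) := by
      rw [show (∏ z, x z ^ (Y.a * (2 * P) * m z)) = _ from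
        prod_fiber G e x (Y.a * (2 * P)), ← Finset.prod_pow_eq_pow_sum, ← prod_mul_distrib,
        ← prod_pow]
      refine prod_congr rfl fun v _ => ?_
      rw [← pow_mul, mul_comm (e v), pow_mul]
      rcases hv : G v with _ | z
      · rw [key1 v hv, if_pos rfl, mul_one, ← pow_mul]
      · rw [key2 v z hv, if_neg (by simp), pow_zero, one_mul, ← pow_mul]
    have h2 := congrArg (fun y => y ^ (2 * P * a)) hrel
    beta_reduce at h2
    rw [pow_right_comm, h1, mul_pow, ← Finset.prod_pow] at h2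
    have h3 : ∏ z, x z ^ (Y.a * (2 * P) * m z * (2 * s₀)) =
        (p : ℂ) ^ (((Y.a * (s₀ * ∑ v, e v) * (2 * P * a) : ℕ) : ℤ) - ((c₀ * (2 * s₀) : ℕ) : ℤ)) := by
      rw [zpow_sub₀ hpC, zpow_natCast, zpow_natCast, eq_div_iff (pow_ne_zero _ hpC)]
      simp only [← pow_mul] at h2
      rw [mul_comm]
      exact h2
    have h4 := hang (((Y.a * (s₀ * ∑ v, e v) * (2 * P * a) : ℕ) : ℤ) - ((c₀ * (2 * s₀) : ℕ) : ℤ))
      (fun z => ((Y.a * (2 * P) * m z * (2 * s₀) * a : ℕ) : ℤ)) (by
        push_cast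
        rw [← zpow_natCast, ← zpow_mul, mul_comm (a : ℤ), zpow_mul, zpow_natCast]
        have h5 := congrArg (fun y => y ^ a) h3
        beta_reduce at h5
        push_cast at h5
        rw [← h5, ← prod_pow]
        refine prod_congr rfl fun z _ => ?_
        rw [← pow_mul]
        have h6 : ((Y.a : ℤ) * (2 * (P : ℤ)) * (m z : ℤ) * (2 * (s₀ : ℤ)) * (a : ℤ)) =
          ((Y.a * (2 * P) * m z * (2 * s₀) * a : ℕ) : ℤ) := by push_cast; ring
        rw [h6, zpow_natCast])
    rintro ⟨i, φ⟩
    have h5 := h4 i φ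
    have h6 : Y.a * (2 * P) * m ⟨i, φ⟩ * (2 * s₀) * a =
        Y.a * (2 * P) * m ⟨i, ComplexEmbedding.conjugate φ⟩ * (2 * s₀) * a := by exact_mod_cast h5
    have h7 : (Y.a * (2 * P) * (2 * s₀) * a) * m ⟨i, φ⟩ =
        (Y.a * (2 * P) * (2 * s₀) * a) * m ⟨i, ComplexEmbedding.conjugate φ⟩ := by
      linarith
    have hpos : 0 < Y.a * (2 * P) * (2 * s₀) * a := by
      have := Y.pos
      positivity
    exact Nat.eq_of_mul_eq_mul_left hpos h7
  refine mem_of_symm _ G inv hinv ?_ ?_ ?_ ?_ (fun v => (e v : ℤ)) ?_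
  · rintro ⟨i, φ⟩ h
    have h1 : ComplexEmbedding.conjugate φ = φ := eq_of_heq (Sigma.mk.inj h).2
    exact IsTotallyComplex.complexEmbedding_not_isReal φ h1
  · intro v hv
    apply single_mem
    by_contra h
    have h1 := hG2 v h
    rw [hv] at h1
    exact absurd h1 (by simp)
  · intro v v' z hz hz'
    refine pair_mem v v' fun σ => ?_
    have h1 := key2 v z hz
    have h2 := key2 v' _ hz'
    have h3 : (BL.eig Y v * BL.eig Y v') ^ (2 * P * a) = (p : ℂ) ^ (a * (Y.a * (2 * P))) := by
      rw [mul_pow, h1, h2, ← mul_pow, hxx, ← pow_mul]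
    have h4 := congrArg (fun y => Real.logb p ‖ν.symm (σ y)‖) h3
    have hNp : ‖(p : PadicAlgCl p)‖ = (p : ℝ)⁻¹ := by
      have h2 : (p : PadicAlgCl p) = ((p : ℚ_[p]) : PadicAlgCl p) := by
        rw [map_natCast]
      rw [h2, PadicAlgCl.norm_extends, Padic.norm_p]
    simp only [map_pow, map_mul, map_natCast, norm_pow, norm_mul, Real.logb_pow] at h4
    rw [hNp, Real.logb_inv, Real.logb_self_eq_one hp1, Real.logb_mul] at h4
    · unfold dev
      have hpos : (0 : ℝ) < 2 * P * a := by positivity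
      apply mul_left_cancel₀ hpos.ne'
      push_cast at h4
      rw [mul_zero]
      linear_combination (-2 : ℝ) * h4
    · rw [Ne, norm_eq_zero, map_eq_zero, map_eq_zero]
      exact eig_ne_zero v
    · rw [Ne, norm_eq_zero, map_eq_zero, map_eq_zero]
      exact eig_ne_zero v'
  · intro v z hz
    exact ⟨conjE v, hGc v z hz⟩
  · intro z
    have h1 := hsym z
    simp only [m] at h1
    exact_mod_cast h1

end Run7.h8.IC
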