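import Pool.Agent.Run7.h8.IC.WDefs
import Pool.Agent.W527.StructDefs

/-!
# CM types of CM fields with isolated cycles of automorphisms: definitions

`excess`, `Proportional`, `ConstExcess` are the definitions of the starting files
(`Pool.Agent.W527.Short`).
-/

set_option autoImplicit false

namespace Run7.h8.IC.CMT

open NumberField Module Pool.Agent.W547.KB Run7.h8.IC.W
open Pool.Agent.W527.Short (Emb act excess Proportional Same)

variable {ι : Type}

/-- Every family of CM subfields `T i` of the fields `(A i).E`, `i ∈ S ≠ ∅`, has one of the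
properties. -/
def AllCyclic (A : ι → CMPair) : Prop :=
  ∀ (T : Subs fun i => (A i).E) (S : Finset ι), S.Nonempty → (∀ i ∈ S, IsCMSub (T i)) →
    Isolated T S ∨ FewPrimes T S 3 ∨ FewMoved T S 3 ∨
      ((FewPrimes T S 4 ∨ FewMoved T S 4) ∧
        Pool.Agent.W527.Short.ConstExcess (fun i => (A i).Φ) T S)

/-- Different embeddings `ψ`, `ψ'` of CM subfields (equal subfields if they lie in the same
`(A i).E`) have excess functions that are not proportional with a positive factor. -/
def Separated (A : ι → CMPair) : Prop :=
  Pool.Agent.W527.Short.Separated fun i => (A i).Φ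

/-- Different embeddings of a CM subfield have different excess functions. -/
def ExcessSeparates (A : CMPair) : Prop :=
  ∀ (T : IntermediateField ℚ A.E) (ψ ψ' : Emb T), IsCMSub T →
    (∀ τ : ℂ ≃+* ℂ, excess A.Φ T (act τ ψ) = excess A.Φ T (act τ ψ')) → ψ = ψ'

/-- The CM field of `A` has degree `2 r ^ k`, `r` a prime number, and some automorphism of the complex
numbers acts on its pairs of complex conjugate embeddings as one cycle. -/
def IsPrimePower (A : CMPair) : Prop :=
  (∃ r k : ℕ, r.Prime ∧ finrank ℚ A.E = 2 * r ^ k) ∧ OneOrbit A.E

end Run7.h8.IC.CMT
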