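import Pool.Agent.Run7.h8.IC.Dec
import Pool.Agent.Run7.h8.IC.WConv
import Pool.Agent.Run7.h8.IC.CMDefs
import Pool.Agent.W527.StructFinal
import Pool.Agent.TH170.CM.Family

/-!
# CM types of CM fields with isolated cycles
-/

set_option linter.unusedSectionVars false
set_option linter.unusedVariables false

namespace Run7.h8.IC.CMT

open NumberField Module Pool.Agent.H204R3.CM Pool.Agent.W547.KB Pool.Agent.W527
  Pool.Agent.W527.Struct Pool.Agent.W527.Dec Pool.Agent.H977R3.WN Run7.h8.IC Run7.h8.IC.Dec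
open Run7.h8.IC.W (Subs IsCMSub Isolated OneOrbit)

noncomputable section

variable {ι : Type} [Fintype ι] {A : ι → CMPair}

/-- The CM types. -/
abbrev Ty (A : ι → CMPair) : ∀ i, Set ((A i).E →+* ℂ) := fun i => (A i).Φ

section emb

variable {L : Type} [Field L] [NumberField L] [IsGalois ℚ L] (j : L →+* ℂ)
  (h : ∀ i, ∀ ψ : (A i).E →+* ℂ, ∃ φ : (A i).E →+* L, j.comp φ = ψ)

include h in
theorem mildC_of {κ : L ≃ₐ[ℚ] L} (hκ : ∀ x, starRingEnd ℂ (j x) = j (κ x))
    (hc : AllCyclic A) : MildC κ (wt (Ty A) j) := by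
  intro T S hS hT
  rcases hc T S hS (fun i hi => (nonReal_iff _).1 (hT i hi)) with h1 | h1 | h1 | ⟨h1, h2⟩
  · exact Or.inr (isoL_of j h T S hκ (W.isolated_of h1))
  · obtain ⟨i, hi, σ, hσ, hm⟩ := few_of_primes (L := L) j h T S h1
    exact Or.inl (Or.inl ⟨i, hi, σ, hσ, Or.inl hm⟩)
  · obtain ⟨i, hi, σ, hσ, hm⟩ := few_of_embeddings (L := L) j h T S (W.fewMoved_of h1)
    exact Or.inl (Or.inl ⟨i, hi, σ, hσ, Or.inl hm⟩)
  · have h3 : ∃ i ∈ S, ∃ σ : L ≃ₐ[ℚ] L, (∃ ψ : T i →+* L, σ • ψ ≠ ψ) ∧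
        moved (fun i => T i) S σ < 2 * 4 := by
      rcases h1 with h1 | h1
      · exact few_of_primes (L := L) j h T S h1
      · exact few_of_embeddings (L := L) j h T S (W.fewMoved_of h1)
    obtain ⟨i, hi, σ, hσ, hm⟩ := h3
    exact Or.inl (Or.inl ⟨i, hi, σ, hσ, Or.inr ⟨hm, const_iff j h T S h2⟩⟩)

include h in
theorem nondeg_of_cyclic (hc : AllCyclic A) (hs : Separated A) : Nondeg (Ty A) j := by
  rw [nondeg_iff_free]
  obtain ⟨κ, hκ⟩ := exists_lift j (starRingAut : ℂ ≃+* ℂ)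
  have hκ' : ∀ x, starRingEnd ℂ (j x) = j (κ x) := hκ
  have hκ'' : ∀ i, ∀ φ : (A i).E →+* L, κ • φ = cbar φ := by
    intro i φ
    apply Pool.Agent.W527.comp_injective j
    change j.comp (κ • φ) = j.comp (cbar φ)
    rw [comp_cbar]
    exact RingHom.ext fun x => (hκ' (φ x)).symm
  have hne : ∀ i, Nonempty ((A i).E →+* L) := by
    intro i
    obtain ⟨φ, _⟩ := h i (Classical.arbitrary _)
    exact ⟨φ⟩
  refine free_of_iso hκ'' hne (fun i φ => wt_odd j (fun i => (A i).isCMType) i φ) ?_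
    ((Pool.Agent.W527.separated_iff j h).1 (short_separated.1 hs))
  intro T S hS hT
  rcases mildC_of j h hκ' hc T S hS hT with (h1 | h1) | h1
  · exact Or.inl h1
  · exact Or.inr (Or.inl h1)
  · exact Or.inr (Or.inr h1)

end emb

/-- The structure theorem for the ring of Hodge classes. -/
theorem isHodge_iff_ring (hc : AllCyclic A) (hmix : NonMixing A) {J : Type} [Fintype J]
    (t : J → ι) {κ : Type} [Finite κ] (f : (productOf A t).H1 [⋀^κ]→ₗ[ℚ] ℚ) :
    IsHodge (productOf A t).per f ↔ HRing A (productOf A t) κ f := by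
  classical
  have := Fintype.ofFinite κ
  refine ⟨fun hf => ?_, fun hf => isHodge_of_ring hf⟩
  rcases isEmpty_or_nonempty ι with hι | hι
  · have hJ : IsEmpty J := ⟨fun a => hι.false (t a)⟩
    rcases isEmpty_or_nonempty κ with hκ | ⟨⟨k0⟩⟩
    · exact HRing.unit f
    · have h1 : f = 0 := by
        ext v
        have h2 : v k0 = 0 := by
          funext i
          exact (hJ.false i).elim
        rw [f.map_coord_zero k0 h2]
        rfl
      rw [h1]
      exact HRing.zero κ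
  obtain ⟨L, _, _, _, _, j, hj⟩ := exists_cm (⟨ι, A⟩ : CMAV)
  have hj' : ∀ i, ∀ ψ : (A i).E →+* ℂ, ∃ φ : (A i).E →+* L, j.comp φ = ψ := hj
  obtain ⟨κ', hκ⟩ := exists_lift j (starRingAut : ℂ ≃+* ℂ)
  have hκ' : ∀ x, starRingEnd ℂ (j x) = j (κ' x) := hκ
  have hκ'' : ∀ i, ∀ φ : (A i).E →+* L, κ' • φ = cbar φ := by
    intro i φ
    apply Pool.Agent.W527.comp_injective j
    change j.comp (κ' • φ) = j.comp (cbar φ)
    rw [comp_cbar]
    exact RingHom.ext fun x => (hκ' (φ x)).symm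
  have φ₀ : ∀ i, ((A i).E →+* L) := fun i => (hj' i (Classical.arbitrary _)).choose
  exact ring_of_blocks A hj' (fun K _ _ μ hμ => Run7.h8.IC.Dec.exists_block' (κ := κ') hκ'' φ₀
    (fun i φ => wt_odd j (fun i => (A i).isCMType) i φ) (mildC_of j hj' hκ' hc)
    (nonMix_of j hj' ((nonMixing_iff A).1 hmix)) μ hμ) t f hf

theorem isolated_of' {K : ι → Type} [∀ i, Field (K i)] [∀ i, NumberField (K i)]
    {T : ∀ i, IntermediateField ℚ (K i)} {S : Finset ι} (h : IsolatedCycle T S) :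
    Isolated (K := K) T S := by
  obtain ⟨τ, i, hi, ψ, n, hper, hn, hall⟩ := h
  refine ⟨τ, ⟨i, ψ⟩, n, hi, fun k => ?_, ?_, fun y hy => ?_⟩
  · rw [← hper k]
    exact W.mk_eq
  · rcases hn with hn | ⟨r, a, b, h1, h2, h3, h4⟩
    · exact Or.inl hn
    · exact Or.inr ⟨r, a, b, h1, h2, h3, W.mk_eq.2 h4⟩
  · obtain ⟨i', χ⟩ := y
    rcases hall i' hy χ with ⟨k, hk⟩ | ⟨m, hm, hm'⟩
    · left
      refine ⟨k, ?_⟩
      rcases hk with hk | hk
      · left
        obtain ⟨h1, h2⟩ := Sigma.mk.inj hk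
        change i' = i at h1
        subst h1
        exact W.mk_eq.2 (eq_of_heq h2)
      · right
        obtain ⟨h1, h2⟩ := Sigma.mk.inj hk
        change i' = i at h1
        subst h1
        exact W.mk_eq.2 (eq_of_heq h2)
    · exact Or.inr ⟨m, hm, W.mk_eq.2 hm'⟩

/-- One CM type. -/
theorem allCyclic_single {A : CMPair} (h : IsPrimePower A) : AllCyclic (fun _ : Unit => A) := by
  intro T S hS hT
  obtain ⟨⟨r, k, hr, hdeg⟩, ho⟩ := h
  exact Or.inl (isolated_of' (K := fun _ : Unit => A.E)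
    (isolated_of_oneOrbit (K := A.E) hr hdeg ho T S hS hT))

theorem nonMixing_single (A : CMPair) : NonMixing (fun _ : Unit => A) :=
  fun i i' _ _ _ _ hii => absurd rfl hii

theorem separated_single {A : CMPair} (h : ExcessSeparates A) : Separated (fun _ : Unit => A) := by
  refine short_separated.2 ((separated_iff_degenerate (E := fun _ : Unit => A.E)
    (Φ := fun _ => A.Φ) (fun _ => A.isCMType)
    ((nonMixing_iff (fun _ : Unit => A)).1 (nonMixing_single A))).2 ?_)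
  rintro i T ⟨hT, ψ, ψ', hne, hh⟩
  exact hne (h T ψ ψ' hT hh)

end

end Run7.h8.IC.CMT
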