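import Pool.Agent.Run7.h8.IC.Roots

/-!
# Relations between the translates of an odd function, and isolated cycles
-/

namespace Run7.h8.IC

open Finset

/-- Some element `τ` has, on the finite set `Y` with the involution `cb`, a cycle of length `n`
whose length divides the length of no other cycle, except for the conjugate of this cycle; and `n > 1`
is a power of a prime number, or the cycle is stable under conjugation and `n` is a power of `2`
multiplied by a power of an odd prime number. -/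
def IsoCycle {Y : Type*} (cb : Y → Y) (G : Type*) [Group G] [MulAction G Y] : Prop :=
  ∃ (τ : G) (y : Y) (n : ℕ), (∀ k : ℕ, τ ^ k • y = y ↔ n ∣ k) ∧
    ((∃ r k : ℕ, r.Prime ∧ n = r ^ (k + 1)) ∨
      ∃ r a b : ℕ, r.Prime ∧ r ≠ 2 ∧ n = 2 ^ (a + 1) * r ^ (b + 1) ∧ τ ^ (n / 2) • y = cb y) ∧
    ∀ z, (∃ k : ℕ, z = τ ^ k • y ∨ z = cb (τ ^ k • y)) ∨ ∃ m : ℕ, ¬ n ∣ m ∧ τ ^ m • z = z

section

variable {G Y : Type*} [Group G] [MulAction G Y] [Fintype Y] {cb : Y → Y}

/-- The Fourier coefficient of `W` along the cycle of `z` under `τ`. -/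
noncomputable def four (W : Y → ℚ) (ζ : ℂ) (N : ℕ) (τ g : G) (z : Y) : ℂ :=
  ∑ j ∈ range N, (ζ⁻¹) ^ j * (W (g • τ ^ j • z) : ℂ)

theorem four_smul {W : Y → ℚ} {ζ : ℂ} (hζ0 : ζ ≠ 0) {N : ℕ} (hζN : ζ ^ N = 1) {τ : G}
    (hτ : ∀ z : Y, τ ^ N • z = z) (g : G) (z : Y) :
    four W ζ N τ g (τ • z) = ζ * four W ζ N τ g z := by
  unfold four
  rw [Finset.mul_sum]
  have h1 := Finset.sum_range_succ' (fun j => ζ * ((ζ⁻¹) ^ j * (W (g • τ ^ j • z) : ℂ))) N
  have h2 := Finset.sum_range_succ (fun j => ζ * ((ζ⁻¹) ^ j * (W (g • τ ^ j • z) : ℂ))) N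
  have h3 : ζ * ((ζ⁻¹) ^ N * (W (g • τ ^ N • z) : ℂ)) =
      ζ * ((ζ⁻¹) ^ 0 * (W (g • τ ^ 0 • z) : ℂ)) := by
    rw [hτ, pow_zero, pow_zero, one_smul, inv_pow, hζN, inv_one]
  rw [h1, h3] at h2
  have h4 := add_right_cancel h2
  rw [← h4]
  refine Finset.sum_congr rfl fun j _ => ?_
  rw [← mul_smul (τ ^ j) τ z, ← pow_succ τ j, pow_succ' (ζ⁻¹) j]
  have h5 : ζ * ζ⁻¹ = 1 := mul_inv_cancel₀ hζ0
  linear_combination (-(ζ⁻¹ ^ j * (W (g • τ ^ (j + 1) • z) : ℂ))) * h5

theorem four_pow {W : Y → ℚ} {ζ : ℂ} (hζ0 : ζ ≠ 0) {N : ℕ} (hζN : ζ ^ N = 1) {τ : G}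
    (hτ : ∀ z : Y, τ ^ N • z = z) (g : G) (z : Y) (m : ℕ) :
    four W ζ N τ g (τ ^ m • z) = ζ ^ m * four W ζ N τ g z := by
  induction m with
  | zero => rw [pow_zero, one_smul, pow_zero, one_mul]
  | succ m ih => rw [pow_succ', mul_smul, four_smul hζ0 hζN hτ, ih, pow_succ']; ring

/-- Sum of a periodic function over several periods. -/
theorem sum_periods (f : ℕ → ℂ) (n : ℕ) (hf : ∀ k, f (k + n) = f k) (e : ℕ) :
    ∑ j ∈ range (n * e), f j = e * ∑ j ∈ range n, f j := by
  have hfm : ∀ e k, f (k + n * e) = f k := by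
    intro e
    induction e with
    | zero => intro k; rw [mul_zero, add_zero]
    | succ e ih => intro k; rw [Nat.mul_succ, ← add_assoc, hf, ih]
  induction e with
  | zero => simp
  | succ e ih =>
    rw [Nat.mul_succ, Finset.sum_range_add, ih]
    have h1 : ∑ x ∈ range n, f (n * e + x) = ∑ j ∈ range n, f j :=
      Finset.sum_congr rfl fun x _ => by rw [add_comm, hfm]
    rw [h1]
    push_cast
    ring

variable (hcb : ∀ y, cb (cb y) = y)
  (hG : ∀ (g : G) (y : Y), g • cb y = cb (g • y)) {W : Y → ℚ} (hW : ∀ y, W (cb y) = -W y)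

include hcb hG hW in
/-- The dichotomy: if there is an isolated cycle, then some element moves a point `y` to another
point which is not distinguished from `y` by all the relations, or not by the translates of `W`. -/
theorem dichotomy (hiso : IsoCycle cb G) : ∃ (σ : G) (y : Y), σ • y ≠ y ∧
    ((∀ g : G, W (g • σ • y) = W (g • y)) ∨
      ∀ c : Y → ℤ, (∀ y, c (cb y) = -c y) → (∀ g : G, ∑ y, (c y : ℚ) * W (g • y) = 0) →
        ∀ g : G, c (g • σ • y) = c (g • y)) := by
  classical
  obtain ⟨τ, y₀, n, hper, hn, hall⟩ := hiso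
  have hn1 : 1 < n := by
    rcases hn with ⟨r, k, hr, rfl⟩ | ⟨r, a, b, hr, _, rfl, _⟩
    · exact Nat.one_lt_pow (Nat.succ_ne_zero k) hr.one_lt
    · have h1 : 1 < 2 ^ (a + 1) := Nat.one_lt_pow (Nat.succ_ne_zero a) (by norm_num)
      have h2 : 1 ≤ r ^ (b + 1) := Nat.one_le_pow _ _ hr.pos
      nlinarith
  have hn0 : 0 < n := by omega
  -- a common period
  obtain ⟨N, hN0, hN⟩ : ∃ N : ℕ, 0 < N ∧ ∀ z : Y, τ ^ N • z = z := by
    obtain ⟨N, hN0, hN⟩ := isOfFinOrder_iff_pow_eq_one.1
      (isOfFinOrder_of_finite (MulAction.toPermHom G Y τ))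
    refine ⟨N, hN0, fun z => ?_⟩
    rw [← map_pow] at hN
    exact DFunLike.congr_fun hN z
  obtain ⟨e, rfl⟩ : n ∣ N := (hper N).1 (hN y₀)
  have he : e ≠ 0 := by
    rintro rfl
    simp at hN0
  -- a primitive root of unity
  have hζ := Complex.isPrimitiveRoot_exp n (by omega)
  set ζ := Complex.exp (2 * Real.pi * Complex.I / n) with hζdef
  have hζn : ζ ^ n = 1 := hζ.pow_eq_one
  have hζ0 : ζ ≠ 0 := hζ.ne_zero (by omega)
  have hζN : ζ ^ (n * e) = 1 := by rw [pow_mul, hζn, one_pow]
  -- the points of the cycle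
  let P : ℕ → Y := fun k => τ ^ k • y₀
  have hPadd : ∀ k l, P (k + l) = τ ^ l • P k := by
    intro k l
    simp only [P]
    rw [← mul_smul, ← pow_add, add_comm]
  have hPn : ∀ k, P (k + n) = P k := by
    intro k
    rw [add_comm, hPadd n k]
    simp only [P]
    rw [(hper n).2 dvd_rfl]
  have hPmul : ∀ l k, P (k + n * l) = P k := by
    intro l
    induction l with
    | zero => intro k; rw [mul_zero, add_zero]
    | succ l ih => intro k; rw [Nat.mul_succ, ← add_assoc, hPn, ih]
  have hPmod : ∀ k, P k = P (k % n) := by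
    intro k
    conv_lhs => rw [← Nat.mod_add_div k n]
    rw [hPmul]
  have hPinj' : ∀ k l, k < n → l < n → P k = P l → k = l := by
    have aux : ∀ k l, k ≤ l → k < n → l < n → P k = P l → k = l := by
      intro k l hkl hk hl h
      have h1 : P (l - k) = y₀ := by
        have h2 := hPadd (l - k) k
        rw [Nat.sub_add_cancel hkl, ← h] at h2
        simp only [P] at h2 ⊢
        exact (smul_left_cancel _ h2).symm
      have h2 := (hper _).1 h1
      by_contra hne
      have h3 := Nat.le_of_dvd (by omega) h2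
      omega
    intro k l hk hl h
    rcases le_total k l with h1 | h1
    · exact aux k l h1 hk hl h
    · exact (aux l k h1 hl hk h.symm).symm
  have hPcb : ∀ k l, cb (P k) = P l → ∀ m, ∃ m', cb (P m) = P m' := by
    intro k l h m
    have hPow : ∀ (i : ℕ) (z : Y), τ ^ i • cb z = cb (τ ^ i • z) := fun i z => hG _ _
    have h1 : cb (P (k + (n * k - k + m))) = P (l + (n * k - k + m)) := by
      rw [hPadd, hPadd, ← hPow, h]
    have h2 : k + (n * k - k + m) = m + n * k := by
      have := Nat.le_mul_of_pos_left k hn0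
      omega
    rw [h2, hPmul] at h1
    exact ⟨_, h1⟩
  -- the product of the two Fourier coefficients vanishes
  have hprod : ∀ c : Y → ℤ, (∀ y, c (cb y) = -c y) →
      (∀ g : G, ∑ y, (c y : ℚ) * W (g • y) = 0) → ∀ h g : G,
      (∑ i ∈ range n, (c (h • P i) : ℂ) * ζ ^ i) * four W ζ (n * e) τ g y₀ = 0 := by
    intro c hc hrel h g
    have htr : ∀ k g : G, ∑ y, (c (k • y) : ℚ) * W (g • y) = 0 := by
      intro k g
      rw [← hrel (g * k⁻¹)]
      refine Fintype.sum_equiv (MulAction.toPerm k) _ _ fun y => ?_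
      rw [MulAction.toPerm_apply, ← mul_smul, inv_mul_cancel_right]
    have h1 : ∑ z, (c (h • z) : ℂ) * four W ζ (n * e) τ g z = 0 := by
      have h2 : ∀ z : Y, (c (h • z) : ℂ) * four W ζ (n * e) τ g z =
          ∑ j ∈ range (n * e), (ζ⁻¹) ^ j * ((c (h • z) : ℂ) * (W ((g * τ ^ j) • z) : ℂ)) := by
        intro z
        unfold four
        rw [Finset.mul_sum]
        refine Finset.sum_congr rfl fun j _ => ?_
        rw [mul_smul]
        ring
      rw [Finset.sum_congr rfl (fun z _ => h2 z), Finset.sum_comm]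
      refine Finset.sum_eq_zero fun j _ => ?_
      rw [← Finset.mul_sum]
      have h3 := congrArg (fun q : ℚ => (q : ℂ)) (htr h (g * τ ^ j))
      simp only [Rat.cast_sum, Rat.cast_mul, Rat.cast_intCast, Rat.cast_zero] at h3
      rw [h3, mul_zero]
    let f : Y → ℂ := fun z => (c (h • z) : ℂ) * four W ζ (n * e) τ g z
    have hfcb : ∀ z, f (cb z) = f z := by
      intro z
      simp only [f]
      have h2 : four W ζ (n * e) τ g (cb z) = - four W ζ (n * e) τ g z := by
        unfold four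
        rw [← Finset.sum_neg_distrib]
        refine Finset.sum_congr rfl fun j _ => ?_
        rw [hG, hG, hW]
        push_cast
        ring
      rw [h2, hG, hc]
      push_cast
      ring
    have hf0 : ∀ z, (¬ ∃ k : ℕ, z = P k ∨ z = cb (P k)) → f z = 0 := by
      intro z hz
      rcases hall z with h2 | ⟨m, hm, hmz⟩
      · exact absurd h2 hz
      · have h3 := four_pow (W := W) hζ0 hζN hN g z m
        rw [hmz] at h3
        have h4 : ζ ^ m ≠ 1 := fun h4 => hm (hζ.dvd_of_pow_eq_one _ h4)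
        have h5 : (ζ ^ m - 1) * four W ζ (n * e) τ g z = 0 := by
          rw [sub_mul, one_mul, ← h3, sub_self]
        simp only [f]
        rw [(mul_eq_zero.1 h5).resolve_left (sub_ne_zero.2 h4), mul_zero]
    let S : Finset Y := (range n).image P
    have hSmem : ∀ k, P k ∈ S := by
      intro k
      rw [hPmod]
      exact Finset.mem_image_of_mem _ (Finset.mem_range.2 (Nat.mod_lt _ hn0))
    have hsumS : ∑ z ∈ S, f z = ∑ i ∈ range n, f (P i) := by
      rw [Finset.sum_image]
      intro k hk l hl h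
      exact hPinj' k l (Finset.mem_range.1 hk) (Finset.mem_range.1 hl) h
    have hS0 : ∑ z ∈ S, f z = 0 := by
      by_cases hself : ∃ k l, cb (P k) = P l
      · obtain ⟨k, l, hkl⟩ := hself
        have h2 : ∑ z ∈ S, f z = ∑ z, f z := by
          refine Finset.sum_subset (Finset.subset_univ _) fun z _ hz => hf0 z ?_
          rintro ⟨m, rfl | rfl⟩
          · exact hz (hSmem m)
          · obtain ⟨m', hm'⟩ := hPcb k l hkl m
            rw [hm'] at hz
            exact hz (hSmem m')
        rw [h2]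
        exact h1
      · push Not at hself
        let S' : Finset Y := S.image cb
        have hdis : Disjoint S S' := by
          rw [Finset.disjoint_left]
          intro z hz hz'
          obtain ⟨k, _, rfl⟩ := Finset.mem_image.1 hz
          obtain ⟨y, hy, hy'⟩ := Finset.mem_image.1 hz'
          obtain ⟨l, _, rfl⟩ := Finset.mem_image.1 hy
          exact hself l k hy'
        have h2 : ∑ z ∈ S ∪ S', f z = ∑ z, f z := by
          refine Finset.sum_subset (Finset.subset_univ _) fun z _ hz => hf0 z ?_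
          rintro ⟨m, rfl | rfl⟩
          · exact hz (Finset.mem_union_left _ (hSmem m))
          · exact hz (Finset.mem_union_right _ (Finset.mem_image_of_mem _ (hSmem m)))
        have h3 : ∑ z ∈ S', f z = ∑ z ∈ S, f z := by
          rw [Finset.sum_image (fun a _ b _ hab => by
            have h4 := congrArg cb hab
            simpa only [hcb] using h4)]
          exact Finset.sum_congr rfl fun z _ => hfcb z
        rw [Finset.sum_union hdis, h3] at h2
        have h4 : (2 : ℂ) * ∑ z ∈ S, f z = 0 := by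
          rw [two_mul, h2]
          exact h1
        exact (mul_eq_zero.1 h4).resolve_left two_ne_zero
    rw [hsumS] at hS0
    rw [Finset.sum_mul, ← hS0]
    refine Finset.sum_congr rfl fun i _ => ?_
    simp only [f, P]
    rw [four_pow hζ0 hζN hN]
    ring
  -- the shift
  obtain ⟨s, hs0, hsn, hshift⟩ : ∃ s : ℕ, 0 < s ∧ s < n ∧ ∀ (ξ : ℂ), IsPrimitiveRoot ξ n →
      ∀ β : Y → ℤ, (∀ y, β (cb y) = - β y) → ∑ i ∈ range n, (β (P i) : ℂ) * ξ ^ i = 0 →
        β (P 0) = β (P s) := by
    rcases hn with ⟨r, k, hr, rfl⟩ | ⟨r, a, b, hr, hr2, rfl, hself⟩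
    · refine ⟨r ^ k, pow_pos hr.pos _, Nat.pow_lt_pow_right hr.one_lt (Nat.lt_succ_self k), ?_⟩
      intro ξ hξ β _ hsum
      exact periodic_of_pow hr hξ (fun i => β (P i)) hsum
    · have hhalf : 2 ^ (a + 1) * r ^ (b + 1) / 2 = 2 ^ a * r ^ (b + 1) := by
        rw [pow_succ, mul_assoc, mul_comm 2, ← mul_assoc, Nat.mul_div_cancel _ two_pos]
      rw [hhalf] at hself
      refine ⟨2 ^ (a + 1) * r ^ b, mul_pos (pow_pos two_pos _) (pow_pos hr.pos _),
        Nat.mul_lt_mul_of_pos_left (Nat.pow_lt_pow_right hr.one_lt (Nat.lt_succ_self b))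
          (pow_pos two_pos _), ?_⟩
      intro ξ hξ β hβ hsum
      refine periodic_of_odd hr hr2 hξ (fun i => β (P i)) (fun i => ?_) hsum
      have h1 : P (i + 2 ^ a * r ^ (b + 1)) = cb (P i) := by
        rw [add_comm, hPadd]
        have h2 : P (2 ^ a * r ^ (b + 1)) = cb y₀ := hself
        rw [h2, hG]
      simp only [h1, hβ]
  have hP0 : P 0 = y₀ := by simp only [P, pow_zero, one_smul]
  have hPs : P s = τ ^ s • y₀ := rfl
  refine ⟨τ ^ s, y₀, fun h => ?_, ?_⟩
  · have h1 := Nat.le_of_dvd hs0 ((hper s).1 h)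
    omega
  by_cases hcase : ∀ g : G, four W ζ (n * e) τ g y₀ = 0
  · left
    -- clear denominators
    obtain ⟨D, hD0, w, hw⟩ : ∃ (D : ℕ), D ≠ 0 ∧ ∃ w : Y → ℤ, ∀ y, (w y : ℚ) = D * W y := by
      refine ⟨∏ y, (W y).den, Finset.prod_ne_zero_iff.2 fun y _ => (W y).den_nz,
        fun y => (∏ z ∈ univ.erase y, ((W z).den : ℤ)) * (W y).num, fun y => ?_⟩
      rw [← Finset.mul_prod_erase univ (fun y => (W y).den) (mem_univ y)]
      push_cast
      have h1 : ((W y).den : ℚ) ≠ 0 := by exact_mod_cast (W y).den_nz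
      have h2 : W y = (W y).num / (W y).den := (Rat.num_div_den _).symm
      have h3 : ((W y).den : ℚ) * W y = (W y).num := by
        rw [mul_comm]
        exact Rat.mul_den_eq_num (W y)
      calc (∏ z ∈ univ.erase y, ((W z).den : ℚ)) * ((W y).num : ℚ)
          = (∏ z ∈ univ.erase y, ((W z).den : ℚ)) * (((W y).den : ℚ) * W y) := by rw [h3]
        _ = _ := by ring
    have hDq : (D : ℚ) ≠ 0 := by exact_mod_cast hD0
    have hwcb : ∀ y, w (cb y) = - w y := by
      intro y
      have h1 : (w (cb y) : ℚ) = -(w y : ℚ) := by rw [hw, hw, hW]; ring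
      exact_mod_cast h1
    intro g
    have h1 := hcase g
    have h2 : ∑ i ∈ range n, (w (g • P i) : ℂ) * (ζ⁻¹) ^ i = 0 := by
      unfold four at h1
      rw [sum_periods (fun j => (ζ⁻¹) ^ j * (W (g • τ ^ j • y₀) : ℂ)) n (fun k => by
        have h3 : τ ^ (k + n) • y₀ = τ ^ k • y₀ := hPn k
        rw [h3, pow_add, inv_pow ζ n, hζn, inv_one, mul_one]) e] at h1
      have h4 := (mul_eq_zero.1 h1).resolve_left (by exact_mod_cast he)
      have h5 : ∑ i ∈ range n, (w (g • P i) : ℂ) * (ζ⁻¹) ^ i =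
          D * ∑ j ∈ range n, (ζ⁻¹) ^ j * (W (g • τ ^ j • y₀) : ℂ) := by
        rw [Finset.mul_sum]
        refine Finset.sum_congr rfl fun i _ => ?_
        have h6 := congrArg (fun q : ℚ => (q : ℂ)) (hw (g • P i))
        simp only [Rat.cast_intCast, Rat.cast_mul, Rat.cast_natCast] at h6
        rw [h6]
        simp only [P]
        ring
      rw [h5, h4, mul_zero]
    have h3 := hshift ζ⁻¹ hζ.inv (fun y => w (g • y)) (fun y => by rw [hG, hwcb]) h2
    simp only [hP0, hPs] at h3
    have h4 : (w (g • y₀) : ℚ) = (w (g • τ ^ s • y₀) : ℚ) := by exact_mod_cast h3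
    rw [hw, hw] at h4
    exact (mul_left_cancel₀ hDq h4).symm
  · right
    push Not at hcase
    obtain ⟨g₁, hg₁⟩ := hcase
    intro c hc hrel g
    have h1 := (mul_eq_zero.1 (hprod c hc hrel g g₁)).resolve_right hg₁
    have h3 := hshift ζ hζ (fun y => c (g • y)) (fun y => by rw [hG, hc]) h1
    simp only [hP0, hPs] at h3
    exact h3.symm

end

end Run7.h8.IC
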