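import Pool.Agent.W527.NormDefs

/-!
# Norms of Weil numbers to CM subfields, and isolated cycles of automorphisms: compact definitions
-/

set_option autoImplicit false

namespace Run7.h8.IC.Fam

open NumberField Module Pool.Agent.W527.Norm

noncomputable section

section one

variable {K : Type} [Field K] [NumberField K]

/-- The complex embeddings of the subfield `T`. -/
def CEmb (T : IntermediateField ℚ K) : Type := T →+* ℂ

/-- The embedding `ψ` followed by the automorphism `τ` of the complex numbers. -/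
def CEmb.move {T : IntermediateField ℚ K} (ψ : CEmb T) (τ : ℂ ≃+* ℂ) : CEmb T :=
  (τ : ℂ →+* ℂ).comp (show T →+* ℂ from ψ)

/-- The complex conjugate embedding. -/
def CEmb.conj {T : IntermediateField ℚ K} (ψ : CEmb T) : CEmb T :=
  ComplexEmbedding.conjugate (show T →+* ℂ from ψ)

/-- The image under the embedding `ψ` of `T` of the normalised norm `N(π) ^ 2 / p ^ (a [K : T])`
(`unitNorm`). -/
def CEmb.norm {T : IntermediateField ℚ K} (ψ : CEmb T) (p a : ℕ) (π : K) : ℂ :=
  (show T →+* ℂ from ψ) (unitNorm p a T π)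

/-- The subfield `T` is not totally real. -/
def IsCMSub (T : IntermediateField ℚ K) : Prop := ¬ IsTotallyReal T

/-- The discriminant of the subfield `T`. -/
def disc (T : IntermediateField ℚ K) : ℤ := discr T

/-- The slopes of the norm of `π` to `T` have the same distance from the middle slope. -/
def OneDistance (p : ℕ) [Fact p.Prime] (a : ℕ) (π : K) (T : IntermediateField ℚ K) : Prop :=
  ∀ ψ ψ' : T →+* PadicAlgCl p, |Real.log ‖ψ (unitNorm p a T π)‖| =
    |Real.log ‖ψ' (unitNorm p a T π)‖|

end one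

section family

variable {I : Type} {K : I → Type} [∀ i, Field (K i)] [∀ i, NumberField (K i)]

/-- A family of subfields `T i` of the fields `K i`. -/
def Subs (K : I → Type) [∀ i, Field (K i)] [∀ i, NumberField (K i)] : Type :=
  ∀ i, IntermediateField ℚ (K i)

/-- A complex embedding of one of the fields `T i`. -/
structure FEmb (T : Subs K) where
  /-- the index of the field -/
  i : I
  /-- the embedding -/
  ψ : CEmb (T i)

/-- The embedding followed by an automorphism of the complex numbers. -/
def FEmb.move {T : Subs K} (x : FEmb T) (τ : ℂ ≃+* ℂ) : FEmb T := ⟨x.i, x.ψ.move τ⟩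

/-- The complex conjugate embedding. -/
def FEmb.conj {T : Subs K} (x : FEmb T) : FEmb T := ⟨x.i, x.ψ.conj⟩

/-- The normalised norm of `π i` to `T i` under the embedding. -/
def FEmb.norm {T : Subs K} (x : FEmb T) (p a : ℕ) (π : ∀ i, K i) : ℂ := x.ψ.norm p a (π x.i)

/-- Some automorphism `τ` of the complex numbers has an isolated cycle on the complex embeddings of
the fields `T i`, `i ∈ S`: there is an embedding `x` whose cycle under `τ` has exactly `n > 1`
elements, where

* `n` is a power of a prime number, or `n` is a power of `2` (not `1`) multiplied by a power of an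
  odd prime number, and `τ ^ (n / 2)` maps `x` to its complex conjugate;
* the length of the cycle of every embedding `y` of a `T i'`, `i' ∈ S`, is not divisible by `n` (some
  power `τ ^ m`, `m` not divisible by `n`, fixes `y`), unless `y` or its complex conjugate lies in the
  cycle of `x`. -/
def Isolated (T : Subs K) (S : Finset I) : Prop :=
  ∃ (τ : ℂ ≃+* ℂ) (x : FEmb T) (n : ℕ), x.i ∈ S ∧ (∀ k : ℕ, x.move (τ ^ k) = x ↔ n ∣ k) ∧
    ((∃ r k : ℕ, r.Prime ∧ n = r ^ (k + 1)) ∨
      ∃ r a b : ℕ, r.Prime ∧ r ≠ 2 ∧ n = 2 ^ (a + 1) * r ^ (b + 1) ∧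
        x.move (τ ^ (n / 2)) = x.conj) ∧
    ∀ y : FEmb T, y.i ∈ S → (∃ k : ℕ, y = x.move (τ ^ k) ∨ y.conj = x.move (τ ^ k)) ∨
      ∃ m : ℕ, ¬ n ∣ m ∧ y.move (τ ^ m) = y

/-- Some prime number divides the discriminant of one of the fields `T i`, `i ∈ S`, but its `k`-th
power does not divide the product of the discriminants. -/
def FewPrimes (T : Subs K) (S : Finset I) (k : ℕ) : Prop :=
  ∃ i ∈ S, ∃ ℓ : ℕ, ℓ.Prime ∧ (ℓ : ℤ) ∣ disc (T i) ∧ ¬ (ℓ : ℤ) ^ k ∣ ∏ i' ∈ S, disc (T i')

/-- Some automorphism of the complex numbers moves at least one and less than `2 k` of the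
embeddings of the fields `T i`, `i ∈ S`. -/
def FewMoved (T : Subs K) (S : Finset I) (k : ℕ) : Prop :=
  ∃ τ : ℂ ≃+* ℂ, (∃ x : FEmb T, x.i ∈ S ∧ x.move τ ≠ x) ∧
    Nat.card {x : FEmb T // x.i ∈ S ∧ x.move τ ≠ x} < 2 * k

/-- Every family of CM subfields `T i` of the `K i`, `i ∈ S ≠ ∅`, has one of the properties. -/
def AllCyclic (p : ℕ) [Fact p.Prime] (a : ℕ) (π : ∀ i, K i) : Prop :=
  ∀ (T : Subs K) (S : Finset I), S.Nonempty → (∀ i ∈ S, IsCMSub (T i)) →
    Isolated T S ∨ FewPrimes T S 3 ∨ FewMoved T S 3 ∨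
      ((FewPrimes T S 4 ∨ FewMoved T S 4) ∧ ∀ i ∈ S, OneDistance p a (π i) (T i))

/-- Different embeddings of CM subfields `T i`, `T i'` (equal subfields if `i = i'`) never map
positive powers of the normalised norms to the same complex number. -/
def NormsSeparated (p a : ℕ) (π : ∀ i, K i) : Prop :=
  ∀ (T : Subs K) (x y : FEmb T) (b c : ℕ), IsCMSub (T x.i) → IsCMSub (T y.i) → 0 < b → 0 < c →
    x.norm p a π ^ b = y.norm p a π ^ c → x = y

end family

end

end Run7.h8.IC.Fam
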