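import Pool.Agent.Run7.h8.IC.Follow
import Pool.Agent.Run7.h8.IC.FamDefs

/-!
# Weil numbers in CM fields with isolated cycles: the statements, in compact form
-/

set_option linter.unusedVariables false

namespace Run7.h8.IC.Fam

open NumberField Module Pool.Agent.W527.Norm Pool.Agent.W527.Short

section conv

variable {I : Type} {K : I → Type} [∀ i, Field (K i)] [∀ i, NumberField (K i)]

theorem same_of_eq {T : ∀ i, IntermediateField ℚ (K i)} {i i' : I} {ψ : Emb (T i)}
    {ψ' : Emb (T i')} (h : (⟨i, ψ⟩ : FEmb (K := K) T) = ⟨i', ψ'⟩) :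
    Same (X := fun i => Emb (T i)) ψ ψ' := by
  obtain ⟨rfl, h⟩ := FEmb.mk.inj h
  obtain rfl := eq_of_heq h
  rfl

theorem mk_eq {T : ∀ i, IntermediateField ℚ (K i)} {i : I} {ψ ψ' : Emb (T i)} :
    (⟨i, ψ⟩ : FEmb (K := K) T) = ⟨i, ψ'⟩ ↔ ψ = ψ' := by
  constructor
  · intro h
    exact eq_of_heq (FEmb.mk.inj h).2
  · rintro rfl
    rfl

theorem isolated_of {T : ∀ i, IntermediateField ℚ (K i)} {S : Finset I}
    (h : Isolated (K := K) T S) : IsolatedCycle T S := by
  obtain ⟨τ, ⟨i, ψ⟩, n, hi, hper, hn, hall⟩ := h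
  refine ⟨τ, i, hi, ψ, n, fun k => ?_, ?_, fun i' hi' χ => ?_⟩
  · rw [← hper k]
    exact mk_eq.symm
  · rcases hn with hn | ⟨r, a, b, h1, h2, h3, h4⟩
    · exact Or.inl hn
    · exact Or.inr ⟨r, a, b, h1, h2, h3, mk_eq.1 h4⟩
  · rcases hall ⟨i', χ⟩ hi' with ⟨k, hk⟩ | ⟨m, hm, hm'⟩
    · left
      refine ⟨k, ?_⟩
      rcases hk with hk | hk
      · exact Or.inl (same_of_eq hk)
      · exact Or.inr (same_of_eq hk)
    · exact Or.inr ⟨m, hm, mk_eq.1 hm'⟩

theorem fewMoved_of {T : ∀ i, IntermediateField ℚ (K i)} {S : Finset I} {k : ℕ}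
    (h : FewMoved (K := K) T S k) : Pool.Agent.W527.Norm.FewEmbeddings T S k := by
  classical
  obtain ⟨τ, ⟨⟨i, ψ⟩, hi, hψ⟩, hcard⟩ := h
  refine ⟨τ, ⟨i, hi, ψ, fun h => hψ (mk_eq.2 h)⟩, lt_of_le_of_lt (le_of_eq ?_) hcard⟩
  have hmv : ∀ i, moved τ (T i) = Nat.card {ψ : Emb (T i) // act τ ψ ≠ ψ} := fun i => rfl
  have h1 : ∑ i ∈ S, moved τ (T i) =
      Nat.card (Σ i : S, {ψ : Emb (T i) // act τ ψ ≠ ψ}) := by
    rw [Nat.card_sigma, ← Finset.sum_coe_sort]
    exact Finset.sum_congr rfl fun i _ => hmv i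
  rw [h1]
  refine Nat.card_congr
    { toFun := fun y => ⟨⟨y.1.1, y.2.1⟩, y.1.2, fun h => y.2.2 (mk_eq.1 h)⟩
      invFun := fun y => ⟨⟨y.1.i, y.2.1⟩, ⟨y.1.ψ, fun h => y.2.2 (mk_eq.2 h)⟩⟩
      left_inv := fun y => rfl
      right_inv := fun y => rfl }

theorem cyclic_of_allCyclic {p : ℕ} [Fact p.Prime] {a : ℕ} {π : ∀ i, K i}
    (h : AllCyclic p a π) : Cyclic p (fun _ => a) π := by
  intro T S hS hT
  rcases h T S hS hT with h1 | h1 | h1 | ⟨h1, h2⟩
  · exact Or.inl (isolated_of h1)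
  · exact Or.inr (Or.inl h1)
  · exact Or.inr (Or.inr (Or.inl (fewMoved_of h1)))
  · refine Or.inr (Or.inr (Or.inr ⟨?_, h2⟩))
    rcases h1 with h1 | h1
    · exact Or.inl h1
    · exact Or.inr (fewMoved_of h1)

theorem separated_of_normsSeparated {p a : ℕ} {π : ∀ i, K i} (h : NormsSeparated p a π) :
    Separated p (fun _ => a) π := by
  intro T i i' ψ ψ' b c hT hT' hb hc heq
  exact same_of_eq (h T ⟨i, ψ⟩ ⟨i', ψ'⟩ b c hT hT' hb hc heq)

end conv

/-- The property `P p a I K π` holds for all families of Weil numbers `π i` for `p ^ a` in CM fields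
`K i` such that the norms to CM subfields are separated and every family of CM subfields has an
isolated cycle (or some other property: `AllCyclic`). -/
def ForCyclic (P : ∀ (p : ℕ) (_ : Fact p.Prime) (_ : ℕ) (I : Type) (_ : Fintype I)
    (K : I → Type) (_ : ∀ i, Field (K i)) (_ : ∀ i, NumberField (K i))
    (_ : ∀ i, IsCMField (K i)), (∀ i, K i) → Prop) : Prop :=
  ∀ (p : ℕ) (hp : Fact p.Prime) (a : ℕ) (I : Type) (hI : Fintype I) (K : I → Type)
    (hF : ∀ i, Field (K i)) (hN : ∀ i, NumberField (K i)) (hC : ∀ i, IsCMField (K i))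
    (π : ∀ i, K i), 0 < a → (∀ i, IsIntegral ℤ (π i)) →
    (∀ i, π i * IsCMField.complexConj (K i) (π i) = (p : K i) ^ a) →
    AllCyclic p a π → NormsSeparated p a π → P p hp a I hI K hF hN hC π

/-- The property holds for every Weil number `π` for `p ^ a` in a CM field `K` of degree `2 r ^ k`, `r`
a prime number, such that some automorphism of the complex numbers acts on the pairs of complex
conjugate embeddings of `K` as one cycle (`OneOrbit`), if all positive powers of the normalised norms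
of `π` to CM subfields generate these subfields (`NormsGenerate`). -/
def ForPrimePower (P : ∀ (p : ℕ) (_ : Fact p.Prime) (_ : ℕ) (I : Type) (_ : Fintype I)
    (K : I → Type) (_ : ∀ i, Field (K i)) (_ : ∀ i, NumberField (K i))
    (_ : ∀ i, IsCMField (K i)), (∀ i, K i) → Prop) : Prop :=
  ∀ (p : ℕ) (hp : Fact p.Prime) (a : ℕ) (K : Type) (hF : Field K) (hN : NumberField K)
    (hC : IsCMField K) (π : K) (r k : ℕ), 0 < a → IsIntegral ℤ π →
    π * IsCMField.complexConj K π = (p : K) ^ a → r.Prime → finrank ℚ K = 2 * r ^ k →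
    OneOrbit K → NormsGenerate p a π →
      P p hp a Unit PUnit.fintype (fun _ => K) (fun _ => hF) (fun _ => hN) (fun _ => hC)
        (fun _ => π)

/-- A property that follows from the maximality of the angle rank holds in both cases. -/
theorem both (P : WeilProperty) (h : FollowsFromAngle P) :
    ForCyclic (fun p _ a I _ K _ _ _ π => P p a I K π) ∧
      ForPrimePower (fun p _ a I _ K _ _ _ π => P p a I K π) :=
  ⟨fun p _ a I _ K _ _ _ π ha hint hw hc hs => holdsForCyclic h p a I K π ha hint hw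
      (cyclic_of_allCyclic hc) (separated_of_normsSeparated hs),
    fun p _ a K _ _ _ π r k => primePower_of_cyclic (holdsForCyclic h) p a K π r k⟩

end Run7.h8.IC.Fam
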