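import Pool.Agent.Run7.h479.SO.TBDefs
import Pool.Agent.Run7.h312.TS.LimDefs

/-!
# Motivic t-structures on the categories generated by abelian varieties over finite fields with given
Frobenius elements

`IsAbelianPowersOf` is the class of helper479 (Run7/h479/SO), `ExistsFor` the statement of helper312
(Run7/h312/TS).
-/

set_option autoImplicit false

namespace Run7.h8.IC

open NumberField Pool.Agent.W495.TA Pool.Agent.W495.FM Pool.Agent.Run7.h479.SO
  Pool.Agent.Run7.h312.TS

/-- Motivic t-structures exist on the categories of motives over algebraic extensions of finite
fields of characteristic `p` that are generated by the abelian varieties in the class `PowersOf π`,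
and all morphisms of these categories are von Neumann regular. -/
def TStructuresFor (p : ℕ) [Fact p.Prime] {I : Type} (K : I → Type) [∀ i, Field (K i)]
    (π : ∀ i, K i) : Prop :=
  ∀ ν : PadicAlgCl p ≃+* ℂ, ExistsFor fun _ _ _ _ T X => IsAbelianPowersOf ν π T X

end Run7.h8.IC
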