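import Pool.Agent.Run7.h8.IC.Red
import Pool.Agent.Run7.h8.IC.MotDefs
import Pool.Agent.Run7.h312.TS.Final

/-!
# Motivic t-structures on the categories generated by abelian varieties over finite fields with given
Frobenius elements

The construction of the t-structures is that of helper312 (Run7/h312/TS).
-/

set_option autoImplicit false

namespace Run7.h8.IC

open NumberField Pool.Agent.W495.TA Pool.Agent.W495.FM Pool.Agent.Run7.h479.SO
  Pool.Agent.Run7.h312.TS Pool.Agent.Y137.MV

theorem tStructuresFor : FollowsFromAngle
    (fun p _ _ _ _ K _ _ _ π => TStructuresFor p K π) := by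
  intro p _ a I _ K _ _ _ π ha hgen hw hang ν
  apply existsFor_of
  intro Ω _ _ _ V T hT X hX
  exact tb_of_angle ha hw hang hT (Generated.base X hX)

end Run7.h8.IC
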