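import Pool.Agent.Run7.h8.IC.Single

/-!
# Weil numbers in CM fields with isolated cycles: the statements
-/

set_option linter.unusedVariables false

namespace Run7.h8.IC

open NumberField Module Pool.Agent.W527.Norm

/-- A property `P p a I K π` of Weil numbers `π i` for `p ^ a` in CM fields `K i`. -/
abbrev WeilProperty : Type 1 := ∀ (p : ℕ) [Fact p.Prime] (_ : ℕ) (I : Type) [Fintype I]
  (K : I → Type) [∀ i, Field (K i)] [∀ i, NumberField (K i)] [∀ i, IsCMField (K i)],
    (∀ i, K i) → Prop

/-- The property holds for all families of Weil numbers `π i` for `p ^ a` in CM fields `K i` such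
that the norms to CM subfields are separated and every family of CM subfields has an isolated cycle
(or some other property: `Cyclic`). -/
def HoldsForCyclic (P : WeilProperty) : Prop :=
  ∀ (p : ℕ) [Fact p.Prime] (a : ℕ) (I : Type) [Fintype I] (K : I → Type) [∀ i, Field (K i)]
    [∀ i, NumberField (K i)] [∀ i, IsCMField (K i)] (π : ∀ i, K i), 0 < a →
    (∀ i, IsIntegral ℤ (π i)) →
    (∀ i, π i * IsCMField.complexConj (K i) (π i) = (p : K i) ^ a) →
    Cyclic p (fun _ => a) π → Separated p (fun _ => a) π → P p a I K π

/-- The property holds for every Weil number `π` for `p ^ a` in a CM field `K` of degree `2 r ^ k`, `r`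
a prime number, such that some automorphism of the complex numbers acts on the pairs of complex
conjugate embeddings of `K` as one cycle (`OneOrbit`), if all positive powers of the normalised norms
of `π` to CM subfields generate these subfields (`NormsGenerate`). -/
def HoldsForPrimePower (P : WeilProperty) : Prop :=
  ∀ (p : ℕ) [Fact p.Prime] (a : ℕ) (K : Type) [Field K] [NumberField K] [IsCMField K] (π : K)
    (r k : ℕ), 0 < a → IsIntegral ℤ π → π * IsCMField.complexConj K π = (p : K) ^ a → r.Prime →
    finrank ℚ K = 2 * r ^ k → OneOrbit K → NormsGenerate p a π →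
      P p a Unit (fun _ => K) (fun _ => π)

theorem primePower_of_cyclic {P : WeilProperty} (h : HoldsForCyclic P) : HoldsForPrimePower P := by
  intro p _ a K _ _ _ π r k ha hint hw hr hdeg hone hnorm
  exact h p a Unit (fun _ => K) (fun _ => π) ha (fun _ => hint) (fun _ => hw)
    (cyclic_of_oneOrbit hr hdeg hone π) (separated_of_normsGenerate hnorm)

end Run7.h8.IC
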