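import Pool.Agent.Run7.h16.MO.Stm
import Pool.Agent.Run7.h16.OT.TDef
import Pool.Agent.Run7.h8.IC.Props
import Pool.Agent.Y1.CT.IndepDefs

/-!
# Products with arbitrary varieties: statements

`MurreOutside`, `Outside` and `TateClassesSplit` are the definitions of helper16 (Run7/h16/MO and
Run7/h16/OT).
-/

set_option autoImplicit false

namespace Run7.h8.IC

open Polynomial Pool.Agent.Y137.MV Run7.h16.OT Run7.h16.MO Pool.Agent.Y1.CT

/-- The conjectures of Murre for `A' × Z` and for `Z` are equivalent (`MurreOutside`), for all abelian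
varieties with characteristic polynomials `f i` of the Frobenius, the roots of which are conjugates
of `π i`. -/
def MurreFor (p a : ℕ) {I : Type} (K : I → Type) [∀ i, Field (K i)] [∀ i, NumberField (K i)]
    (π : ∀ i, K i) : Prop :=
  ∀ f : I → ℤ[X], (∀ i, IsPolyOf (π i) (f i)) → MurreOutside K (p ^ a) f

end Run7.h8.IC
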