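import Pool.Agent.Run7.h142.TF.Pole
import Pool.Agent.Run7.h8.IC.Follow

/-!
# The orders of the poles of zeta functions of abelian varieties, fields with isolated cycles
-/

set_option linter.unusedSectionVars false
set_option linter.unusedVariables false

namespace Run7.h8.IC

open NumberField Module Pool.Agent.H204R3.CM Pool.Agent.H977R3.WN Pool.Agent.H485R3.Exact
  Pool.Agent.H204R3.GP Pool.Agent.H204R3.SP IntermediateField Pool.Agent.W527
  Pool.Agent.Run7.h142.TF Pool.Agent.H868R3.TwoOdd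

noncomputable section

variable {p : ℕ} [hp : Fact p.Prime] {I : Type} [hI : Fintype I] {K : I → Type} [∀ i, Field (K i)]
  [∀ i, NumberField (K i)] [∀ i, IsCMField (K i)] {π : ∀ i, K i}

theorem norel_of_free {a : ℕ} {κ : I → ℚ} (hκ : ∀ i, 0 < κ i)
    {u : ∀ i, (K i →+* PadicAlgCl p) → ℤ}
    (hu : ∀ i, ∀ τ : K i →+* PadicAlgCl p,
      2 * (- Real.logb p ‖τ (π i)‖) - a = (κ i : ℝ) * u i τ)
    (hfree : ∀ (L : Type) [Field L] [NumberField L] [IsGalois ℚ L] (j : L →+* ℂ),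
      (∀ i, ∀ ψ : K i →+* ℂ, ∃ φ : K i →+* L, j.comp φ = ψ) → ∀ (jp : L →+* PadicAlgCl p),
      Free (F := K) (L := L) (fun i φ => u i (jp.comp φ))) (hfin : Fintype I) :
    Pool.Agent.H194R3.Tate.NoRel p (fun _ => (p : ℚ) ^ a) π := by
  classical
  obtain rfl : hI = hfin := Subsingleton.elim _ _
  intro L hL1 hL2 j hj e c hc hsum
  have hlogp : Real.log p ≠ 0 :=
    (Real.log_pos (by exact_mod_cast hp.out.one_lt)).ne'
  have hsd : ∀ x : Σ i, (K i →+* L),
      Pool.Agent.H194R3.Tate.slope p (fun _ => (p : ℚ) ^ a) π e x =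
        - Real.log p * ((κ x.1 : ℝ) * u x.1 ((e : L →+* PadicAlgCl p).comp x.2)) := by
    intro x
    rw [← hu x.1]
    change Pool.Agent.H925R2.dev p ((p : ℚ) ^ a) (e (x.2 (π x.1))) = _
    rw [Pool.Agent.H485R3.dev_eq_val, neg_logb_q]
    rfl
  let D : ℚ := ∏ i, ((κ i).den : ℚ)
  let d : I → ℤ := fun i => (κ i).num * ∏ k ∈ Finset.univ.erase i, ((κ k).den : ℤ)
  have hd : ∀ i, (d i : ℚ) = D * κ i := by
    intro i
    have h1 : D = ((κ i).den : ℚ) * ∏ k ∈ Finset.univ.erase i, ((κ k).den : ℚ) :=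
      (Finset.mul_prod_erase Finset.univ (fun k => ((κ k).den : ℚ)) (Finset.mem_univ i)).symm
    have h3 : κ i * ((κ i).den : ℚ) = (κ i).num := Rat.mul_den_eq_num (κ i)
    simp only [d]
    push_cast
    rw [h1, ← h3]
    ring
  have hD : 0 < D := Finset.prod_pos fun i _ => by exact_mod_cast (κ i).den_pos
  have hd0 : ∀ i, d i ≠ 0 := by
    intro i h0
    have h1 := hd i
    rw [h0, Int.cast_zero] at h1
    exact (mul_pos hD (hκ i)).ne h1
  have key := hfree L j hj (e : L →+* PadicAlgCl p) (fun i φ => d i * c ⟨i, φ⟩)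
    (fun i φ => by
      have h1 : c ⟨i, cbar φ⟩ = - c ⟨i, φ⟩ := hc ⟨i, φ⟩
      rw [h1]
      ring)
    (fun g => by
      have h1 := hsum g
      have h4 : ∑ i, ∑ φ : (K i →+* L), ((d i * c ⟨i, φ⟩ *
          u i ((e : L →+* PadicAlgCl p).comp (g • φ)) : ℤ) : ℝ) = 0 := by
        have h5 : ∀ i (φ : K i →+* L), ((d i * c ⟨i, φ⟩ *
            u i ((e : L →+* PadicAlgCl p).comp (g • φ)) : ℤ) : ℝ) =
              - ((D : ℝ) * (Real.log p)⁻¹) * ((c ⟨i, φ⟩ : ℝ) *
                Pool.Agent.H194R3.Tate.slope p (fun _ => (p : ℚ) ^ a) π e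
                  (g • (⟨i, φ⟩ : Σ i, (K i →+* L)))) := by
          intro i φ
          have h6 : (d i : ℝ) = (D : ℝ) * (κ i : ℝ) := by exact_mod_cast hd i
          rw [hsd]
          push_cast
          rw [h6]
          change _ = - ((D : ℝ) * (Real.log p)⁻¹) * ((c ⟨i, φ⟩ : ℝ) *
            (- Real.log p * ((κ i : ℝ) * u i ((e : L →+* PadicAlgCl p).comp (g • φ)))))
          field_simp
        rw [Finset.sum_congr rfl (fun i _ => Finset.sum_congr rfl (fun φ _ => h5 i φ))]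
        simp only [← Finset.mul_sum]
        rw [Fintype.sum_sigma] at h1
        rw [h1, mul_zero]
      exact_mod_cast h4)
  rintro ⟨i, φ⟩
  exact (mul_eq_zero.1 (key i φ)).resolve_left (hd0 i)

theorem poleOrders_of_cyclic {a : ℕ} (ha : 0 < a) (hint : ∀ i, IsIntegral ℤ (π i))
    (hw : ∀ i, π i * IsCMField.complexConj (K i) (π i) = (p : K i) ^ a)
    (hmild : Cyclic p (fun _ => a) π) (hsep : Norm.Separated p (fun _ => a) π) :
    PoleOrders p a K π := by
  have hweil : ∀ i, ∀ φ : K i →+* ℂ, ‖φ (π i)‖ ^ 2 = (p : ℝ) ^ a := by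
    intro i φ
    have h1 := congrArg (fun x => ‖φ x‖) (hw i)
    simp only [map_mul, map_pow, map_natCast, norm_mul, norm_pow, Complex.norm_natCast] at h1
    rw [IsCMField.complexEmbedding_complexConj, Complex.norm_conj] at h1
    rw [sq]
    exact h1
  have hπ : ∀ i, π i ≠ 0 := fun i => ne_zero_of_weil (p := p) (m := a) (hweil i)
  choose κ u hκ hu using fun i => exists_slopes_pos (p := p) (hπ i) a
  have hnr := norel_of_free hκ hu (fun L _ _ _ j h jp =>
    free_of_cyclic (m := fun _ => a) hint hweil hmild hsep hκ hu j h jp)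
  have hweil' : ∀ i, ∀ φ : K i →+* ℂ, ‖φ (π i)‖ ^ 2 = (((p : ℚ) ^ a : ℚ) : ℝ) := by
    intro i φ
    rw [hweil]
    push_cast
    rfl
  intro V _ _ _ F hF s hs n
  have hq : (0 : ℚ) < (p : ℚ) ^ a := pow_pos (by exact_mod_cast hp.out.pos) a
  have hp1 : (1 : ℝ) < p := by exact_mod_cast hp.out.one_lt
  have hcast : (((p : ℚ) ^ a : ℚ) : ℂ) = (p : ℂ) ^ a := by
    push_cast
    rfl
  have hcast2 : (((p : ℝ) ^ a : ℝ) : ℂ) = (p : ℂ) ^ a := by
    push_cast
    rfl
  rw [← hcast2]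
  refine zeta_order_ext ((p : ℝ) ^ a) (one_lt_pow₀ hp1 ha.ne') F
    {μ : ℂ | ∃ i : I, ∃ σ : K i →+* ℂ, σ (π i) = μ} ?_ ?_ s hs ?_ n
  · rintro _ ⟨x, σ, rfl⟩
    rw [hweil]
  · rw [← hF]
    congr 1
    ext v
    constructor
    · rintro ⟨μ, ⟨i, σ, rfl⟩, h⟩
      exact ⟨i, σ, h⟩
    · rintro ⟨i, σ, h⟩
      exact ⟨_, ⟨i, σ, rfl⟩, h⟩
  · intro n x hx h
    rw [hcast2] at h ⊢
    rw [← hcast] at h ⊢
    exact Pool.Agent.H194R3.Tate.ext_of_norel (K := K) p ((p : ℚ) ^ a) hq π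
      (fun i => gen_of_separated hsep i) hweil' hnr F hF n s hs x hx h

theorem holdsForCyclic_pole :
    HoldsForCyclic (fun p _ a _ _ K _ _ _ π => PoleOrders p a K π) := by
  intro p _ a I _ K _ _ _ π ha hint hw hc hs
  exact poleOrders_of_cyclic ha hint hw hc hs

end

end Run7.h8.IC
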