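import Pool.Agent.Run7.h479.SO.TBDefs
import Pool.Agent.Run7.h479.SO.ZetaDefs
import Pool.Agent.W495.FM.SpreadDefs

/-!
# Statements on the schemes generated by abelian varieties over finite fields with given Frobenius
elements: singular varieties, higher Chow groups, zeta functions

The class `IsAbelianPowersOf` and the definitions `CompactCoh`, `eulerFactor`, `zeta` are those of
helper479 (Run7/h479/SO), as are the statements `SingularTate` and `BlochSoule`.
-/

set_option autoImplicit false

namespace Run7.h8.IC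

open NumberField Module Pool.Agent.W495.TA Pool.Agent.W495.FM Pool.Agent.Run7.h479.SO

/-- Q1 (a) for the class `Spread`, and Q1 (b) and Q2 for the class `Generated` of schemes over the
field with `q` elements. -/
def SingularTate (p : ℕ) [Fact p.Prime] {I : Type} (K : I → Type) [∀ i, Field (K i)]
    (π : ∀ i, K i) : Prop :=
  ∀ (ν : PadicAlgCl p ≃+* ℂ) (Ω : Type) [Field Ω] [IsAlgClosed Ω] [CharZero Ω] (V : Type)
    (T : Homology Ω V), IsHomology T → HasWeights T →
      (∀ X : V, Spread T (Generated T (IsAbelianPowersOf ν π T)) X → ∀ i : ℤ, IsOnto T X i) ∧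
      ∀ X : V, Generated T (IsAbelianPowersOf ν π T) X →
        (∀ i : ℤ, Module.Finite ℚ (T.M X (2 * i) i) ∧ IsIso T X i) ∧
        ∀ (q : ℕ) (A : CompactCoh Ω) (τ : Ω →+* ℂ), 1 < q → IsCompactCoh T X q A → ∀ i : ℕ,
          meromorphicOrderAt (fun s => (eulerFactor A τ q (2 * i) s)⁻¹) (i : ℂ) =
            ((-(finrank ℚ (T.M X (2 * i) i) : ℤ) : ℤ) : WithTop ℤ)

/-- For all schemes `X` of dimension `d` generated by the abelian varieties and all `i`, `j`: the map
from motivic cohomology to the Frobenius invariant elements of `H^i(X, ℚ_ℓ(j)) = H_(2 d - i)(X,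
ℚ_ℓ(d - j))`, with coefficients `Ω`, is surjective, and the eigenvalue one is semisimple. -/
def HigherTate (p : ℕ) [Fact p.Prime] {I : Type} (K : I → Type) [∀ i, Field (K i)]
    (π : ∀ i, K i) : Prop :=
  ∀ (ν : PadicAlgCl p ≃+* ℂ) (Ω : Type) [Field Ω] [IsAlgClosed Ω] [CharZero Ω] (V : Type)
    (T : Homology Ω V), IsHomology T → ∀ X : V, Generated T (IsAbelianPowersOf ν π T) X →
      ∀ d i j : ℤ,
        (∀ e : T.E X (2 * d - i) (d - j), T.frob X _ _ e = e →
          e ∈ Submodule.span Ω (Set.range (T.reg X (2 * d - i) (d - j)))) ∧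
        ∀ e : T.E X (2 * d - i) (d - j), T.frob X _ _ (T.frob X _ _ e - e) = T.frob X _ _ e - e →
          T.frob X _ _ e = e

/-- The assertion of Q2 for the schemes generated by the abelian varieties, in all dimensions `j`. -/
def BlochSoule (p : ℕ) [Fact p.Prime] {I : Type} (K : I → Type) [∀ i, Field (K i)]
    (π : ∀ i, K i) : Prop :=
  ∀ (ν : PadicAlgCl p ≃+* ℂ) (Ω : Type) [Field Ω] [IsAlgClosed Ω] [CharZero Ω] (V : Type)
    (T : Homology Ω V), IsHomology T → HasWeights T →
      ∀ X : V, Generated T (IsAbelianPowersOf ν π T) X → ∀ (q : ℕ) (A : CompactCoh Ω)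
        (τ : Ω →+* ℂ), 1 < q → IsCompactCoh T X q A → ∀ j : ℤ,
          (∀ n : ℕ, Module.Finite ℚ (T.M X (2 * j + n) j)) ∧
          {n : ℕ | finrank ℚ (T.M X (2 * j + n) j) ≠ 0}.Finite ∧
          meromorphicOrderAt (zeta A τ q) (j : ℂ) =
            ((-∑ᶠ n : ℕ, (-1) ^ n * (finrank ℚ (T.M X (2 * j + n) j) : ℤ) : ℤ) : WithTop ℤ)

end Run7.h8.IC
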