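import Pool.Agent.Run7.h8.IC.Red
import Pool.Agent.Run7.h8.IC.Red2Defs
import Pool.Agent.Run7.h479.SO.Zeta

/-!
# The schemes generated by abelian varieties over finite fields with given Frobenius elements:
singular varieties, higher Chow groups, zeta functions

The deductions from the relations between the Frobenius eigenvalues are those of helper479
(Run7/h479/SO), from theorems of the starting files (TH117, W495).
-/

set_option autoImplicit false

namespace Run7.h8.IC

open NumberField Pool.Agent.W495.TA Pool.Agent.W495.FM Pool.Agent.TH117 Pool.Agent.TH117.GN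
  Pool.Agent.W547.KB Pool.Agent.Run7.h479.SO Pool.Agent.Y137.MV

theorem singularFor : FollowsFromAngle (fun p _ _ _ _ K _ _ _ π => SingularTate p K π) := by
  intro p _ a I _ K _ _ _ π ha hgen hw hang ν Ω _ _ _ V T hT hW
  refine ⟨fun _ hX i => onto_of_angle ha hw hang hT hW hX i, fun X hX => ?_⟩
  have hTB := tb_of_angle ha hw hang hT hX
  refine ⟨fun i => ⟨finite_M hT hTB _ _, hTB.iso hT i⟩, fun q A τ hq hA i => ?_⟩
  obtain ⟨h1, h2⟩ := order_factor hT hq hA hTB τ (2 * i) i
  have h3 := meromorphicOrderAt_inv (f := eulerFactor A τ q (2 * i)) (x := ((i : ℤ) : ℂ))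
  rw [h2] at h3
  push_cast at h3
  exact h3

theorem higherFor : FollowsFromAngle (fun p _ _ _ _ K _ _ _ π => HigherTate p K π) := by
  intro p _ a I _ K _ _ _ π ha hgen hw hang ν Ω _ _ _ V T hT X hX d i j
  have h1 := tb_of_angle ha hw hang hT hX (2 * d - i) (d - j)
  exact ⟨fun e he => (h1.1 e).1 he, h1.2.2⟩

theorem blochSouleFor : FollowsFromAngle (fun p _ _ _ _ K _ _ _ π => BlochSoule p K π) := by
  intro p _ a I _ K _ _ _ π ha hgen hw hang ν Ω _ _ _ V T hT hW X hX q A τ hq hA j
  have hTB := tb_of_angle ha hw hang hT hX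
  exact ⟨fun _ => finite_M hT hTB _ _, order_zeta hT hW hq hA hTB τ j⟩

end Run7.h8.IC
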