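import Mathlib

/-!
# Sums of roots of unity of prime power order, and of order `2 ^ a * r ^ b` with odd coefficients
-/

namespace Run7.h8.IC

open Polynomial Finset

/-- The polynomial with the coefficients `β i`, `i < n`. -/
noncomputable def poly (β : ℕ → ℤ) (n : ℕ) : ℚ[X] := ∑ i ∈ range n, C (β i : ℚ) * X ^ i

theorem poly_coeff (β : ℕ → ℤ) (n m : ℕ) :
    (poly β n).coeff m = if m < n then (β m : ℚ) else 0 := by
  unfold poly
  rw [finsetSum_coeff]
  simp only [coeff_C_mul, coeff_X_pow]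
  by_cases hn : m < n
  · rw [if_pos hn, Finset.sum_eq_single m]
    · simp
    · intro l _ hl
      rw [if_neg (Ne.symm hl), mul_zero]
    · intro h0
      exact absurd (Finset.mem_range.2 hn) h0
  · rw [if_neg hn]
    refine Finset.sum_eq_zero fun l hl => ?_
    have h1 : m ≠ l := by
      have := Finset.mem_range.1 hl
      omega
    rw [if_neg h1, mul_zero]

theorem poly_aeval (β : ℕ → ℤ) (n : ℕ) (ζ : ℂ) :
    aeval ζ (poly β n) = ∑ i ∈ range n, (β i : ℂ) * ζ ^ i := by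
  unfold poly
  rw [map_sum]
  refine Finset.sum_congr rfl fun k _ => ?_
  rw [map_mul, aeval_C, map_pow, aeval_X, eq_ratCast, Rat.cast_intCast]

theorem cyclotomic_dvd {n : ℕ} (hn : 0 < n) {ζ : ℂ} (hζ : IsPrimitiveRoot ζ n) {P : ℚ[X]}
    (h : aeval ζ P = 0) : cyclotomic n ℚ ∣ P := by
  rw [cyclotomic_eq_minpoly_rat hζ hn]
  exact minpoly.dvd ℚ ζ h

/-- If `A * Φ = B` with `A` of degree `m` and `Φ * Q = P` has degree less than the degree of `B`,
then the coefficients of `Q` of index at least `m` vanish. -/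
theorem coeff_quot {Φ Q P B A : ℚ[X]} (hΦ : Φ ≠ 0) (hAB : A * Φ = B) (hA0 : A ≠ 0)
    (hP : P = Φ * Q) (hdeg : P ≠ 0 → P.natDegree < B.natDegree) (t : ℕ) (ht : A.natDegree ≤ t) :
    Q.coeff t = 0 := by
  by_cases hQ : Q = 0
  · rw [hQ, coeff_zero]
  · apply coeff_eq_zero_of_natDegree_lt
    have hP0 : P ≠ 0 := by
      rw [hP]
      exact mul_ne_zero hΦ hQ
    have h1 := hdeg hP0
    rw [hP, natDegree_mul hΦ hQ, ← hAB, natDegree_mul hA0 hΦ] at h1
    omega

theorem poly_natDegree_lt (β : ℕ → ℤ) (n : ℕ) (h : poly β n ≠ 0) : (poly β n).natDegree < n := by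
  by_contra hcon
  push Not at hcon
  have h1 : (poly β n).leadingCoeff ≠ 0 := leadingCoeff_ne_zero.2 h
  apply h1
  unfold leadingCoeff
  rw [poly_coeff, if_neg (not_lt.2 hcon)]

/-- A vanishing sum of roots of unity of prime power order is periodic. -/
theorem periodic_of_pow {r k : ℕ} (hr : r.Prime) {ζ : ℂ} (hζ : IsPrimitiveRoot ζ (r ^ (k + 1)))
    (β : ℕ → ℤ) (h : ∑ i ∈ range (r ^ (k + 1)), (β i : ℂ) * ζ ^ i = 0) : β 0 = β (r ^ k) := by
  have : Fact r.Prime := ⟨hr⟩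
  have hpos : 0 < r ^ (k + 1) := pow_pos hr.pos _
  have hpos' : 0 < r ^ k := pow_pos hr.pos _
  have hlt : r ^ k < r ^ (k + 1) := Nat.pow_lt_pow_right hr.one_lt (Nat.lt_succ_self k)
  set P := poly β (r ^ (k + 1)) with hP
  obtain ⟨Q, hQ⟩ := cyclotomic_dvd hpos hζ (P := P) (by rw [hP, poly_aeval, h])
  have hAB : (X ^ (r ^ k) - 1 : ℚ[X]) * cyclotomic (r ^ (k + 1)) ℚ = X ^ (r ^ (k + 1)) - 1 := by
    rw [mul_comm]
    exact cyclotomic_prime_pow_mul_X_pow_sub_one ℚ r k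
  have hA0 : (X ^ (r ^ k) - 1 : ℚ[X]) ≠ 0 := by
    rw [← C_1]
    exact X_pow_sub_C_ne_zero hpos' 1
  have hAdeg : (X ^ (r ^ k) - 1 : ℚ[X]).natDegree = r ^ k := by
    rw [← C_1]
    exact natDegree_X_pow_sub_C
  have hBdeg : (X ^ (r ^ (k + 1)) - 1 : ℚ[X]).natDegree = r ^ (k + 1) := by
    rw [← C_1]
    exact natDegree_X_pow_sub_C
  have hq := coeff_quot (cyclotomic_ne_zero _ ℚ) hAB hA0 hQ
    (fun h0 => by rw [hBdeg]; exact poly_natDegree_lt _ _ h0) (r ^ k) (by rw [hAdeg])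
  have heq : (X ^ (r ^ k) - 1 : ℚ[X]) * P = (X ^ (r ^ (k + 1)) - 1) * Q := by
    rw [hQ, ← mul_assoc, hAB]
  have h1 := congrArg (fun p => coeff p (r ^ k)) heq
  simp only [sub_mul, one_mul, coeff_sub] at h1
  rw [coeff_X_pow_mul', if_pos le_rfl, Nat.sub_self, coeff_X_pow_mul', if_neg (not_le.2 hlt), hq,
    hP, poly_coeff, poly_coeff, if_pos hpos, if_pos hlt] at h1
  have h2 : (β 0 : ℚ) = β (r ^ k) := by linarith
  exact_mod_cast h2

/-- An odd vanishing sum of roots of unity of order `2 ^ (a + 1) * r ^ (b + 1)` is periodic. -/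
theorem periodic_of_odd {r a b : ℕ} (hr : r.Prime) (hr2 : r ≠ 2) {ζ : ℂ}
    (hζ : IsPrimitiveRoot ζ (2 ^ (a + 1) * r ^ (b + 1))) (β : ℕ → ℤ)
    (hodd : ∀ i, β (i + 2 ^ a * r ^ (b + 1)) = -β i)
    (h : ∑ i ∈ range (2 ^ (a + 1) * r ^ (b + 1)), (β i : ℂ) * ζ ^ i = 0) :
    β 0 = β (2 ^ (a + 1) * r ^ b) := by
  obtain ⟨s, hs⟩ : ∃ s, s = 2 ^ a * r ^ b := ⟨_, rfl⟩
  have hs0 : 0 < s := by rw [hs]; exact mul_pos (pow_pos two_pos _) (pow_pos hr.pos _)
  have hr3 : 3 ≤ r := by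
    have := hr.two_le
    omega
  have hrodd : Odd r := hr.odd_of_ne_two hr2
  -- half of the order
  have e1 : 2 ^ a * r ^ (b + 1) = r * s := by rw [hs]; ring
  have e2 : 2 ^ (a + 1) * r ^ (b + 1) = 2 * (r * s) := by rw [hs]; ring
  have e3 : 2 ^ (a + 1) * r ^ b = 2 * s := by rw [hs]; ring
  rw [e2] at hζ h
  rw [e3]
  simp only [e1] at hodd
  have hrs : 0 < r * s := mul_pos hr.pos hs0
  have hn : 0 < 2 * (r * s) := by omega
  have h3s : 3 * s ≤ r * s := Nat.mul_le_mul_right s hr3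
  -- the half sum vanishes
  have hz : ζ ^ (r * s) = -1 := by
    have h1 : ζ ^ (r * s) * ζ ^ (r * s) = 1 := by
      rw [← pow_add, ← two_mul, hζ.pow_eq_one]
    rcases mul_self_eq_one_iff.1 h1 with h2 | h2
    · exfalso
      have h3 := Nat.le_of_dvd hrs (hζ.dvd_of_pow_eq_one _ h2)
      omega
    · exact h2
  have hhalf : ∑ i ∈ range (r * s), (β i : ℂ) * ζ ^ i = 0 := by
    have h1 : range (2 * (r * s)) = range (r * s + r * s) := by rw [two_mul]
    rw [h1, Finset.sum_range_add] at h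
    have h2 : ∑ x ∈ range (r * s), (β (r * s + x) : ℂ) * ζ ^ (r * s + x) =
        ∑ i ∈ range (r * s), (β i : ℂ) * ζ ^ i := by
      refine Finset.sum_congr rfl fun i _ => ?_
      rw [pow_add, hz, add_comm (r * s) i, hodd]
      push_cast
      ring
    rw [h2] at h
    have h3 : (2 : ℂ) * ∑ i ∈ range (r * s), (β i : ℂ) * ζ ^ i = 0 := by rw [two_mul]; exact h
    exact (mul_eq_zero.1 h3).resolve_left two_ne_zero
  set P := poly β (r * s) with hP
  obtain ⟨Q, hQ⟩ := cyclotomic_dvd hn hζ (P := P) (by rw [hP, poly_aeval, hhalf])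
  have hirr : Irreducible (cyclotomic (2 * (r * s)) ℚ) := cyclotomic.irreducible_rat hn
  have hAmon : (X ^ s + 1 : ℚ[X]).Monic := by
    rw [← C_1]
    exact monic_X_pow_add_C 1 hs0.ne'
  have hBmon : (X ^ (r * s) + 1 : ℚ[X]).Monic := by
    rw [← C_1]
    exact monic_X_pow_add_C 1 hrs.ne'
  have hAdeg : (X ^ s + 1 : ℚ[X]).natDegree = s := by
    rw [← C_1]
    exact natDegree_X_pow_add_C
  have hBdeg : (X ^ (r * s) + 1 : ℚ[X]).natDegree = r * s := by
    rw [← C_1]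
    exact natDegree_X_pow_add_C
  -- the cyclotomic polynomial divides `X ^ (r s) + 1`
  have hd1 : cyclotomic (2 * (r * s)) ℚ ∣ (X ^ (r * s) + 1 : ℚ[X]) := by
    apply cyclotomic_dvd hn hζ
    rw [map_add, map_pow, aeval_X, map_one, hz]
    ring
  have hd2 : (X ^ s + 1 : ℚ[X]) ∣ (X ^ (r * s) + 1 : ℚ[X]) := by
    have h1 := hrodd.add_dvd_pow_add_pow (X ^ s : ℚ[X]) 1
    rwa [one_pow, ← pow_mul, mul_comm s r] at h1
  have hcop : IsCoprime (X ^ s + 1 : ℚ[X]) (cyclotomic (2 * (r * s)) ℚ) := by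
    apply IsCoprime.symm
    rw [hirr.coprime_iff_not_dvd]
    rintro ⟨R, hR⟩
    have h1 : aeval ζ (X ^ s + 1 : ℚ[X]) = 0 := by
      have h2 : aeval ζ (cyclotomic (2 * (r * s)) ℚ) = 0 := by
        rw [cyclotomic_eq_minpoly_rat hζ hn]
        exact minpoly.aeval ℚ ζ
      rw [hR, map_mul, h2, zero_mul]
    rw [map_add, map_pow, aeval_X, map_one] at h1
    have h2 : ζ ^ (2 * s) = 1 := by
      have h3 : ζ ^ s = -1 := eq_neg_of_add_eq_zero_left h1
      rw [mul_comm, pow_mul, h3]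
      norm_num
    have h3 := Nat.le_of_dvd (by omega) (hζ.dvd_of_pow_eq_one _ h2)
    omega
  have hdvd : (X ^ s + 1 : ℚ[X]) * cyclotomic (2 * (r * s)) ℚ ∣ (X ^ (r * s) + 1 : ℚ[X]) :=
    hcop.mul_dvd hd2 hd1
  -- the degree of the product
  have htot : (cyclotomic (2 * (r * s)) ℚ).natDegree = r * s - s := by
    rw [natDegree_cyclotomic, ← e2]
    have hc : Nat.Coprime (2 ^ (a + 1)) (r ^ (b + 1)) := by
      apply Nat.Coprime.pow
      exact (Nat.coprime_primes Nat.prime_two hr).2 (Ne.symm hr2)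
    rw [Nat.totient_mul hc, Nat.totient_prime_pow_succ Nat.prime_two,
      Nat.totient_prime_pow_succ hr, hs]
    obtain ⟨q, rfl⟩ : ∃ q, r = q + 1 := ⟨r - 1, by omega⟩
    have e4 : (q + 1) * (2 ^ a * (q + 1) ^ b) - 2 ^ a * (q + 1) ^ b = q * (2 ^ a * (q + 1) ^ b) := by
      rw [add_mul, one_mul, Nat.add_sub_cancel]
    rw [e4]
    simp only [Nat.add_sub_cancel]
    ring
  have hAB : (X ^ s + 1 : ℚ[X]) * cyclotomic (2 * (r * s)) ℚ = X ^ (r * s) + 1 := by
    refine (eq_of_monic_of_dvd_of_natDegree_le (hAmon.mul (cyclotomic.monic _ ℚ)) hBmon hdvd ?_).symm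
    rw [natDegree_mul hAmon.ne_zero (cyclotomic_ne_zero _ ℚ), hAdeg, hBdeg, htot]
    omega
  have hq := coeff_quot (cyclotomic_ne_zero _ ℚ) hAB hAmon.ne_zero hQ
    (fun h0 => by rw [hBdeg]; exact poly_natDegree_lt _ _ h0)
  rw [hAdeg] at hq
  have heq : (X ^ s + 1 : ℚ[X]) * P = (X ^ (r * s) + 1) * Q := by
    rw [hQ, ← mul_assoc, hAB]
  have h1 := congrArg (fun p => coeff p s) heq
  have h2 := congrArg (fun p => coeff p (2 * s)) heq
  simp only [add_mul, one_mul, coeff_add] at h1 h2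
  rw [coeff_X_pow_mul', if_pos le_rfl, Nat.sub_self, coeff_X_pow_mul',
    if_neg (by omega), hq s le_rfl, hP, poly_coeff, poly_coeff, if_pos hrs,
    if_pos (by omega)] at h1
  rw [coeff_X_pow_mul', if_pos (by omega), coeff_X_pow_mul',
    if_neg (by omega), hq (2 * s) (by omega), hP, poly_coeff, poly_coeff,
    if_pos (by omega), if_pos (by omega), show 2 * s - s = s by omega] at h2
  have h3 : (β 0 : ℚ) = β (2 * s) := by linarith
  exact_mod_cast h3

end Run7.h8.IC
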