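import Pool.Agent.Run7.h8.IC.Defs

/-!
# CM fields of degree `2 r ^ k` with an automorphism that is transitive on the pairs of embeddings
-/

set_option linter.unusedSectionVars false
set_option linter.unusedVariables false

namespace Run7.h8.IC

open NumberField Module Pool.Agent.W527.Short Pool.Agent.W527.Norm

noncomputable section

/-- The automorphism `τ` of the complex numbers acts on the pairs of complex conjugate embeddings of
`K` (the embeddings of the maximal real subfield) as one cycle. -/
def OneOrbit (K : Type) [Field K] : Prop :=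
  ∃ τ : ℂ ≃+* ℂ, ∀ φ φ' : Emb K, ∃ m : ℕ, act (τ ^ m) φ = φ' ∨
    act (τ ^ m) φ = ComplexEmbedding.conjugate φ'

variable {K : Type} [Field K] [NumberField K] [IsCMField K]

/-- Every embedding of a subfield extends. -/
theorem exists_ext (T : IntermediateField ℚ K) (ψ : Emb T) :
    ∃ φ : Emb K, φ.comp (algebraMap T K) = ψ := by
  let _ : Algebra T ℂ := ψ.toAlgebra
  have _ : Algebra.IsAlgebraic T K := inferInstance
  let φ : K →ₐ[T] ℂ := IsAlgClosed.lift
  refine ⟨φ, ?_⟩
  ext x
  exact φ.commutes x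

theorem conj_act (τ : ℂ ≃+* ℂ) (φ : Emb K) :
    act τ (ComplexEmbedding.conjugate φ) = ComplexEmbedding.conjugate (act τ φ) := by
  ext x
  have h1 := IsCMField.complexEmbedding_complexConj K φ x
  have h2 := IsCMField.complexEmbedding_complexConj K (act τ φ) x
  change τ ((starRingEnd ℂ) (φ x)) = (starRingEnd ℂ) (τ (φ x))
  rw [← h1]
  exact h2

theorem conj_act_sub (T : IntermediateField ℚ K) (τ : ℂ ≃+* ℂ) (ψ : Emb T) :
    act τ (ComplexEmbedding.conjugate ψ) = ComplexEmbedding.conjugate (act τ ψ) := by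
  obtain ⟨φ, rfl⟩ := exists_ext T ψ
  ext x
  have h1 := RingHom.congr_fun (conj_act τ φ) (algebraMap T K x)
  exact h1

theorem conj_conj_emb {F : Type} [Field F] (ψ : Emb F) :
    ComplexEmbedding.conjugate (ComplexEmbedding.conjugate ψ) = ψ :=
  ComplexEmbedding.involutive_conjugate F ψ

theorem act_mul {F : Type} [Field F] (τ σ : ℂ ≃+* ℂ) (ψ : Emb F) :
    act (τ * σ) ψ = act τ (act σ ψ) := rfl

theorem act_one {F : Type} [Field F] (ψ : Emb F) : act 1 ψ = ψ := RingHom.ext fun _ => rfl

/-- No embedding of a CM subfield is real. -/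
theorem conj_ne {T : IntermediateField ℚ K} (hT : ¬ IsTotallyReal T) (ψ : Emb T) :
    ComplexEmbedding.conjugate ψ ≠ ψ := by
  intro h
  apply hT
  -- all embeddings are real
  have hfix : ∀ x : T, IsCMField.complexConj K (x : K) = x := by
    intro x
    obtain ⟨φ, rfl⟩ := exists_ext T ψ
    apply φ.injective
    rw [IsCMField.complexEmbedding_complexConj]
    exact RingHom.congr_fun h x
  refine ⟨fun v => ?_⟩
  rw [← InfinitePlace.not_isComplex_iff_isReal, InfinitePlace.isComplex_iff]
  intro hv
  apply hv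
  obtain ⟨φ, hφ⟩ := exists_ext T v.embedding
  have h1 : ComplexEmbedding.conjugate v.embedding = v.embedding := by
    ext x
    rw [← hφ]
    change (starRingEnd ℂ) (φ (x : K)) = φ (x : K)
    rw [← IsCMField.complexEmbedding_complexConj, hfix]
  exact h1

/-- In a CM field of degree `2 r ^ k`, `r` a prime number, with an automorphism that acts on the
pairs of conjugate embeddings as one cycle, every CM subfield has an isolated cycle. -/
theorem isolated_of_oneOrbit {r k : ℕ} (hr : r.Prime) (hdeg : finrank ℚ K = 2 * r ^ k)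
    (hτ : OneOrbit K) (T : Unit → IntermediateField ℚ K) (S : Finset Unit) (hS : S.Nonempty)
    (hT : ∀ i ∈ S, ¬ IsTotallyReal (T i)) : IsolatedCycle (K := fun _ : Unit => K) T S := by
  classical
  obtain ⟨τ, hτ⟩ := hτ
  obtain ⟨i, hi⟩ := hS
  have hTi := hT i hi
  have hi' : ∀ i' : Unit, i' = i := fun i' => Subsingleton.elim _ _
  -- transitivity on the pairs of embeddings of `T i`
  have htrans : ∀ ψ χ : Emb (T i), ∃ m : ℕ, act (τ ^ m) ψ = χ ∨
      act (τ ^ m) ψ = ComplexEmbedding.conjugate χ := by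
    intro ψ χ
    obtain ⟨φ, rfl⟩ := exists_ext (T i) ψ
    obtain ⟨φ', rfl⟩ := exists_ext (T i) χ
    obtain ⟨m, hm | hm⟩ := hτ φ φ'
    · exact ⟨m, Or.inl (by rw [← hm]; rfl)⟩
    · refine ⟨m, Or.inr ?_⟩
      ext x
      exact RingHom.congr_fun hm (algebraMap (T i) K x)
  obtain ⟨ψ⟩ : Nonempty (Emb (T i)) := inferInstance
  let f : Emb (T i) → Emb (T i) := fun χ => act τ χ
  have hf : ∀ (m : ℕ) (χ : Emb (T i)), f^[m] χ = act (τ ^ m) χ := by
    intro m
    induction m with
    | zero => intro χ; rw [pow_zero, act_one]; rfl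
    | succ m ih => intro χ; rw [Function.iterate_succ_apply', ih, pow_succ', act_mul]
  have hinj : Function.Injective f := by
    intro χ χ' h
    ext x
    exact τ.injective (RingHom.congr_fun h x)
  have hper : ψ ∈ Function.periodicPts f := hinj.mem_periodicPts ψ
  set n := Function.minimalPeriod f ψ with hn
  have hn0 : 0 < n := Function.minimalPeriod_pos_of_mem_periodicPts hper
  have hiff : ∀ m : ℕ, act (τ ^ m) ψ = ψ ↔ n ∣ m := by
    intro m
    rw [← hf]
    exact Function.isPeriodicPt_iff_minimalPeriod_dvd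
  have hadd : ∀ (m l : ℕ) (χ : Emb (T i)), act (τ ^ (m + l)) χ = act (τ ^ m) (act (τ ^ l) χ) := by
    intro m l χ
    rw [pow_add, act_mul]
  have hactinj : ∀ (m : ℕ) (χ χ' : Emb (T i)), act (τ ^ m) χ = act (τ ^ m) χ' → χ = χ' := by
    intro m χ χ' h
    ext x
    exact (τ ^ m).injective (RingHom.congr_fun h x)
  have heq : ∀ m m' : ℕ, m < n → m' < n → act (τ ^ m) ψ = act (τ ^ m') ψ → m = m' := by
    have aux : ∀ m m' : ℕ, m ≤ m' → m' < n → act (τ ^ m) ψ = act (τ ^ m') ψ → m = m' := by
      intro m m' hle hlt h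
      have h1 : act (τ ^ (m + (m' - m))) ψ = act (τ ^ m) ψ := by
        rw [Nat.add_sub_cancel' hle]
        exact h.symm
      rw [hadd] at h1
      have h2 := (hiff _).1 (hactinj m _ _ h1)
      by_contra hne
      have h3 := Nat.le_of_dvd (by omega) h2
      omega
    intro m m' hm hm' h
    rcases le_total m m' with h1 | h1
    · exact aux m m' h1 hm' h
    · exact (aux m' m h1 hm h.symm).symm
  have hmod : ∀ m : ℕ, act (τ ^ m) ψ = act (τ ^ (m % n)) ψ := by
    intro m
    conv_lhs => rw [← Nat.mod_add_div m n]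
    rw [hadd, (hiff _).2 (dvd_mul_right n _)]
  -- the degree
  set d := finrank ℚ (T i) with hd
  have hcard : Fintype.card (Emb (T i)) = d := Embeddings.card (T i) ℂ
  have hdvd : d ∣ 2 * r ^ k := by
    rw [← hdeg]
    exact ⟨_, (finrank_mul_finrank ℚ (T i) K).symm⟩
  have hall : ∀ i' ∈ S, ∀ χ : Emb (T i'), InOrbit (E := fun _ : Unit => K) T τ ψ χ := by
    intro i' hi₂ χ
    have h1 : i' = i := hi' i'
    subst h1
    obtain ⟨m, hm | hm⟩ := htrans ψ χ
    · refine ⟨m, Or.inl ?_⟩
      rw [hm]
      rfl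
    · refine ⟨m, Or.inr ?_⟩
      rw [hm]
      rfl
  by_cases hself : ∃ m : ℕ, act (τ ^ m) ψ = ComplexEmbedding.conjugate ψ
  · -- the cycle is stable under conjugation
    obtain ⟨m₀, hm₀⟩ := hself
    have hsurj : ∀ χ : Emb (T i), ∃ m : ℕ, act (τ ^ m) ψ = χ := by
      intro χ
      obtain ⟨m, hm | hm⟩ := htrans ψ χ
      · exact ⟨m, hm⟩
      · refine ⟨m + m₀, ?_⟩
        rw [hadd, hm₀, conj_act_sub, hm, conj_conj_emb]
    have hdn : d = n := by
      rw [← hcard]
      have h1 : Function.Bijective (fun m : Fin n => act (τ ^ (m : ℕ)) ψ) := by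
        refine ⟨fun m m' h => Fin.ext (heq m m' m.2 m'.2 h), fun χ => ?_⟩
        obtain ⟨m, hm⟩ := hsurj χ
        refine ⟨⟨m % n, Nat.mod_lt _ hn0⟩, ?_⟩
        change act (τ ^ (m % n)) ψ = χ
        rw [← hmod, hm]
      rw [← Fintype.card_congr (Equiv.ofBijective _ h1), Fintype.card_fin]
    -- the half
    have h2m : n ∣ 2 * m₀ := by
      rw [← hiff, two_mul, hadd, hm₀, conj_act_sub, hm₀, conj_conj_emb]
    have hnm : ¬ n ∣ m₀ := by
      intro h
      have h1 := (hiff m₀).2 h
      rw [hm₀] at h1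
      exact conj_ne hTi ψ h1
    have heven : 2 ∣ n := by
      by_contra hodd
      have hc : Nat.Coprime n 2 := by
        rw [Nat.coprime_comm, Nat.Prime.coprime_iff_not_dvd Nat.prime_two]
        exact hodd
      exact hnm (hc.dvd_of_dvd_mul_left h2m)
    obtain ⟨s, hs⟩ := heven
    have hhalf : act (τ ^ (n / 2)) ψ = ComplexEmbedding.conjugate ψ := by
      have h1 : n / 2 = s := by omega
      rw [h1, ← hm₀]
      have h2 : s ∣ m₀ := by
        rw [hs] at h2m
        exact Nat.dvd_of_mul_dvd_mul_left two_pos h2m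
      obtain ⟨t, ht⟩ := h2
      have hodd : t % 2 = 1 := by
        by_contra h3
        apply hnm
        obtain ⟨t', ht'⟩ : 2 ∣ t := by omega
        refine ⟨t', ?_⟩
        rw [ht, ht', hs]
        ring
      have h4 : m₀ = s + n * (t / 2) := by
        rw [ht, hs]
        have h5 : t = 1 + 2 * (t / 2) := by omega
        conv_lhs => rw [h5]
        ring
      rw [h4, hadd, (hiff _).2 (dvd_mul_right n _)]
    have hsr : s ∣ r ^ k := by
      rw [hdn, hs] at hdvd
      exact Nat.dvd_of_mul_dvd_mul_left two_pos hdvd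
    obtain ⟨j, _, hj⟩ := (Nat.dvd_prime_pow hr).1 hsr
    refine ⟨τ, i, hi, ψ, n, hiff, ?_, fun i' hi₂ χ => Or.inl (hall i' hi₂ χ)⟩
    by_cases hr2 : r = 2
    · exact Or.inl ⟨2, j, Nat.prime_two, by rw [hs, hj, hr2]; ring⟩
    · rcases Nat.eq_zero_or_pos j with hj0 | hj0
      · exact Or.inl ⟨2, 0, Nat.prime_two, by rw [hs, hj, hj0]; norm_num⟩
      · obtain ⟨j', rfl⟩ : ∃ j', j = j' + 1 := ⟨j - 1, by omega⟩
        exact Or.inr ⟨r, 0, j', hr, hr2, by rw [hs, hj]; norm_num, hhalf⟩
  · -- two conjugate cycles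
    push Not at hself
    have hdn : d = 2 * n := by
      rw [← hcard]
      let F : Fin n × Bool → Emb (T i) := fun x =>
        if x.2 then act (τ ^ (x.1 : ℕ)) ψ else ComplexEmbedding.conjugate (act (τ ^ (x.1 : ℕ)) ψ)
      have hno : ∀ m m' : ℕ, act (τ ^ m) ψ ≠ ComplexEmbedding.conjugate (act (τ ^ m') ψ) := by
        intro m m' h
        -- move to `m' = 0`
        have h1 : act (τ ^ (n * m' - m' + m)) ψ = ComplexEmbedding.conjugate ψ := by
          rw [hadd, h, conj_act_sub, ← hadd]
          have h2 : n * m' - m' + m' = n * m' := by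
            have := Nat.le_mul_of_pos_left m' hn0
            omega
          rw [h2, (hiff _).2 (dvd_mul_right n _)]
        exact hself _ h1
      have hF : Function.Bijective F := by
        constructor
        · rintro ⟨m, b⟩ ⟨m', b'⟩ h
          cases b <;> cases b' <;> simp only [F, Bool.false_eq_true, if_true, if_false] at h
          · have h1 := ComplexEmbedding.involutive_conjugate (T i) |>.injective h
            rw [Fin.ext (heq m m' m.2 m'.2 h1)]
          · exact absurd h.symm (hno _ _)
          · exact absurd h (hno _ _)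
          · rw [Fin.ext (heq m m' m.2 m'.2 h)]
        · intro χ
          obtain ⟨m, hm | hm⟩ := htrans ψ χ
          · refine ⟨(⟨m % n, Nat.mod_lt _ hn0⟩, true), ?_⟩
            change act (τ ^ (m % n)) ψ = χ
            rw [← hmod, hm]
          · refine ⟨(⟨m % n, Nat.mod_lt _ hn0⟩, false), ?_⟩
            change ComplexEmbedding.conjugate (act (τ ^ (m % n)) ψ) = χ
            rw [← hmod, hm, conj_conj_emb]
      rw [← Fintype.card_congr (Equiv.ofBijective F hF), Fintype.card_prod, Fintype.card_fin,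
        Fintype.card_bool, mul_comm]
    have hnr : n ∣ r ^ k := by
      rw [hdn] at hdvd
      exact Nat.dvd_of_mul_dvd_mul_left two_pos hdvd
    obtain ⟨j, _, hj⟩ := (Nat.dvd_prime_pow hr).1 hnr
    rcases Nat.eq_zero_or_pos j with hj0 | hj0
    · -- an imaginary quadratic field: complex conjugation
      have hn1 : n = 1 := by rw [hj, hj0, pow_zero]
      have hτψ : act τ ψ = ψ := by
        have := (hiff 1).2 (by rw [hn1])
        rwa [pow_one] at this
      have hτm : ∀ m : ℕ, act (τ ^ m) ψ = ψ := fun m => (hiff m).2 (by rw [hn1]; exact one_dvd _)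
      have hc : ∀ χ : Emb (T i), act (starRingAut : ℂ ≃+* ℂ) χ = ComplexEmbedding.conjugate χ :=
        fun χ => rfl
      have hc2 : ∀ χ : Emb (T i), act ((starRingAut : ℂ ≃+* ℂ) ^ 2) χ = χ := by
        intro χ
        rw [pow_two, act_mul, hc, hc, conj_conj_emb]
      refine ⟨starRingAut, i, hi, ψ, 2, fun m => ?_, Or.inl ⟨2, 0, Nat.prime_two, by norm_num⟩, ?_⟩
      · have hpow : ∀ t : ℕ, act ((starRingAut : ℂ ≃+* ℂ) ^ (2 * t)) ψ = ψ := by
          intro t
          induction t with
          | zero => rw [mul_zero, pow_zero, act_one]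
          | succ t ih => rw [Nat.mul_succ, pow_add, act_mul, hc2, ih]
        constructor
        · intro h
          by_contra hodd
          have h1 : m = 2 * (m / 2) + 1 := by omega
          rw [h1, pow_add, act_mul, pow_one, hc] at h
          have hconj : act ((starRingAut : ℂ ≃+* ℂ) ^ (2 * (m / 2)))
              (ComplexEmbedding.conjugate ψ) = ComplexEmbedding.conjugate ψ := by
            rw [conj_act_sub, hpow]
          rw [hconj] at h
          exact conj_ne hTi ψ h
        · rintro ⟨t, rfl⟩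
          exact hpow t
      · intro i' hi₂ χ
        have h1 : i' = i := hi' i'
        subst h1
        left
        obtain ⟨m, hm | hm⟩ := htrans ψ χ
        · rw [hτm] at hm
          refine ⟨0, Or.inl ?_⟩
          rw [pow_zero, act_one, hm]
          rfl
        · rw [hτm] at hm
          refine ⟨0, Or.inr ?_⟩
          rw [pow_zero, act_one, hm]
          rfl
    · obtain ⟨j', rfl⟩ : ∃ j', j = j' + 1 := ⟨j - 1, by omega⟩
      exact ⟨τ, i, hi, ψ, n, hiff, Or.inl ⟨r, j', hr, hj⟩, fun i' hi₂ χ => Or.inl (hall i' hi₂ χ)⟩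

end

end Run7.h8.IC
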