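import Pool.Agent.Run7.h8.IC.CMDefs
import Pool.Agent.W527.PerDefs

/-!
# Relations between periods of abelian varieties of CM type, isolated cycles: definitions
-/

set_option autoImplicit false

namespace Run7.h8.IC.Vec

open NumberField Module Pool.Agent.W547.KB Pool.Agent.W537.PC Pool.Agent.W527.Per Pool.Agent.W527.Struct
  Run7.h8.IC.W

variable {ι : Type}

/-- Every separated family of CM subfields `T i` of the `E i`, `i ∈ S ≠ ∅`, consists of abelian
extensions of the field of rational numbers, or is mild, or has an isolated cycle. -/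
def AbelianOrCyclic (A : ι → CMPair) : Prop :=
  ∀ (T : ∀ i, IntermediateField ℚ (A i).E) (S : Finset ι), S.Nonempty →
    (∀ i ∈ S, IsCM (T i)) → SeparatedFamily A T S →
      (∀ i ∈ S, IsAbelian (T i)) ∨ MildFamily A T S ∨ Isolated (K := fun i => (A i).E) T S

end Run7.h8.IC.Vec
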