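import Pool.Agent.Run7.h8.IC.VTransfer
import Pool.Agent.Run7.h8.IC.CM
import Pool.Agent.Run7.h8.IC.VDefs
import Pool.Agent.W527.VFinal

/-!
# De Rham-Betti classes on products of abelian varieties of CM type, isolated cycles

The proofs of `hodge_of_twoTermC` and `allHodge_iffC` are those of the starting files
(`Pool.Agent.W527.VMain`, `VFinal`).
-/

set_option linter.unusedSectionVars false
set_option linter.unusedVariables false

namespace Run7.h8.IC.Vec

open NumberField Pool.Agent.H204R3.CM Pool.Agent.W547.KB Pool.Agent.W537.PC Module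
  Pool.Agent.W527 Pool.Agent.W527.Dec Pool.Agent.W527.Struct Pool.Agent.H977R3.WN
  Pool.Agent.W527.Per Pool.Agent.W527.Vec Run7.h8.IC Run7.h8.IC.CMT
open Run7.h8.IC.W (Subs IsCMSub Isolated OneOrbit)

noncomputable section

variable {ι : Type} [Fintype ι] (A : ι → CMPair) {L : Type} [Field L] [NumberField L]
  [IsCMField L] [IsGalois ℚ L] (j : L →+* ℂ) (P : PeriodSystem)

/-- The hypothesis on separated families. -/
def SmallSepC (L : Type) [Field L] [NumberField L] [IsCMField L] [IsGalois ℚ L] (j : L →+* ℂ)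
    (P : PeriodSystem) : Prop :=
  ∀ (T : ∀ i, IntermediateField ℚ (A i).E) (S : Finset ι), S.Nonempty →
    (∀ i ∈ S, NonReal (T i)) → SepV (L := L) (ee A j) T S →
    (SmallV (Y := SubEmb L T S) (subCb (cc L) T S) (L ≃ₐ[ℚ] L) ∨
      IsoCycle (Y := SubEmb L T S) (subCb (cc L) T S) (L ≃ₐ[ℚ] L)) ∨
      Direct (cc L) (ww A j P) (ee A j) T S

variable {P A j} in
/-- **De Rham-Betti classes are Hodge classes if the relations with two terms are explained.** -/
theorem hodge_of_twoTermC (hD : P.Deligne)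
    (hj : ∀ i, ∀ ψ : (A i).E →+* ℂ, ∃ φ : (A i).E →+* L, j.comp φ = ψ)
    (H1 : TwoTerm (ww A j P) (ee A j)) (H2 : SmallSepC A L j P)
    {J : Type} [Fintype J] (t : J → ι) (k : ℕ)
    (f : (productOf A t).H1 [⋀^Fin (2 * k)]→ₗ[ℚ] ℚ) (hf : P.IsDRB (productOf A t) k f) :
    IsHodge (productOf A t).per f := by
  classical
  have hκ : ∀ i, ∀ φ : (A i).E →+* L, cc L • φ = cbar φ := fun i φ => cc_smul j φ
  have φ₀ : ∀ i, ((A i).E →+* L) := fun i => (hj i (Classical.arbitrary _)).choose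
  refine hodge_of_drb_alg j P (productOf A t) (fun a => hj (t a)) k (fun I hI => ?_) f hf
  let y : Fin (2 * k) → EE A L := fun l => ⟨t (I l).1, (I l).2⟩
  let cb : EE A L → EE A L := fun z => ⟨z.1, cbar z.2⟩
  have hcb : Function.Involutive cb := fun z => by simp only [cb, cbar_cbar]
  let N : EE A L → ℤ := fun z => ((Finset.univ.filter (fun l => y l = z)).card : ℤ)
  have hN : ∀ {U : Type} [AddCommGroup U] (F : EE A L → U), ∑ z, N z • F z = ∑ l, F (y l) := by
    intro U _ F
    have h3 : ∀ z, N z • F z = ∑ l, if y l = z then F z else 0 := by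
      intro z
      rw [← Finset.sum_filter, Finset.sum_const, natCast_zsmul]
    rw [Finset.sum_congr rfl (fun z _ => h3 z), Finset.sum_comm]
    refine Finset.sum_congr rfl fun l _ => ?_
    rw [Finset.sum_ite_eq Finset.univ (y l), if_pos (Finset.mem_univ _)]
  have hN2 : ∀ {U : Type} [AddCommGroup U] (F : EE A L → U), (∀ z, F (cb z) = - F z) →
      ∑ z, (N z - N (cb z)) • F z = (2 : ℤ) • ∑ l, F (y l) := by
    intro U _ F hF
    have h3 : ∑ z, N (cb z) • F z = - ∑ l, F (y l) := by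
      rw [← hN F, ← Finset.sum_neg_distrib, ← Equiv.sum_comp (hcb.toPerm cb)]
      refine Finset.sum_congr rfl fun z _ => ?_
      change N (cb (cb z)) • F (cb z) = _
      rw [hcb z, hF, smul_neg]
    simp only [sub_smul]
    rw [Finset.sum_sub_distrib, h3, hN F, sub_neg_eq_add, two_zsmul]
  let c : ∀ i, ((A i).E →+* L) → ℤ := fun i φ => N ⟨i, φ⟩ - N (cb ⟨i, φ⟩)
  have hc : ∀ i φ, c i (cbar φ) = - c i φ := by
    intro i φ
    change N ⟨i, cbar φ⟩ - N ⟨i, cbar (cbar φ)⟩ = - (N ⟨i, φ⟩ - N ⟨i, cbar φ⟩)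
    rw [cbar_cbar]
    ring
  have hcg : ∀ (g : L ≃ₐ[ℚ] L) (i : ι) (φ : (A i).E →+* L), g • cbar φ = cbar (g • φ) :=
    fun g i φ => rfl
  have hWrel : ∀ g : L ≃ₐ[ℚ] L, ∑ i, ∑ φ : (A i).E →+* L, c i φ • ww A j P i (g • φ) = 0 := by
    intro g
    have h1 := hN2 (fun z : EE A L => ww A j P z.1 (g • z.2)) (fun z => by
      change ww A j P z.1 (g • cbar z.2) = _
      rw [hcg, ww_odd A j hD])
    rw [Fintype.sum_sigma] at h1
    refine Eq.trans h1 ?_
    have h2 : ∑ l, ww A j P (y l).1 (g • (y l).2) = 0 := hI g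
    rw [h2, smul_zero]
  have H2' : ∀ (T : ∀ i, IntermediateField ℚ (A i).E) (S : Finset ι), S.Nonempty →
      (∀ i ∈ S, NonReal (T i)) → SepV (L := L) (ww A j P) T S →
      (SmallV (Y := SubEmb L T S) (subCb (cc L) T S) (L ≃ₐ[ℚ] L) ∨
        IsoCycle (Y := SubEmb L T S) (subCb (cc L) T S) (L ≃ₐ[ℚ] L)) ∨
        Direct (cc L) (ww A j P) (ee A j) T S := by
    intro T S hS hT hsep
    refine H2 T S hS hT ?_
    rintro ⟨⟨i, hi⟩, ψ⟩ ⟨⟨i', hi'⟩, ψ'⟩ m n hm hn h
    have h' : ∀ g : L ≃ₐ[ℚ] L, m • trV (T i) (ee A j i) (g • ψ) =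
      n • trV (T i') (ee A j i') (g • ψ') := h
    have h'' : ∀ g : L ≃ₐ[ℚ] L, m • trV (T i) (ww A j P i) (g • ψ) =
      n • trV (T i') (ww A j P i') (g • ψ') := fun g => deligne_two A j hD h' g
    exact hsep ⟨⟨i, hi⟩, ψ⟩ ⟨⟨i', hi'⟩, ψ'⟩ m n hm hn h''
  have hreal : ∀ i ∈ (Finset.univ : Finset ι), NonReal (⊤ : IntermediateField ℚ (A i).E) :=
    fun i _ => top_nonReal (E := fun i => (A i).E) i (φ₀ i)
  have hcκ : ∀ (i : ι) (ψ : (⊤ : IntermediateField ℚ (A i).E) →+* L),
      c i (topE.symm (cc L • ψ)) = - c i (topE.symm ψ) := by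
    intro i ψ
    rw [symm_smul, hκ, hc]
  have hrelT : ∀ g : L ≃ₐ[ℚ] L, ∑ i ∈ (Finset.univ : Finset ι),
      ∑ ψ : (⊤ : IntermediateField ℚ (A i).E) →+* L,
        c i (topE.symm ψ) • trV ⊤ (ww A j P i) (g • ψ) = 0 := by
    intro g
    rw [← hWrel g]
    exact Finset.sum_congr rfl fun i _ => sum_topV (c i) (ww A j P i) g
  have key := transferC (E := fun i => (A i).E) (V := VV) (V' := ℚ) (κ := cc L) hκ φ₀
    (w := ww A j P) (ww_odd A j hD) (e := ee A j) (ee_odd A j) H1 H2'
    (∑ i ∈ (Finset.univ : Finset ι), finrank ℚ (⊤ : IntermediateField ℚ (A i).E))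
    (fun _ => ⊤) Finset.univ hreal rfl (fun i ψ => c i (topE.symm ψ)) hcκ hrelT
  intro σ
  have h1 := key σ
  have h2 : ∑ i, ∑ φ : (A i).E →+* L, c i φ • ee A j i (σ • φ) = 0 := by
    rw [← h1]
    exact (Finset.sum_congr rfl fun i _ => sum_topV (c i) (ee A j i) σ).symm
  have h3 := hN2 (fun z : EE A L => ee A j z.1 (σ • z.2)) (fun z => by
      change ee A j z.1 (σ • cbar z.2) = _
      rw [hcg, ee_odd A j])
  rw [Fintype.sum_sigma] at h3
  have h4 : (2 : ℤ) • ∑ l, ee A j (y l).1 (σ • (y l).2) = 0 := h3.symm.trans h2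
  have h5 : ∑ l, ee A j (y l).1 (σ • (y l).2) = 0 := zs_cancel two_ne_zero h4
  have h6 : ((∑ l, (⟨(productOf A t).factor (I l).1, (I l).2⟩ : Letter L).s j σ : ℤ) : ℚ) = 0 := by
    push_cast
    exact h5
  exact_mod_cast h6


section conv

variable (hj : ∀ i, ∀ ψ : (A i).E →+* ℂ, ∃ φ : (A i).E →+* L, j.comp φ = ψ)

include hj in
theorem iso_of_isolated (T : ∀ i, IntermediateField ℚ (A i).E) (S : Finset ι)
    (h : Isolated (K := fun i => (A i).E) T S) :
    IsoCycle (Y := SubEmb L T S) (subCb (cc L) T S) (L ≃ₐ[ℚ] L) :=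
  isoL_of (K := fun i => (A i).E) j hj T S (fun x => (emb_cc j x).symm) (W.isolated_of h)

variable {P}

include hj in
theorem smallSepC_of (hB : P.Bost) (hD : P.Deligne) (h : AbelianOrCyclic A) :
    SmallSepC A L j P := by
  intro T S hS hT hsep
  rcases h T S hS (fun i hi => (nonReal_iff _).1 (hT i hi)) (separated_of A j hj T S hsep) with
    h1 | h1 | h1
  · exact Or.inr (direct_of_comm A j hB hD T S fun i hi => commAct_of (h1 i hi) j)
  · exact Or.inl (Or.inl (small_of_mildFamily A j hj T S h1))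
  · exact Or.inl (Or.inr (iso_of_isolated A j hj T S h1))

end conv

end

variable {ι : Type} [Fintype ι] (A : ι → CMPair) {P : PeriodSystem}

theorem allHodge_iffC (hB : P.Bost) (hD : P.Deligne) (hA : AbelianOrCyclic A) :
    AllHodge P A ↔ TwoTermRelations P A := by
  classical
  rcases isEmpty_or_nonempty ι with hι | hι
  · constructor
    · intro _ T i
      exact (hι.false i).elim
    · intro _ J _ t k f hf
      have hJ : IsEmpty J := ⟨fun a => hι.false (t a)⟩
      rcases isEmpty_or_nonempty (Fin (2 * k)) with hκ | ⟨⟨k0⟩⟩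
      · exact hodge_unit f
      · have h1 : f = 0 := by
          ext v
          have h2 : v k0 = 0 := by
            funext i
            exact (hJ.false i).elim
          rw [f.map_coord_zero k0 h2]
          rfl
        rw [h1]
        exact hodge_zero _ _
  obtain ⟨L, _, _, _, _, j, hj⟩ := exists_cm (⟨ι, A⟩ : CMAV)
  have hj' : ∀ i, ∀ ψ : (A i).E →+* ℂ, ∃ φ : (A i).E →+* L, j.comp φ = ψ := hj
  rw [twoTerm_iff A j hj']
  constructor
  · intro hall T i i' hi hi' ψ ψ' m n hm hn hh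
    have φ₀ : ∀ i, ((A i).E →+* L) := fun i => (hj' i (Classical.arbitrary _)).choose
    have hκ : ∀ i, ∀ φ : (A i).E →+* L, cc L • φ = cbar φ := fun i φ => cc_smul j φ
    obtain ⟨m', rfl⟩ := Int.eq_ofNat_of_zero_le hm.le
    obtain ⟨n', rfl⟩ := Int.eq_ofNat_of_zero_le hn.le
    let N : EE A L → ℕ := fun z =>
      (if hz : z.1 = i then (if res (T i) (hz ▸ z.2) = ψ then m' else 0) else 0) +
      (if hz : z.1 = i' then (if res (T i') (hz ▸ z.2) = cc L • ψ' then n' else 0) else 0)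
    have hN : ∀ {U : Type} [AddCommGroup U] (u : ∀ i, ((A i).E →+* L) → U) (g : L ≃ₐ[ℚ] L),
        ∑ z : EE A L, N z • u z.1 (g • z.2) =
          m' • trV (T i) (u i) (g • ψ) + n' • trV (T i') (u i') (g • cc L • ψ') := by
      intro U _ u g
      simp only [N, add_smul, Finset.sum_add_distrib]
      rw [Fintype.sum_sigma, Fintype.sum_sigma]
      have h1 : ∀ (k : ι) (χ : T k →+* L) (p : ℕ), ∑ i, ∑ φ : (A i).E →+* L,
          (if hz : i = k then (if res (T k) (hz ▸ φ) = χ then p else 0) else 0) •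
            u i (g • φ) = p • trV (T k) (u k) (g • χ) := by
        intro k χ p
        rw [Finset.sum_eq_single k]
        · rw [trV_smul]
          unfold trV fsV
          rw [Finset.smul_sum]
          refine Finset.sum_congr rfl fun φ _ => ?_
          rw [dif_pos rfl]
          by_cases h : res (T k) φ = χ
          · rw [if_pos h, if_pos h]
          · rw [if_neg h, if_neg h, zero_smul, smul_zero]
        · intro i _ hik
          refine Finset.sum_eq_zero fun φ _ => ?_
          rw [dif_neg hik, zero_smul]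
        · intro h
          exact absurd (Finset.mem_univ _) h
      rw [← h1 i ψ m', ← h1 i' (cc L • ψ') n']
    have key := rel_of_hodge hall N (fun g => by
      rw [hN (ww A j P) g, sub_comm (φ₀ i') (hκ i'), trV_odd (φ₀ i') (hκ i') (T i')
        (ww_odd A j hD i'), smul_neg]
      have h1 := hh g
      rw [natCast_zsmul, natCast_zsmul] at h1
      rw [h1, add_neg_cancel])
    intro g
    have h1 := key g
    rw [hN (ee A j) g, sub_comm (φ₀ i') (hκ i'), trV_odd (φ₀ i') (hκ i') (T i')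
      (ee_odd A j i'), smul_neg, ← sub_eq_add_neg, sub_eq_zero] at h1
    rw [natCast_zsmul, natCast_zsmul]
    exact h1
  · intro h J _ t k f hf
    exact hodge_of_twoTermC hD hj' h (smallSepC_of A j hj' hB hD hA) t k f hf


end Run7.h8.IC.Vec
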